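import Mathlib

/-!
# Ornstein-Uhlenbeck semigroup, Bessel potentials and Sobolev-Watanabe spaces

Everything is defined for a measure `mu` on a real normed space `E` (in the application a
centered Gaussian measure on a separable Banach space, e.g. the classical Wiener measure) and for
functions with values in a real Banach space `F` (in the application a Hilbert space).
-/

open MeasureTheory ProbabilityTheory
open scoped ENNReal NNReal Real Topology

namespace Pool.Agent.H96.OU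

variable {E : Type*} [NormedAddCommGroup E] [NormedSpace ℝ E] [MeasurableSpace E]
variable {F : Type*} [NormedAddCommGroup F] [NormedSpace ℝ F]

/-- The Ornstein-Uhlenbeck semigroup `exp (t L)` of the measure `μ`, by Mehler's formula:
`(P_t f)(x) = ∫ f (e^{-t} x + √(1 - e^{-2t}) y) μ(dy)`. -/
noncomputable def mehler (μ : Measure E) (t : ℝ) (f : E → F) (x : E) : F :=
  ∫ y, f (Real.exp (-t) • x + √(1 - Real.exp (-(2 * t))) • y) ∂μ

/-- The Bessel potential `(1 - L)^{-r/2}` of the Ornstein-Uhlenbeck operator `L`: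
`(1 - L)^{-r/2} f = Γ(r/2)⁻¹ ∫_0^∞ t^{r/2 - 1} e^{-t} P_t f dt`, and the identity for `r = 0`. -/
noncomputable def bessel (μ : Measure E) (r : ℕ) (f : E → F) (x : E) : F :=
  if r = 0 then f x
  else (Real.Gamma ((r : ℝ) / 2))⁻¹ •
    ∫ t in Set.Ioi (0 : ℝ), (t ^ ((r : ℝ) / 2 - 1) * Real.exp (-t)) • mehler μ t f x

/-- `V` belongs to the Sobolev-Watanabe space `𝔻^p_r = (1 - L)^{-r/2} (L^p)`. -/
def MemSobolev (μ : Measure E) (p : ℝ≥0∞) (r : ℕ) (V : E → F) : Prop :=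
  ∃ U : E → F, MemLp U p μ ∧ V =ᵐ[μ] bessel μ r U

/-- The Sobolev-Watanabe norm `‖V‖_{p,r} = ‖(1 - L)^{r/2} V‖_{L^p}`: the `L^p` norm of the
function `U` with `V = (1 - L)^{-r/2} U` (and `∞` if there is none). -/
noncomputable def sobolevNorm (μ : Measure E) (p : ℝ≥0∞) (r : ℕ) (V : E → F) : ℝ≥0∞ :=
  ⨅ (U : E → F) (_ : MemLp U p μ) (_ : V =ᵐ[μ] bessel μ r U), eLpNorm U p μ

/-- `𝔻^∞ = ⋂_{1 < p < ∞, r} 𝔻^p_r`. -/
def MemDInfty (μ : Measure E) (V : E → F) : Prop :=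
  ∀ p : ℝ≥0∞, 1 < p → p ≠ ∞ → ∀ r : ℕ, MemSobolev μ p r V

/-- `𝔻^2_∞ = ⋂_r 𝔻^2_r`. -/
def MemDTwoInfty (μ : Measure E) (V : E → F) : Prop :=
  ∀ r : ℕ, MemSobolev μ 2 r V

end Pool.Agent.H96.OU
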