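import Mathlib

open MeasureTheory ProbabilityTheory
open scoped ENNReal NNReal Real Topology

namespace Pool.Agent.H96.OU

variable {E : Type*} [NormedAddCommGroup E] [NormedSpace ℝ E] [MeasurableSpace E]

/-- `μ ⊗ μ` is invariant under all rotations. -/
def RotInv (μ : Measure E) : Prop :=
  ∀ θ : ℝ, (μ.prod μ).map (ContinuousLinearMap.rotation θ) = μ.prod μ

lemma exists_cos_sin {a b : ℝ} (hab : a ^ 2 + b ^ 2 = 1) :
    ∃ θ : ℝ, Real.cos θ = a ∧ Real.sin θ = b := by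
  have hn : ‖(⟨a, b⟩ : ℂ)‖ = 1 := by
    rw [Complex.norm_eq_sqrt_sq_add_sq]
    simp [hab]
  have hne : (⟨a, b⟩ : ℂ) ≠ 0 := by
    intro h
    rw [h] at hn
    simp at hn
  refine ⟨Complex.arg ⟨a, b⟩, ?_, ?_⟩
  · rw [Complex.cos_arg hne, hn]; simp
  · rw [Complex.sin_arg, hn]; simp

variable [BorelSpace E] [SecondCountableTopology E] {μ : Measure E} [IsProbabilityMeasure μ]

lemma RotInv.mp_rot (h : RotInv μ) {a b : ℝ} (hab : a ^ 2 + b ^ 2 = 1) :
    MeasurePreserving (fun p : E × E => (a • p.1 + b • p.2, -b • p.1 + a • p.2))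
      (μ.prod μ) (μ.prod μ) := by
  obtain ⟨θ, rfl, rfl⟩ := exists_cos_sin hab
  exact ⟨by fun_prop, h θ⟩

lemma RotInv.mp_comb (h : RotInv μ) {a b : ℝ} (hab : a ^ 2 + b ^ 2 = 1) :
    MeasurePreserving (fun p : E × E => a • p.1 + b • p.2) (μ.prod μ) μ :=
  measurePreserving_fst.comp (h.mp_rot hab)

lemma RotInv.mp_neg (h : RotInv μ) : MeasurePreserving (fun x : E => -x) μ μ := by
  have h1 := h.mp_comb (a := -1) (b := 0) (by norm_num)
  have h2 : (fun p : E × E => (-1 : ℝ) • p.1 + (0 : ℝ) • p.2) = (fun x : E => -x) ∘ Prod.fst := by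
    ext p; simp
  rw [h2] at h1
  refine ⟨by fun_prop, ?_⟩
  have h3 := h1.map_eq
  rw [← Measure.map_map (by fun_prop) (by fun_prop)] at h3
  have h4 : (μ.prod μ).map Prod.fst = μ := measurePreserving_fst.map_eq
  rwa [h4] at h3

lemma RotInv.mp_refl (h : RotInv μ) {a b : ℝ} (hab : a ^ 2 + b ^ 2 = 1) :
    MeasurePreserving (fun p : E × E => (a • p.1 + b • p.2, b • p.1 - a • p.2))
      (μ.prod μ) (μ.prod μ) := by
  have h1 := ((MeasurePreserving.id μ).prod h.mp_neg).comp (h.mp_rot hab)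
  convert h1 using 1
  ext p <;> simp [Prod.map]
  abel

end Pool.Agent.H96.OU
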