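import Mathlib
import Pool.Agent.H96.OU.Defs
import Pool.Agent.H96.OU.Rot

open MeasureTheory ProbabilityTheory
open scoped ENNReal NNReal Real Topology

set_option linter.unusedSectionVars false

namespace Pool.Agent.H96.OU

/-- A probability measure on `[0, ∞)`. -/
class Mix (ν : Measure ℝ) : Prop extends IsProbabilityMeasure ν where
  nonneg : ∀ᵐ t ∂ν, 0 ≤ t

section pt

variable {E : Type*} [NormedAddCommGroup E] [NormedSpace ℝ E]

/-- the point `e^{-t} x + √(1-e^{-2t}) y` -/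
noncomputable def pt (t : ℝ) (x y : E) : E :=
  Real.exp (-t) • x + √(1 - Real.exp (-(2 * t))) • y

lemma coef_sq {t : ℝ} (ht : 0 ≤ t) :
    Real.exp (-t) ^ 2 + √(1 - Real.exp (-(2 * t))) ^ 2 = 1 := by
  have h : Real.exp (-(2 * t)) ≤ 1 := by
    apply Real.exp_le_one_iff.mpr; linarith
  rw [Real.sq_sqrt (by linarith), ← Real.exp_nat_mul]
  push_cast
  ring_nf

lemma continuous_pt : Continuous (fun q : ℝ × (E × E) => pt q.1 q.2.1 q.2.2) := by
  unfold pt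
  fun_prop

lemma continuous_pt' : Continuous (fun q : E × (ℝ × E) => pt q.2.1 q.1 q.2.2) := by
  unfold pt
  fun_prop

lemma continuous_pt2 (t : ℝ) : Continuous (fun q : E × E => pt t q.1 q.2) := by
  unfold pt
  fun_prop

end pt

variable {E : Type*} [NormedAddCommGroup E] [NormedSpace ℝ E] [MeasurableSpace E]
variable {F : Type*} [NormedAddCommGroup F] [NormedSpace ℝ F]

lemma mehler_eq_pt (μ : Measure E) (t : ℝ) (f : E → F) (x : E) :
    mehler μ t f x = ∫ y, f (pt t x y) ∂μ := rfl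

/-- mixtures of the Ornstein-Uhlenbeck semigroup -/
noncomputable def Pm (μ : Measure E) (ν : Measure ℝ) (f : E → F) (x : E) : F :=
  ∫ z : ℝ × E, f (pt z.1 x z.2) ∂(ν.prod μ)

variable [BorelSpace E] [SecondCountableTopology E] {μ : Measure E} [IsProbabilityMeasure μ]
  {ν : Measure ℝ} [Mix ν]

lemma measurable_pt : Measurable (fun q : ℝ × (E × E) => pt q.1 q.2.1 q.2.2) :=
  continuous_pt.measurable

lemma measurable_pt' : Measurable (fun q : E × (ℝ × E) => pt q.2.1 q.1 q.2.2) :=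
  continuous_pt'.measurable

lemma measurable_pt2 (t : ℝ) : Measurable (fun q : E × E => pt t q.1 q.2) :=
  (continuous_pt2 t).measurable

lemma measurable_ptx (x : E) : Measurable (fun q : ℝ × E => pt q.1 x q.2) :=
  measurable_pt'.comp measurable_prodMk_left

lemma mp_pt (h : RotInv μ) {t : ℝ} (ht : 0 ≤ t) :
    MeasurePreserving (fun p : E × E => pt t p.1 p.2) (μ.prod μ) μ :=
  h.mp_comb (coef_sq ht)

/-- `(t, (x, y)) ↦ pt t x y` is measure preserving. -/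
lemma mp_pt3 (h : RotInv μ) :
    MeasurePreserving (fun q : ℝ × (E × E) => pt q.1 q.2.1 q.2.2) (ν.prod (μ.prod μ)) μ := by
  have h1 : MeasurePreserving (fun q : ℝ × (E × E) => (q.1, pt q.1 q.2.1 q.2.2))
      (ν.prod (μ.prod μ)) (ν.prod μ) := by
    refine (MeasurePreserving.id ν).skew_product (g := fun t (p : E × E) => pt t p.1 p.2) ?_ ?_
    · exact measurable_pt
    · filter_upwards [Mix.nonneg (ν := ν)] with t ht
      exact (mp_pt h ht).map_eq
  exact measurePreserving_snd.comp h1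

/-- the rearrangement `(x, (t, y)) ↦ (t, (x, y))` -/
lemma mp_rearr (μ : Measure E) (ν : Measure ℝ) [IsProbabilityMeasure μ] [IsProbabilityMeasure ν] :
    MeasurePreserving (fun q : E × (ℝ × E) => (q.2.1, (q.1, q.2.2)))
      (μ.prod (ν.prod μ)) (ν.prod (μ.prod μ)) := by
  have h1 : MeasurePreserving (MeasurableEquiv.prodAssoc.symm : E × (ℝ × E) ≃ᵐ (E × ℝ) × E)
      (μ.prod (ν.prod μ)) ((μ.prod ν).prod μ) :=
    (measurePreserving_prodAssoc μ ν μ).symm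
  have h2 : MeasurePreserving (Prod.map Prod.swap id : (E × ℝ) × E → (ℝ × E) × E)
      ((μ.prod ν).prod μ) ((ν.prod μ).prod μ) :=
    Measure.measurePreserving_swap.prod (MeasurePreserving.id μ)
  have h3 : MeasurePreserving (MeasurableEquiv.prodAssoc : (ℝ × E) × E ≃ᵐ ℝ × (E × E))
      ((ν.prod μ).prod μ) (ν.prod (μ.prod μ)) :=
    measurePreserving_prodAssoc ν μ μ
  have h4 := h3.comp (h2.comp h1)
  exact h4

lemma mp_pt' (h : RotInv μ) :
    MeasurePreserving (fun q : E × (ℝ × E) => pt q.2.1 q.1 q.2.2) (μ.prod (ν.prod μ)) μ :=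
  (mp_pt3 h).comp (mp_rearr μ ν)

lemma lintegral_pt' (h : RotInv μ) {g : E → ℝ≥0∞} (hg : AEMeasurable g μ) :
    ∫⁻ x, ∫⁻ z : ℝ × E, g (pt z.1 x z.2) ∂(ν.prod μ) ∂μ = ∫⁻ x, g x ∂μ := by
  have hm := mp_pt' (ν := ν) h
  have hg' : AEMeasurable g (Measure.map (fun q : E × (ℝ × E) => pt q.2.1 q.1 q.2.2)
      (μ.prod (ν.prod μ))) := by rwa [hm.map_eq]
  rw [← lintegral_prod (fun q : E × (ℝ × E) => g (pt q.2.1 q.1 q.2.2))
    (hg'.comp_measurable hm.measurable), ← lintegral_map' hg' hm.measurable.aemeasurable, hm.map_eq]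

lemma ae_pt' (h : RotInv μ) {p : E → Prop} (hp : ∀ᵐ x ∂μ, p x) :
    ∀ᵐ x ∂μ, ∀ᵐ z ∂(ν.prod μ), p (pt z.1 x z.2) := by
  have hm := mp_pt' (ν := ν) h
  exact Measure.ae_ae_of_ae_prod (hm.quasiMeasurePreserving.ae hp)

lemma Pm_congr (h : RotInv μ) {f g : E → F} (hfg : f =ᵐ[μ] g) :
    Pm μ ν f =ᵐ[μ] Pm μ ν g := by
  filter_upwards [ae_pt' (ν := ν) h hfg] with x hx
  exact integral_congr_ae hx

lemma aestronglyMeasurable_pt' (h : RotInv μ) {f : E → F} (hf : AEStronglyMeasurable f μ) :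
    AEStronglyMeasurable (fun q : E × (ℝ × E) => f (pt q.2.1 q.1 q.2.2)) (μ.prod (ν.prod μ)) :=
  hf.comp_measurePreserving (mp_pt' h)

lemma aestronglyMeasurable_Pm (h : RotInv μ) {f : E → F} (hf : AEStronglyMeasurable f μ) :
    AEStronglyMeasurable (Pm μ ν f) μ :=
  (aestronglyMeasurable_pt' h hf).integral_prod_right'

lemma ae_aesm (h : RotInv μ) {f : E → F} (hf : AEStronglyMeasurable f μ) :
    ∀ᵐ x ∂μ, AEStronglyMeasurable (fun z : ℝ × E => f (pt z.1 x z.2)) (ν.prod μ) :=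
  (aestronglyMeasurable_pt' h hf).prodMk_left

lemma ae_integrable (h : RotInv μ) {f : E → F} (hf : Integrable f μ) :
    ∀ᵐ x ∂μ, Integrable (fun z : ℝ × E => f (pt z.1 x z.2)) (ν.prod μ) := by
  have h1 : Integrable (fun q : E × (ℝ × E) => f (pt q.2.1 q.1 q.2.2)) (μ.prod (ν.prod μ)) :=
    (mp_pt' h).integrable_comp_of_integrable hf
  exact h1.prod_right_ae

/-- Jensen's inequality for lower integrals. -/
lemma lintegral_rpow_jensen {α : Type*} [MeasurableSpace α] {m : Measure α}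
    [IsProbabilityMeasure m] {g : α → ℝ≥0∞} (hg : AEMeasurable g m) {p : ℝ} (hp : 1 ≤ p) :
    (∫⁻ a, g a ∂m) ^ p ≤ ∫⁻ a, g a ^ p ∂m := by
  have h1 := eLpNorm'_le_eLpNorm'_of_exponent_le (p := 1) (q := p) (f := g) one_pos hp m
    hg.aestronglyMeasurable
  have hp0 : 0 < p := by linarith
  simp only [eLpNorm', enorm_eq_self, ENNReal.rpow_one, div_one] at h1
  calc (∫⁻ a, g a ∂m) ^ p ≤ ((∫⁻ a, g a ^ p ∂m) ^ (1 / p)) ^ p :=
        ENNReal.rpow_le_rpow h1 hp0.le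
    _ = ∫⁻ a, g a ^ p ∂m := by
        rw [← ENNReal.rpow_mul]
        field_simp
        simp

/-- scalar (lower integral) version of the mixture operator -/
noncomputable def Qm (μ : Measure E) (ν : Measure ℝ) (g : E → ℝ≥0∞) (x : E) : ℝ≥0∞ :=
  ∫⁻ z : ℝ × E, g (pt z.1 x z.2) ∂(ν.prod μ)

omit [BorelSpace E] [SecondCountableTopology E] [IsProbabilityMeasure μ] [Mix ν] in
lemma enorm_Pm_le (f : E → F) (x : E) : ‖Pm μ ν f x‖ₑ ≤ Qm μ ν (fun y => ‖f y‖ₑ) x :=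
  enorm_integral_le_lintegral_enorm _

lemma Qm_rpow_le (h : RotInv μ) {g : E → ℝ≥0∞} (hg : AEMeasurable g μ) {p : ℝ} (hp : 1 ≤ p) :
    ∀ᵐ x ∂μ, (Qm μ ν g x) ^ p ≤ Qm μ ν (fun y => g y ^ p) x := by
  have hm := mp_pt' (ν := ν) h
  have hg' : AEMeasurable g (Measure.map (fun q : E × (ℝ × E) => pt q.2.1 q.1 q.2.2)
      (μ.prod (ν.prod μ))) := by rwa [hm.map_eq]
  have h2 : ∀ᵐ x ∂μ, AEMeasurable (fun z : ℝ × E => g (pt z.1 x z.2)) (ν.prod μ) := by
    have h3 := (hg'.comp_measurable hm.measurable).aestronglyMeasurable.prodMk_left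
    filter_upwards [h3] with x hx
    exact hx.aemeasurable
  filter_upwards [h2] with x hx
  exact lintegral_rpow_jensen hx hp

lemma lintegral_Qm (h : RotInv μ) {g : E → ℝ≥0∞} (hg : AEMeasurable g μ) :
    ∫⁻ x, Qm μ ν g x ∂μ = ∫⁻ x, g x ∂μ := lintegral_pt' h hg

lemma lintegral_enorm_Pm_rpow_le (h : RotInv μ) {f : E → F} (hf : AEStronglyMeasurable f μ)
    {p : ℝ} (hp : 1 ≤ p) :
    ∫⁻ x, ‖Pm μ ν f x‖ₑ ^ p ∂μ ≤ ∫⁻ x, ‖f x‖ₑ ^ p ∂μ := by
  rw [← lintegral_Qm (ν := ν) h (hf.enorm.pow_const p)]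
  refine lintegral_mono_ae ?_
  filter_upwards [Qm_rpow_le (ν := ν) h hf.enorm hp] with x hx
  refine le_trans (ENNReal.rpow_le_rpow (enorm_Pm_le f x) (by linarith)) hx

lemma eLpNorm_Pm_le (h : RotInv μ) {f : E → F} (hf : AEStronglyMeasurable f μ)
    {p : ℝ≥0∞} (hp : 1 ≤ p) (hp' : p ≠ ∞) :
    eLpNorm (Pm μ ν f) p μ ≤ eLpNorm f p μ := by
  have hp0 : p ≠ 0 := by rintro rfl; simp at hp
  have hp1 : 1 ≤ p.toReal := by
    rw [← ENNReal.toReal_one]
    exact (ENNReal.toReal_le_toReal ENNReal.one_ne_top hp').mpr hp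
  rw [eLpNorm_eq_lintegral_rpow_enorm_toReal hp0 hp', eLpNorm_eq_lintegral_rpow_enorm_toReal hp0 hp']
  exact ENNReal.rpow_le_rpow (lintegral_enorm_Pm_rpow_le h hf hp1) (by positivity)

lemma memLp_Pm (h : RotInv μ) {f : E → F} {p : ℝ≥0∞} (hf : MemLp f p μ) (hp : 1 ≤ p)
    (hp' : p ≠ ∞) : MemLp (Pm μ ν f) p μ :=
  ⟨aestronglyMeasurable_Pm h hf.1, (eLpNorm_Pm_le h hf.1 hp hp').trans_lt hf.2⟩

omit [BorelSpace E] [SecondCountableTopology E] in
lemma norm_Pm_le_of_bound {f : E → F} {B : ℝ} (hf : ∀ x, ‖f x‖ ≤ B) (x : E) :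
    ‖Pm μ ν f x‖ ≤ B := by
  have h1 := norm_integral_le_of_norm_le_const (μ := ν.prod μ)
    (f := fun z : ℝ × E => f (pt z.1 x z.2)) (C := B) (Filter.Eventually.of_forall fun z => hf _)
  simpa [Pm] using h1

end Pool.Agent.H96.OU
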