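import Mathlib
import Pool.Agent.H96.OU.Op1

open MeasureTheory ProbabilityTheory
open scoped ENNReal NNReal Real Topology

set_option linter.unusedSectionVars false

namespace Pool.Agent.H96.OU

section pt

variable {E : Type*} [NormedAddCommGroup E] [NormedSpace ℝ E]

lemma pt_pt {s t : ℝ} (hs : 0 ≤ s) (ht : 0 ≤ t) :
    ∃ a b : ℝ, a ^ 2 + b ^ 2 = 1 ∧ ∀ x y z : E,
      pt t (pt s x y) z = pt (s + t) x (a • y + b • z) := by
  have hs1 : Real.exp (-(2 * s)) ≤ 1 := Real.exp_le_one_iff.mpr (by linarith)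
  have ht1 : Real.exp (-(2 * t)) ≤ 1 := Real.exp_le_one_iff.mpr (by linarith)
  have hst : Real.exp (-(2 * (s + t))) = Real.exp (-(2 * s)) * Real.exp (-(2 * t)) := by
    rw [← Real.exp_add]; ring_nf
  have hst' : Real.exp (-(s + t)) = Real.exp (-s) * Real.exp (-t) := by
    rw [← Real.exp_add]; ring_nf
  have ht2 : Real.exp (-(2 * t)) = Real.exp (-t) ^ 2 := by
    rw [← Real.exp_nat_mul]; push_cast; ring_nf
  rcases eq_or_lt_of_le (show 0 ≤ 1 - Real.exp (-(2 * (s + t))) by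
    rw [hst]; nlinarith [Real.exp_pos (-(2 * s)), Real.exp_pos (-(2 * t))]) with h0 | h0
  · -- degenerate case: `s = t = 0`
    have h1 : Real.exp (-(2 * (s + t))) = 1 := by linarith
    have h2 : s + t = 0 := by
      have := Real.exp_eq_one_iff _ |>.mp h1
      linarith
    have hs0 : s = 0 := by linarith
    have ht0 : t = 0 := by linarith
    refine ⟨1, 0, by norm_num, fun x y z => ?_⟩
    subst hs0 ht0
    simp [pt]
  · set c := √(1 - Real.exp (-(2 * (s + t)))) with hc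
    have hcpos : 0 < c := Real.sqrt_pos.mpr h0
    have hc2 : c ^ 2 = 1 - Real.exp (-(2 * (s + t))) := Real.sq_sqrt h0.le
    set cs := √(1 - Real.exp (-(2 * s))) with hcs
    set ct := √(1 - Real.exp (-(2 * t))) with hct
    have hcs2 : cs ^ 2 = 1 - Real.exp (-(2 * s)) := Real.sq_sqrt (by linarith)
    have hct2 : ct ^ 2 = 1 - Real.exp (-(2 * t)) := Real.sq_sqrt (by linarith)
    refine ⟨Real.exp (-t) * cs / c, ct / c, ?_, fun x y z => ?_⟩
    · rw [div_pow, div_pow, ← add_div, mul_pow, hcs2, hct2, hc2, hst, ← ht2]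
      rw [div_eq_one_iff_eq (by rw [← hst]; exact h0.ne')]
      ring
    · simp only [pt]
      rw [← hcs, ← hct, ← hc, hst']
      simp only [smul_add, smul_smul]
      have e1 : c * (Real.exp (-t) * cs / c) = Real.exp (-t) * cs := by field_simp
      have e2 : c * (ct / c) = ct := by field_simp
      rw [e1, e2, add_assoc, mul_comm (Real.exp (-s))]

end pt

variable {E : Type*} [NormedAddCommGroup E] [NormedSpace ℝ E] [MeasurableSpace E]
variable {F : Type*} [NormedAddCommGroup F] [NormedSpace ℝ F]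
variable [BorelSpace E] [SecondCountableTopology E] {μ : Measure E} [IsProbabilityMeasure μ]
  {ν : Measure ℝ} [Mix ν] {ν' : Measure ℝ} [Mix ν']

lemma lintegral_pt_pt (h : RotInv μ) {s t : ℝ} (hs : 0 ≤ s) (ht : 0 ≤ t) (x : E)
    {g : E → ℝ≥0∞} (hg : Measurable g) :
    ∫⁻ y, ∫⁻ z, g (pt t (pt s x y) z) ∂μ ∂μ = ∫⁻ w, g (pt (s + t) x w) ∂μ := by
  obtain ⟨a, b, hab, hpt⟩ := pt_pt (E := E) hs ht
  have hm : Measurable (fun w : E => g (pt (s + t) x w)) := by
    refine hg.comp ?_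
    unfold pt
    fun_prop
  rw [← (h.mp_comb hab).lintegral_comp hm, lintegral_prod]
  · simp_rw [hpt]
  · exact (hm.comp (h.mp_comb hab).measurable).aemeasurable

instance instMixConv : Mix (ν.conv ν') where
  nonneg := by
    have hm : Measurable (fun p : ℝ × ℝ => p.1 + p.2) := by fun_prop
    rw [Measure.conv, ae_map_iff hm.aemeasurable (p := fun t : ℝ => 0 ≤ t)
      (measurableSet_le measurable_const measurable_id)]
    have h1 : ∀ᵐ p ∂(ν.prod ν'), 0 ≤ p.1 :=
      Measure.quasiMeasurePreserving_fst.ae (Mix.nonneg (ν := ν))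
    have h2 : ∀ᵐ p ∂(ν.prod ν'), 0 ≤ p.2 :=
      Measure.quasiMeasurePreserving_snd.ae (Mix.nonneg (ν := ν'))
    filter_upwards [h1, h2] with p hp1 hp2
    positivity

/-- composition law at the level of transition kernels -/
lemma map_pt_pt (h : RotInv μ) (x : E) :
    ((ν.prod μ).prod (ν'.prod μ)).map
      (fun q : (ℝ × E) × (ℝ × E) => pt q.2.1 (pt q.1.1 x q.1.2) q.2.2)
      = ((ν.conv ν').prod μ).map (fun z : ℝ × E => pt z.1 x z.2) := by
  have hm1 : Measurable (fun q : (ℝ × E) × (ℝ × E) => pt q.2.1 (pt q.1.1 x q.1.2) q.2.2) := by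
    unfold pt; fun_prop
  have hm2 : Measurable (fun z : ℝ × E => pt z.1 x z.2) := measurable_ptx x
  refine Measure.ext_of_lintegral _ fun g hg => ?_
  rw [lintegral_map hg hm1, lintegral_map hg hm2]
  rw [lintegral_prod (fun q : (ℝ × E) × (ℝ × E) => g (pt q.2.1 (pt q.1.1 x q.1.2) q.2.2))
    (hg.comp hm1).aemeasurable,
    lintegral_prod (fun z : ℝ × E => g (pt z.1 x z.2)) (hg.comp hm2).aemeasurable]
  rw [lintegral_prod]
  swap
  · exact (Measurable.lintegral_prod_right' (hg.comp hm1)).aemeasurable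
  rw [Measure.lintegral_conv]
  swap
  · exact Measurable.lintegral_prod_right' (hg.comp hm2)
  refine lintegral_congr_ae ?_
  filter_upwards [Mix.nonneg (ν := ν)] with s hs
  have e1 : ∀ y : E, ∫⁻ z : ℝ × E, g (pt z.1 (pt s x y) z.2) ∂(ν'.prod μ)
      = ∫⁻ t, ∫⁻ z, g (pt t (pt s x y) z) ∂μ ∂ν' := by
    intro y
    rw [lintegral_prod]
    exact (hg.comp (measurable_ptx _)).aemeasurable
  simp_rw [e1]
  rw [lintegral_lintegral_swap]
  swap
  · have hm3 : Measurable (fun q : (E × ℝ) × E => g (pt q.1.2 (pt s x q.1.1) q.2)) := by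
      refine hg.comp ?_
      unfold pt; fun_prop
    exact (Measurable.lintegral_prod_right' hm3).aemeasurable
  refine lintegral_congr_ae ?_
  filter_upwards [Mix.nonneg (ν := ν')] with t ht
  exact lintegral_pt_pt h hs ht x hg

lemma ae_kappa (h : RotInv μ) {p : E → Prop} (hp : ∀ᵐ x ∂μ, p x) :
    ∀ᵐ x ∂μ, ∀ᵐ e ∂((ν.prod μ).map (fun z : ℝ × E => pt z.1 x z.2)), p e := by
  obtain ⟨N, hN, hNm, hN0⟩ := exists_measurable_superset_of_null hp
  have h1 : ∀ᵐ x ∂μ, x ∉ N := by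
    rw [ae_iff]; simpa using hN0
  filter_upwards [ae_pt' (ν := ν) h h1] with x hx
  have h2 : ∀ᵐ e ∂((ν.prod μ).map (fun z : ℝ × E => pt z.1 x z.2)), e ∉ N := by
    rw [ae_map_iff (measurable_ptx x).aemeasurable (p := fun e => e ∉ N) hNm.compl]
    exact hx
  filter_upwards [h2] with e he
  by_contra hpe
  exact he (hN hpe)

lemma ae_aesm_kappa (h : RotInv μ) {f : E → F} (hf : AEStronglyMeasurable f μ) :
    ∀ᵐ x ∂μ, AEStronglyMeasurable f ((ν.prod μ).map (fun z : ℝ × E => pt z.1 x z.2)) := by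
  filter_upwards [ae_kappa (ν := ν) h hf.ae_eq_mk] with x hx
  exact ⟨hf.mk f, hf.stronglyMeasurable_mk, hx⟩

lemma Pm_Pm (h : RotInv μ) {f : E → F} (hf : Integrable f μ) :
    Pm μ ν (Pm μ ν' f) =ᵐ[μ] Pm μ (ν.conv ν') f := by
  have h1 := ae_integrable (ν := ν.conv ν') h hf
  filter_upwards [h1, ae_aesm_kappa (ν := ν.conv ν') h hf.1] with x hx hf1
  have hm1 : Measurable (fun q : (ℝ × E) × (ℝ × E) => pt q.2.1 (pt q.1.1 x q.1.2) q.2.2) := by
    unfold pt; fun_prop
  have hm2 : Measurable (fun z : ℝ × E => pt z.1 x z.2) := measurable_ptx x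
  have hmap := map_pt_pt (ν := ν) (ν' := ν') h x
  -- integrability with respect to the common law
  have hf2 : Integrable f (((ν.conv ν').prod μ).map (fun z : ℝ × E => pt z.1 x z.2)) := by
    rw [integrable_map_measure hf1 hm2.aemeasurable]
    exact hx
  have hf3 : Integrable f (((ν.prod μ).prod (ν'.prod μ)).map
      (fun q : (ℝ × E) × (ℝ × E) => pt q.2.1 (pt q.1.1 x q.1.2) q.2.2)) := by
    rw [hmap]; exact hf2
  have hf4 : Integrable (fun q : (ℝ × E) × (ℝ × E) => f (pt q.2.1 (pt q.1.1 x q.1.2) q.2.2))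
      ((ν.prod μ).prod (ν'.prod μ)) := by
    rwa [integrable_map_measure hf3.1 hm1.aemeasurable] at hf3
  calc Pm μ ν (Pm μ ν' f) x
      = ∫ z : ℝ × E, ∫ w : ℝ × E, f (pt w.1 (pt z.1 x z.2) w.2) ∂(ν'.prod μ) ∂(ν.prod μ) := rfl
    _ = ∫ q : (ℝ × E) × (ℝ × E), f (pt q.2.1 (pt q.1.1 x q.1.2) q.2.2)
          ∂((ν.prod μ).prod (ν'.prod μ)) :=
        (integral_prod _ hf4).symm
    _ = ∫ e, f e ∂(((ν.prod μ).prod (ν'.prod μ)).map
          (fun q : (ℝ × E) × (ℝ × E) => pt q.2.1 (pt q.1.1 x q.1.2) q.2.2)) :=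
        (integral_map hm1.aemeasurable hf3.1).symm
    _ = ∫ e, f e ∂(((ν.conv ν').prod μ).map (fun z : ℝ × E => pt z.1 x z.2)) := by rw [hmap]
    _ = Pm μ (ν.conv ν') f x := integral_map hm2.aemeasurable hf1

end Pool.Agent.H96.OU
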