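import Mathlib
import Pool.Agent.H96.OU.Op2

open MeasureTheory ProbabilityTheory
open scoped ENNReal NNReal Real Topology RealInnerProductSpace

set_option linter.unusedSectionVars false

namespace Pool.Agent.H96.OU

lemma memLp_inner_integrable {α H : Type*} [MeasurableSpace α] {m : Measure α}
    [NormedAddCommGroup H] [InnerProductSpace ℝ H] {f g : α → H} (hf : MemLp f 2 m)
    (hg : MemLp g 2 m) : Integrable (fun a => ⟪f a, g a⟫) m := by
  have h1 : Integrable (fun a => ‖f a‖ * ‖g a‖) m := hf.norm.integrable_mul hg.norm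
  refine h1.mono' (hf.1.inner hg.1) (Filter.Eventually.of_forall fun a => ?_)
  exact norm_inner_le_norm _ _

lemma mp_integral_comp {α β G : Type*} [MeasurableSpace α] [MeasurableSpace β]
    [NormedAddCommGroup G] [NormedSpace ℝ G] {m : Measure α} {n : Measure β} {φ : α → β}
    (h : MeasurePreserving φ m n) {f : β → G} (hf : AEStronglyMeasurable f n) :
    ∫ a, f (φ a) ∂m = ∫ b, f b ∂n := by
  rw [← h.map_eq, integral_map h.measurable.aemeasurable (by rwa [h.map_eq])]

variable {E : Type*} [NormedAddCommGroup E] [NormedSpace ℝ E] [MeasurableSpace E]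
variable {H : Type*} [NormedAddCommGroup H] [InnerProductSpace ℝ H] [CompleteSpace H]
variable [BorelSpace E] [SecondCountableTopology E] {μ : Measure E} [IsProbabilityMeasure μ]
  {ν : Measure ℝ} [Mix ν] {ν' : Measure ℝ} [Mix ν']

lemma mp_fst3 : MeasurePreserving (fun q : ℝ × (E × E) => q.2.1) (ν.prod (μ.prod μ)) μ :=
  measurePreserving_fst.comp measurePreserving_snd

lemma integrable_inner3 (h : RotInv μ) {f g : E → H} (hf : MemLp f 2 μ) (hg : MemLp g 2 μ) :
    Integrable (fun q : ℝ × (E × E) => ⟪f (pt q.1 q.2.1 q.2.2), g q.2.1⟫)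
      (ν.prod (μ.prod μ)) :=
  memLp_inner_integrable (hf.comp_measurePreserving (mp_pt3 h))
    (hg.comp_measurePreserving mp_fst3)

lemma integral_inner_Pm (h : RotInv μ) {f g : E → H} (hf : MemLp f 2 μ) (hg : MemLp g 2 μ) :
    ∫ x, ⟪Pm μ ν f x, g x⟫ ∂μ
      = ∫ q : ℝ × (E × E), ⟪f (pt q.1 q.2.1 q.2.2), g q.2.1⟫ ∂(ν.prod (μ.prod μ)) := by
  have hi := integrable_inner3 (ν := ν) h hf hg
  have e1 : ∫ q : ℝ × (E × E), ⟪f (pt q.1 q.2.1 q.2.2), g q.2.1⟫ ∂(ν.prod (μ.prod μ))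
      = ∫ q : E × (ℝ × E), ⟪f (pt q.2.1 q.1 q.2.2), g q.1⟫ ∂(μ.prod (ν.prod μ)) :=
    (mp_integral_comp (mp_rearr μ ν) hi.1).symm
  have hi2 : Integrable (fun q : E × (ℝ × E) => ⟪f (pt q.2.1 q.1 q.2.2), g q.1⟫)
      (μ.prod (ν.prod μ)) := (mp_rearr μ ν).integrable_comp_of_integrable hi
  rw [e1, integral_prod _ hi2]
  refine integral_congr_ae ?_
  filter_upwards [ae_integrable (ν := ν) h (hf.integrable (by norm_num))] with x hx
  have e2 : ∫ z : ℝ × E, ⟪g x, f (pt z.1 x z.2)⟫ ∂(ν.prod μ) = ⟪g x, Pm μ ν f x⟫ :=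
    integral_inner hx (g x)
  rw [real_inner_comm, ← e2]
  refine integral_congr_ae (Filter.Eventually.of_forall fun z => ?_)
  exact real_inner_comm _ _

/-- the measure preserving involution exchanging `x` and `pt t x y` -/
lemma mp_invol (h : RotInv μ) :
    MeasurePreserving (fun q : ℝ × (E × E) => (q.1, (pt q.1 q.2.1 q.2.2,
      √(1 - Real.exp (-(2 * q.1))) • q.2.1 - Real.exp (-q.1) • q.2.2)))
      (ν.prod (μ.prod μ)) (ν.prod (μ.prod μ)) := by
  refine (MeasurePreserving.id ν).skew_product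
    (g := fun t (p : E × E) => (pt t p.1 p.2,
      √(1 - Real.exp (-(2 * t))) • p.1 - Real.exp (-t) • p.2)) ?_ ?_
  · have : Continuous (Function.uncurry fun t (p : E × E) => (pt t p.1 p.2,
      √(1 - Real.exp (-(2 * t))) • p.1 - Real.exp (-t) • p.2)) := by
      unfold pt
      fun_prop
    exact this.measurable
  · filter_upwards [Mix.nonneg (ν := ν)] with t ht
    exact (h.mp_refl (coef_sq ht)).map_eq

lemma Pm_symm (h : RotInv μ) {f g : E → H} (hf : MemLp f 2 μ) (hg : MemLp g 2 μ) :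
    ∫ x, ⟪Pm μ ν f x, g x⟫ ∂μ = ∫ x, ⟪f x, Pm μ ν g x⟫ ∂μ := by
  have e0 : ∫ x, ⟪f x, Pm μ ν g x⟫ ∂μ = ∫ x, ⟪Pm μ ν g x, f x⟫ ∂μ :=
    integral_congr_ae (Filter.Eventually.of_forall fun x => real_inner_comm _ _)
  rw [e0, integral_inner_Pm h hf hg, integral_inner_Pm h hg hf]
  have hi := integrable_inner3 (ν := ν) h hg hf
  rw [← mp_integral_comp (mp_invol (ν := ν) h) hi.1]
  refine integral_congr_ae ?_
  have hn : ∀ᵐ q ∂(ν.prod (μ.prod μ)), 0 ≤ q.1 :=
    Measure.quasiMeasurePreserving_fst.ae (Mix.nonneg (ν := ν))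
  filter_upwards [hn] with q hq
  have e3 : pt q.1 (pt q.1 q.2.1 q.2.2)
      (√(1 - Real.exp (-(2 * q.1))) • q.2.1 - Real.exp (-q.1) • q.2.2) = q.2.1 := by
    have hc := coef_sq hq
    unfold pt
    rw [smul_add, smul_sub, smul_smul, smul_smul, smul_smul, smul_smul]
    have : Real.exp (-q.1) * √(1 - Real.exp (-(2 * q.1)))
      = √(1 - Real.exp (-(2 * q.1))) * Real.exp (-q.1) := mul_comm _ _
    rw [this]
    rw [add_add_sub_cancel, ← add_smul, ← sq, ← sq, hc, one_smul]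
  simp only [e3]
  exact real_inner_comm _ _

lemma integral_inner_Pm_mix (h : RotInv μ) {f g : E → H} (hf : MemLp f 2 μ) (hg : MemLp g 2 μ) :
    ∫ x, ⟪Pm μ ν f x, g x⟫ ∂μ = ∫ t, ∫ x, ⟪mehler μ t f x, g x⟫ ∂μ ∂ν := by
  have hi := integrable_inner3 (ν := ν) h hf hg
  rw [integral_inner_Pm h hf hg, integral_prod _ hi]
  refine integral_congr_ae ?_
  filter_upwards [Mix.nonneg (ν := ν), hi.prod_right_ae] with t ht hit
  rw [integral_prod _ hit]
  refine integral_congr_ae ?_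
  have h1 : ∀ᵐ x ∂μ, Integrable (fun y => f (pt t x y)) μ := by
    have : Integrable (fun p : E × E => f (pt t p.1 p.2)) (μ.prod μ) :=
      (mp_pt h ht).integrable_comp_of_integrable (hf.integrable (by norm_num))
    exact this.prod_right_ae
  filter_upwards [h1] with x hx
  have e2 : ∫ y, ⟪g x, f (pt t x y)⟫ ∂μ = ⟪g x, mehler μ t f x⟫ :=
    integral_inner hx (g x)
  rw [real_inner_comm, ← e2]
  refine integral_congr_ae (Filter.Eventually.of_forall fun z => ?_)
  exact real_inner_comm _ _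

end Pool.Agent.H96.OU
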