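import Mathlib
import Pool.Agent.H96.OU.Op3

open MeasureTheory ProbabilityTheory
open scoped ENNReal NNReal Real Topology

set_option linter.unusedSectionVars false

namespace Pool.Agent.H96.OU

lemma mix_gammaMeasure {a r : ℝ} (ha : 0 < a) (hr : 0 < r) : Mix (gammaMeasure a r) where
  toIsProbabilityMeasure := isProbabilityMeasure_gammaMeasure ha hr
  nonneg := by
    have h : gammaMeasure a r (Set.Iio 0) = 0 := by
      rw [gammaMeasure, withDensity_apply _ measurableSet_Iio]
      exact lintegral_gammaPDF_of_nonpos le_rfl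
    rw [ae_iff]
    simpa [Set.Iio, not_le] using h

lemma lintegral_mul_left_real {u : ℝ} (hu : 0 < u) {f : ℝ → ℝ≥0∞} (hf : Measurable f) :
    ∫⁻ x, f x = ENNReal.ofReal u * ∫⁻ y, f (u * y) := by
  have h1 := Real.map_volume_mul_left hu.ne'
  have h2 : ∫⁻ y, f (u * y) = ENNReal.ofReal |u⁻¹| * ∫⁻ x, f x := by
    rw [← lintegral_map hf (by fun_prop), h1, lintegral_smul_measure, smul_eq_mul]
  rw [h2, ← mul_assoc, ← ENNReal.ofReal_mul hu.le, abs_of_pos (inv_pos.mpr hu),
    mul_inv_cancel₀ hu.ne']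
  simp

lemma gammaPDF_conv_aux {a b : ℝ} (ha : 0 < a) (hb : 0 < b) {u : ℝ} (hu : u ≠ 0) :
    ∫⁻ x, gammaPDF a 1 x * gammaPDF b 1 (-x + u) = gammaPDF (a + b) 1 u := by
  rcases lt_or_gt_of_ne hu with hu | hu
  · rw [gammaPDF_of_neg hu]
    rw [lintegral_eq_zero_iff (by unfold gammaPDF; fun_prop)]
    refine Filter.Eventually.of_forall fun x => ?_
    rcases lt_or_ge x 0 with hx | hx
    · simp [gammaPDF_of_neg hx]
    · simp [gammaPDF_of_neg (show -x + u < 0 by linarith)]
  · rw [lintegral_mul_left_real hu (by unfold gammaPDF; fun_prop)]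
    have key : ∀ᵐ y : ℝ, ENNReal.ofReal u * (gammaPDF a 1 (u * y) * gammaPDF b 1 (-(u * y) + u))
        = gammaPDF (a + b) 1 u * betaPDF a b y := by
      have h01 : ∀ᵐ y : ℝ, y ≠ 0 ∧ y ≠ 1 := by
        filter_upwards [Measure.ae_ne volume (0 : ℝ), Measure.ae_ne volume (1 : ℝ)] with y h0 h1
        exact ⟨h0, h1⟩
      filter_upwards [h01] with y ⟨hy0, hy1⟩
      rcases lt_or_gt_of_ne hy0 with h0 | h0
      · rw [gammaPDF_of_neg (show u * y < 0 by nlinarith), betaPDF_eq_zero_of_nonpos h0.le]
        simp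
      rcases lt_or_gt_of_ne hy1 with h1 | h1
      swap
      · rw [gammaPDF_of_neg (show -(u * y) + u < 0 by nlinarith), betaPDF_eq_zero_of_one_le h1.le]
        simp
      have h1' : 0 < 1 - y := by linarith
      have hG1 := Real.Gamma_pos_of_pos ha
      have hG2 := Real.Gamma_pos_of_pos hb
      have hG3 := Real.Gamma_pos_of_pos (add_pos ha hb)
      rw [gammaPDF_of_nonneg (by positivity), gammaPDF_of_nonneg (by nlinarith),
        gammaPDF_of_nonneg hu.le, betaPDF_of_pos_lt_one h0 h1]
      rw [← ENNReal.ofReal_mul (by positivity), ← ENNReal.ofReal_mul (by positivity),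
        ← ENNReal.ofReal_mul (by positivity)]
      congr 1
      have e1 : -(u * y) + u = u * (1 - y) := by ring
      rw [e1, Real.mul_rpow hu.le h0.le, Real.mul_rpow hu.le h1'.le]
      have e2 : Real.exp (-(1 * u)) = Real.exp (-(1 * (u * y))) * Real.exp (-(1 * (u * (1 - y)))) := by
        rw [← Real.exp_add]; ring_nf
      have e3 : u ^ (a + b - 1) = u * u ^ (a - 1) * u ^ (b - 1) := by
        have : a + b - 1 = 1 + (a - 1) + (b - 1) := by ring
        rw [this, Real.rpow_add hu, Real.rpow_add hu, Real.rpow_one]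
      rw [e2, e3]
      simp only [Real.one_rpow, beta]
      field_simp
    rw [← lintegral_const_mul _ (by unfold gammaPDF; fun_prop), lintegral_congr_ae key,
      lintegral_const_mul _ (by unfold betaPDF; fun_prop), lintegral_betaPDF_eq_one ha hb, mul_one]

lemma gammaMeasure_conv {a b : ℝ} (ha : 0 < a) (hb : 0 < b) :
    (gammaMeasure a 1).conv (gammaMeasure b 1) = gammaMeasure (a + b) 1 := by
  have hma : Measurable (gammaPDF a 1) := by unfold gammaPDF; fun_prop
  have hmb : Measurable (gammaPDF b 1) := by unfold gammaPDF; fun_prop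
  unfold gammaMeasure
  rw [conv_withDensity_eq_lconvolution hma hmb]
  refine withDensity_congr_ae ?_
  filter_upwards [Measure.ae_ne volume (0 : ℝ)] with u hu
  exact gammaPDF_conv_aux ha hb hu

/-- the law with density `t^{r/2-1} e^{-t} / Γ(r/2)` on `(0, ∞)`, and `δ_0` for `r = 0` -/
noncomputable def gam (r : ℕ) : Measure ℝ :=
  if r = 0 then Measure.dirac 0 else gammaMeasure ((r : ℝ) / 2) 1

lemma mix_dirac {t : ℝ} (ht : 0 ≤ t) : Mix (Measure.dirac t) where
  nonneg := by
    rw [ae_dirac_iff (p := fun t : ℝ => 0 ≤ t) (measurableSet_le measurable_const measurable_id)]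
    exact ht

instance instMixDirac : Mix (Measure.dirac (0 : ℝ)) := mix_dirac le_rfl

/-- the Dirac mass at `t⁺` -/
noncomputable def dl (t : ℝ) : Measure ℝ := Measure.dirac (max t 0)

instance instMixDl (t : ℝ) : Mix (dl t) := mix_dirac (le_max_right _ _)

lemma dl_eq {t : ℝ} (ht : 0 ≤ t) : dl t = Measure.dirac t := by simp [dl, ht]

lemma dl_conv {s t : ℝ} (hs : 0 ≤ s) (ht : 0 ≤ t) : (dl s).conv (dl t) = dl (s + t) := by
  rw [dl_eq hs, dl_eq ht, dl_eq (by positivity), Measure.dirac_conv_dirac]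

instance instMixGam (r : ℕ) : Mix (gam r) := by
  unfold gam
  split_ifs with h
  · infer_instance
  · exact mix_gammaMeasure (by positivity) one_pos

lemma gam_conv (r s : ℕ) : (gam r).conv (gam s) = gam (r + s) := by
  rcases Nat.eq_zero_or_pos r with rfl | hr
  · have h1 : gam 0 = Measure.dirac 0 := by simp [gam]
    rw [h1, Measure.dirac_zero_conv, zero_add]
  rcases Nat.eq_zero_or_pos s with rfl | hs
  · have h1 : gam 0 = Measure.dirac 0 := by simp [gam]
    rw [h1, Measure.conv_dirac_zero, add_zero]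
  have hr' : (0 : ℝ) < r := by exact_mod_cast hr
  have hs' : (0 : ℝ) < s := by exact_mod_cast hs
  unfold gam
  rw [if_neg hr.ne', if_neg hs.ne', if_neg (by omega), gammaMeasure_conv (by positivity)
    (by positivity)]
  congr 1
  push_cast; ring

end Pool.Agent.H96.OU
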