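import Mathlib
import Pool.Agent.H96.OU.Gam

open MeasureTheory ProbabilityTheory
open scoped ENNReal NNReal Real Topology RealInnerProductSpace

set_option linter.unusedSectionVars false

namespace Pool.Agent.H96.OU

variable {E : Type*} [NormedAddCommGroup E] [NormedSpace ℝ E] [MeasurableSpace E]
variable {F : Type*} [NormedAddCommGroup F] [NormedSpace ℝ F]
variable [BorelSpace E] [SecondCountableTopology E] {μ : Measure E} [IsProbabilityMeasure μ]
  {ν : Measure ℝ} [Mix ν] {ν' : Measure ℝ} [Mix ν']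

lemma mehler_eq_Pm (t : ℝ) (f : E → F) (x : E) :
    mehler μ t f x = Pm μ (Measure.dirac t) f x := by
  unfold Pm
  rw [Measure.dirac_prod, (measurableEmbedding_prodMk_left t).integral_map]
  rfl

lemma Pm_ae_eq_integral_mehler (h : RotInv μ) {f : E → F} (hf : Integrable f μ) :
    ∀ᵐ x ∂μ, Pm μ ν f x = ∫ t, mehler μ t f x ∂ν := by
  filter_upwards [ae_integrable (ν := ν) h hf] with x hx
  exact integral_prod _ hx

lemma integral_gammaMeasure {a : ℝ} (ha : 0 < a) (g : ℝ → F) :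
    ∫ t, g t ∂(gammaMeasure a 1)
      = (Real.Gamma a)⁻¹ • ∫ t in Set.Ioi (0 : ℝ), (t ^ (a - 1) * Real.exp (-t)) • g t := by
  have hm : Measurable (gammaPDF a 1) := by unfold gammaPDF; fun_prop
  have hG := Real.Gamma_pos_of_pos ha
  unfold gammaMeasure
  rw [integral_withDensity_eq_integral_toReal_smul hm
    (Filter.Eventually.of_forall fun x => by simp [gammaPDF])]
  have e1 : ∀ x : ℝ, (gammaPDF a 1 x).toReal = gammaPDFReal a 1 x := fun x => by
    rw [gammaPDF, ENNReal.toReal_ofReal (gammaPDFReal_nonneg ha one_pos x)]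
  simp_rw [e1]
  rw [← integral_smul]
  rw [← integral_indicator measurableSet_Ioi]
  refine integral_congr_ae ?_
  filter_upwards [Measure.ae_ne volume (0 : ℝ)] with x hx
  rcases lt_or_gt_of_ne hx with hx | hx
  · rw [Set.indicator_of_notMem (by simp [hx.le])]
    simp [gammaPDFReal, not_le.mpr hx]
  · rw [Set.indicator_of_mem (by simpa using hx)]
    simp only [gammaPDFReal, if_pos hx.le, Real.one_rpow, one_mul, smul_smul]
    congr 1
    ring

lemma bessel_ae_eq [CompleteSpace F] (h : RotInv μ) (r : ℕ) {f : E → F} (hf : Integrable f μ) :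
    bessel μ r f =ᵐ[μ] Pm μ (gam r) f := by
  rcases Nat.eq_zero_or_pos r with rfl | hr
  · refine Filter.Eventually.of_forall fun x => ?_
    have h1 : gam 0 = Measure.dirac 0 := by simp [gam]
    simp only [bessel, if_pos]
    rw [h1, ← mehler_eq_Pm]
    simp [mehler, integral_const]
  · have hr' : (0 : ℝ) < r := by exact_mod_cast hr
    filter_upwards [Pm_ae_eq_integral_mehler (ν := gam r) h hf] with x hx
    rw [hx]
    have h1 : gam r = gammaMeasure ((r : ℝ) / 2) 1 := by simp [gam, hr.ne']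
    rw [h1, integral_gammaMeasure (by positivity)]
    simp only [bessel, if_neg hr.ne']

section L2

variable {H : Type*} [NormedAddCommGroup H] [InnerProductSpace ℝ H] [CompleteSpace H]

/-- The mixture operator on `L²(μ; H)`. -/
noncomputable def PL (h : RotInv μ) (ν : Measure ℝ) [Mix ν] : Lp H 2 μ →L[ℝ] Lp H 2 μ :=
  LinearMap.mkContinuous
    { toFun := fun f => (memLp_Pm (ν := ν) h (Lp.memLp f) (by norm_num) (by norm_num)).toLp _
      map_add' := fun f g => by
        rw [← MemLp.toLp_add, MemLp.toLp_eq_toLp_iff]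
        have h1 := ae_integrable (ν := ν) h ((Lp.memLp f).integrable (by norm_num))
        have h2 := ae_integrable (ν := ν) h ((Lp.memLp g).integrable (by norm_num))
        have h3 := Pm_congr (ν := ν) h (Lp.coeFn_add f g)
        filter_upwards [h1, h2, h3] with x hx1 hx2 hx3
        rw [hx3]
        exact integral_add hx1 hx2
      map_smul' := fun c f => by
        rw [RingHom.id_apply, ← MemLp.toLp_const_smul, MemLp.toLp_eq_toLp_iff]
        have h3 := Pm_congr (ν := ν) h (Lp.coeFn_smul c f)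
        filter_upwards [h3] with x hx3
        rw [hx3]
        exact integral_smul c _ }
    1 (fun f => by
      simp only [LinearMap.coe_mk, AddHom.coe_mk, one_mul]
      rw [Lp.norm_toLp, Lp.norm_def]
      exact ENNReal.toReal_mono (Lp.eLpNorm_ne_top f)
        (eLpNorm_Pm_le h (Lp.memLp f).1 (by norm_num) (by norm_num)))

lemma PL_coe (h : RotInv μ) (ν : Measure ℝ) [Mix ν] (f : Lp H 2 μ) :
    (PL h ν f : E → H) =ᵐ[μ] Pm μ ν f :=
  MemLp.coeFn_toLp (memLp_Pm (ν := ν) h (Lp.memLp f) (by norm_num) (by norm_num))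

lemma PL_toLp (h : RotInv μ) (ν : Measure ℝ) [Mix ν] {f : E → H} (hf : MemLp f 2 μ) :
    PL h ν (hf.toLp f) = (memLp_Pm (ν := ν) h hf (by norm_num) (by norm_num)).toLp _ := by
  apply Lp.ext
  refine (PL_coe h ν _).trans ?_
  refine (Pm_congr (ν := ν) h hf.coeFn_toLp).trans ?_
  exact (MemLp.coeFn_toLp _).symm

lemma norm_PL_le (h : RotInv μ) (ν : Measure ℝ) [Mix ν] (f : Lp H 2 μ) : ‖PL h ν f‖ ≤ ‖f‖ := by
  rw [Lp.norm_def, Lp.norm_def]
  refine ENNReal.toReal_mono (Lp.eLpNorm_ne_top f) ?_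
  rw [eLpNorm_congr_ae (PL_coe h ν f)]
  exact eLpNorm_Pm_le h (Lp.memLp f).1 (by norm_num) (by norm_num)

lemma PL_PL (h : RotInv μ) (ν ν' : Measure ℝ) [Mix ν] [Mix ν'] (f : Lp H 2 μ) :
    PL h ν (PL h ν' f) = PL h (ν.conv ν') f := by
  apply Lp.ext
  refine (PL_coe h ν _).trans ?_
  refine (Pm_congr (ν := ν) h (PL_coe h ν' f)).trans ?_
  refine (Pm_Pm h ((Lp.memLp f).integrable (by norm_num))).trans ?_
  exact (PL_coe h _ f).symm

lemma PL_comm (h : RotInv μ) (ν ν' : Measure ℝ) [Mix ν] [Mix ν'] (f : Lp H 2 μ) :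
    PL h ν (PL h ν' f) = PL h ν' (PL h ν f) := by
  rw [PL_PL, PL_PL]
  have : ν.conv ν' = ν'.conv ν := Measure.conv_comm _ _
  simp only [this]

lemma PL_symm (h : RotInv μ) (ν : Measure ℝ) [Mix ν] (f g : Lp H 2 μ) :
    ⟪PL h ν f, g⟫ = ⟪f, PL h ν g⟫ := by
  rw [L2.inner_def, L2.inner_def]
  have h1 : ∫ x, ⟪(PL h ν f : E → H) x, (g : E → H) x⟫ ∂μ = ∫ x, ⟪Pm μ ν f x, (g : E → H) x⟫ ∂μ := by
    refine integral_congr_ae ?_
    filter_upwards [PL_coe h ν f] with x hx
    rw [hx]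
  have h2 : ∫ x, ⟪(f : E → H) x, (PL h ν g : E → H) x⟫ ∂μ = ∫ x, ⟪(f : E → H) x, Pm μ ν g x⟫ ∂μ := by
    refine integral_congr_ae ?_
    filter_upwards [PL_coe h ν g] with x hx
    rw [hx]
  rw [h1, h2]
  exact Pm_symm h (Lp.memLp f) (Lp.memLp g)

lemma PL_mix (h : RotInv μ) (ν : Measure ℝ) [Mix ν] (f g : Lp H 2 μ) :
    ⟪PL h ν f, g⟫ = ∫ t, ⟪PL h (dl t) f, g⟫ ∂ν := by
  rw [L2.inner_def]
  have h1 : ∫ x, ⟪(PL h ν f : E → H) x, (g : E → H) x⟫ ∂μ = ∫ x, ⟪Pm μ ν f x, (g : E → H) x⟫ ∂μ := by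
    refine integral_congr_ae ?_
    filter_upwards [PL_coe h ν f] with x hx
    rw [hx]
  rw [h1, integral_inner_Pm_mix h (Lp.memLp f) (Lp.memLp g)]
  refine integral_congr_ae ?_
  filter_upwards [Mix.nonneg (ν := ν)] with t ht
  rw [L2.inner_def]
  refine integral_congr_ae ?_
  filter_upwards [PL_coe h (dl t) f] with x hx
  rw [hx, dl_eq ht, mehler_eq_Pm]

lemma eLpNorm_PL_le (h : RotInv μ) (ν : Measure ℝ) [Mix ν] (f : Lp H 2 μ) {p : ℝ≥0∞} (hp : 1 ≤ p)
    (hp' : p ≠ ∞) : eLpNorm (PL h ν f) p μ ≤ eLpNorm f p μ := by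
  rw [eLpNorm_congr_ae (PL_coe h ν f)]
  exact eLpNorm_Pm_le h (Lp.memLp f).1 hp hp'

end L2

end Pool.Agent.H96.OU
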