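import Mathlib
import Pool.Agent.H96.OU.Op4

open MeasureTheory ProbabilityTheory
open scoped ENNReal NNReal Real Topology RealInnerProductSpace

set_option linter.unusedSectionVars false

namespace Pool.Agent.H96.OU

/-- Douglas type range inclusion for symmetric operators. -/
lemma exists_of_bound {X : Type*} [NormedAddCommGroup X] [InnerProductSpace ℝ X] [CompleteSpace X]
    (R T : X →L[ℝ] X) (hR : ∀ f g, ⟪R f, g⟫ = ⟪f, R g⟫) (hT : ∀ f g, ⟪T f, g⟫ = ⟪f, T g⟫)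
    {c : ℝ} (hc : 0 ≤ c) (hb : ∀ f, ‖T f‖ ≤ c * ‖R f‖) (G : X) :
    ∃ Y : X, R Y = T G ∧ ‖Y‖ ≤ c * ‖G‖ := by
  let ψ : X →ₗ[ℝ] ℝ := ((innerSL ℝ G).comp T).toLinearMap
  have hψ : ∀ f, ψ f = ⟪G, T f⟫ := fun f => rfl
  have hker : LinearMap.ker R.toLinearMap ≤ LinearMap.ker ψ := by
    intro f hf
    have h1 : R f = 0 := hf
    have h2 : ‖T f‖ ≤ 0 := by simpa [h1] using hb f
    have h3 : T f = 0 := by simpa using h2
    change ψ f = 0
    rw [hψ, h3, inner_zero_right]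
  let φ : LinearMap.range R.toLinearMap →ₗ[ℝ] ℝ :=
    ((LinearMap.ker R.toLinearMap).liftQ ψ hker).comp
      (R.toLinearMap.quotKerEquivRange.symm : _ →ₗ[ℝ] _)
  have hφ : ∀ f : X, φ ⟨R f, LinearMap.mem_range_self R.toLinearMap f⟩ = ⟪G, T f⟫ := by
    intro f
    have h1 := LinearMap.quotKerEquivRange_symm_apply_image R.toLinearMap f
      (LinearMap.mem_range_self R.toLinearMap f)
    change ((LinearMap.ker R.toLinearMap).liftQ ψ hker)
      (R.toLinearMap.quotKerEquivRange.symm ⟨R f, _⟩) = _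
    rw [show (R.toLinearMap.quotKerEquivRange.symm
      ⟨R f, LinearMap.mem_range_self R.toLinearMap f⟩) = (LinearMap.ker R.toLinearMap).mkQ f from h1]
    simp [hψ]
  have hφb : ∀ x : LinearMap.range R.toLinearMap, ‖φ x‖ ≤ (c * ‖G‖) * ‖x‖ := by
    rintro ⟨x, f, rfl⟩
    have h1 := hφ f
    calc ‖φ ⟨R f, _⟩‖ = ‖⟪G, T f⟫‖ := by rw [h1]
      _ ≤ ‖G‖ * ‖T f‖ := norm_inner_le_norm _ _
      _ ≤ ‖G‖ * (c * ‖R f‖) := by gcongr; exact hb f
      _ = (c * ‖G‖) * ‖R f‖ := by ring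
  let φc : StrongDual ℝ (LinearMap.range R.toLinearMap) := φ.mkContinuous (c * ‖G‖) hφb
  obtain ⟨Φ, hΦ1, hΦ2⟩ := exists_extension_norm_eq (𝕜 := ℝ) (LinearMap.range R.toLinearMap) φc
  have hΦn : ‖Φ‖ ≤ c * ‖G‖ := by
    rw [hΦ2]
    exact φ.mkContinuous_norm_le (by positivity) hφb
  refine ⟨(InnerProductSpace.toDual ℝ X).symm Φ, ?_, ?_⟩
  · refine ext_inner_right ℝ fun f => ?_
    rw [hR, InnerProductSpace.toDual_symm_apply]
    have h1 := hΦ1 ⟨R f, LinearMap.mem_range_self R.toLinearMap f⟩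
    have h2 : φc ⟨R f, LinearMap.mem_range_self R.toLinearMap f⟩ = ⟪G, T f⟫ := hφ f
    change Φ (R f) = _
    rw [hT, ← h2]
    exact h1
  · rw [LinearIsometryEquiv.norm_map]
    exact hΦn

variable {E : Type*} [NormedAddCommGroup E] [NormedSpace ℝ E] [MeasurableSpace E]
variable {H : Type*} [NormedAddCommGroup H] [InnerProductSpace ℝ H] [CompleteSpace H]
variable [BorelSpace E] [SecondCountableTopology E] {μ : Measure E} [IsProbabilityMeasure μ]

lemma PL_dl_PL_dl (h : RotInv μ) {s t : ℝ} (hs : 0 ≤ s) (ht : 0 ≤ t) (f : Lp H 2 μ) :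
    PL h (dl s) (PL h (dl t) f) = PL h (dl (s + t)) f := by
  rw [PL_PL]
  simp only [dl_conv hs ht]

lemma inner_PL_dl (h : RotInv μ) {s t : ℝ} (hs : 0 ≤ s) (ht : 0 ≤ t) (f : Lp H 2 μ) :
    ⟪PL h (dl t) f, PL h (dl s) f⟫ = ‖PL h (dl ((t + s) / 2)) f‖ ^ 2 := by
  rw [← real_inner_self_eq_norm_sq, PL_symm, PL_symm, PL_dl_PL_dl h ht hs,
    PL_dl_PL_dl h (by positivity) (by positivity)]
  congr 3
  ring_nf

lemma norm_PL_dl_anti (h : RotInv μ) {s u : ℝ} (hu : 0 ≤ u) (hus : u ≤ s) (f : Lp H 2 μ) :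
    ‖PL h (dl s) f‖ ≤ ‖PL h (dl u) f‖ := by
  have h1 : PL h (dl (s - u)) (PL h (dl u) f) = PL h (dl s) f := by
    rw [PL_dl_PL_dl h (by linarith) hu]
    congr 2
    ring_nf
  rw [← h1]
  exact norm_PL_le h _ _

lemma inner_mehler (h : RotInv μ) {f g : E → H} (hf : MemLp f 2 μ) (hg : MemLp g 2 μ)
    {t : ℝ} (ht : 0 ≤ t) :
    ∫ x, ⟪mehler μ t f x, g x⟫ ∂μ
      = ∫ p : E × E, ⟪f (pt t p.1 p.2), g p.1⟫ ∂(μ.prod μ) := by
  have := mix_dirac ht
  have h1 := integral_inner_Pm (ν := Measure.dirac t) h hf hg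
  simp_rw [mehler_eq_Pm]
  rw [h1, Measure.dirac_prod, (measurableEmbedding_prodMk_left t).integral_map]

lemma PL_mix_integrable (h : RotInv μ) (ν : Measure ℝ) [Mix ν] (f g : Lp H 2 μ) :
    Integrable (fun t => ⟪PL h (dl t) f, g⟫) ν := by
  have h1 := (integrable_inner3 (ν := ν) h (Lp.memLp f) (Lp.memLp g)).integral_prod_left
  refine h1.congr ?_
  filter_upwards [Mix.nonneg (ν := ν)] with t ht
  rw [← inner_mehler h (Lp.memLp f) (Lp.memLp g) ht, L2.inner_def]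
  refine integral_congr_ae ?_
  filter_upwards [PL_coe h (dl t) f] with x hx
  rw [hx, dl_eq ht, mehler_eq_Pm]

lemma gam_two_real_Iic {s : ℝ} (hs : 0 ≤ s) : (gam 2).real (Set.Iic s) = 1 - Real.exp (-s) := by
  have h1 : gam 2 = expMeasure 1 := by simp [gam, expMeasure]
  have := isProbabilityMeasure_expMeasure one_pos
  rw [h1, ← cdf_eq_real, cdf_expMeasure_eq one_pos, if_pos hs, one_mul]

lemma key1 (h : RotInv μ) {s : ℝ} (hs : 0 < s) (f : Lp H 2 μ) :
    (1 - Real.exp (-s)) * ‖PL h (dl s) f‖ ≤ ‖PL h (gam 2) f‖ := by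
  rcases eq_or_ne (PL h (dl s) f) 0 with h0 | h0
  · rw [h0]; simp
  have hpos : 0 < ‖PL h (dl s) f‖ := norm_pos_iff.mpr h0
  have h1 : (1 - Real.exp (-s)) * ‖PL h (dl s) f‖ ^ 2 ≤ ⟪PL h (gam 2) f, PL h (dl s) f⟫ := by
    rw [PL_mix, ← gam_two_real_Iic hs.le]
    have hint := PL_mix_integrable h (gam 2) f (PL h (dl s) f)
    calc (gam 2).real (Set.Iic s) * ‖PL h (dl s) f‖ ^ 2
        = ∫ t, (Set.Iic s).indicator (fun _ => ‖PL h (dl s) f‖ ^ 2) t ∂(gam 2) := by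
          rw [integral_indicator_const _ measurableSet_Iic, smul_eq_mul]
      _ ≤ ∫ t, ⟪PL h (dl t) f, PL h (dl s) f⟫ ∂(gam 2) := by
          refine integral_mono_ae ?_ hint ?_
          · exact (integrable_const _).indicator measurableSet_Iic
          · filter_upwards [Mix.nonneg (ν := gam 2)] with t ht
            rw [inner_PL_dl h hs.le ht]
            by_cases hts : t ∈ Set.Iic s
            · rw [Set.indicator_of_mem hts]
              have hts' : t ≤ s := hts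
              have := norm_PL_dl_anti h (u := (t + s) / 2) (s := s) (by positivity)
                (by linarith) f
              gcongr
            · rw [Set.indicator_of_notMem hts]
              positivity
  have h2 : ⟪PL h (gam 2) f, PL h (dl s) f⟫ ≤ ‖PL h (gam 2) f‖ * ‖PL h (dl s) f‖ :=
    real_inner_le_norm _ _
  have h3 : ((1 - Real.exp (-s)) * ‖PL h (dl s) f‖) * ‖PL h (dl s) f‖
      ≤ ‖PL h (gam 2) f‖ * ‖PL h (dl s) f‖ := by nlinarith
  exact le_of_mul_le_mul_right h3 hpos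

lemma key2 (h : RotInv μ) {s : ℝ} (hs : 0 < s) (G : Lp H 2 μ) :
    ∃ Y : Lp H 2 μ, PL h (gam 2) Y = PL h (dl s) G ∧ ‖Y‖ ≤ (1 - Real.exp (-s))⁻¹ * ‖G‖ := by
  have hpos : 0 < 1 - Real.exp (-s) := by
    have : Real.exp (-s) < 1 := by rw [Real.exp_lt_one_iff]; linarith
    linarith
  refine exists_of_bound (PL h (gam 2)) (PL h (dl s)) (PL_symm h _) (PL_symm h _)
    (inv_nonneg.mpr hpos.le) (fun f => ?_) G
  have h1 := key1 h hs f
  rw [inv_mul_eq_div, le_div_iff₀ hpos, mul_comm]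
  exact h1

end Pool.Agent.H96.OU
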