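import Mathlib
import Pool.Agent.H96.OU.Hil

open MeasureTheory ProbabilityTheory
open scoped ENNReal NNReal Real Topology RealInnerProductSpace

set_option linter.unusedSectionVars false

namespace Pool.Agent.H96.OU

variable {E : Type*} [NormedAddCommGroup E] [NormedSpace ℝ E] [MeasurableSpace E]
variable {F : Type*} [NormedAddCommGroup F] [NormedSpace ℝ F]
variable [BorelSpace E] [SecondCountableTopology E] {μ : Measure E} [IsProbabilityMeasure μ]

/-- the constants in the product formula -/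
lemma prod_consts {t : ℝ} (ht : 0 < t) :
    ∃ (a b τ : ℝ), 0 ≤ a ∧ 0 ≤ b ∧ a ^ 2 + b ^ 2 = 1 ∧ t / 2 ≤ τ ∧ τ ≤ t ∧
      a * Real.exp (-τ) = Real.exp (-t) ∧ a * √(1 - Real.exp (-(2 * τ))) = b ∧
      b = √(1 - Real.exp (-(2 * t))) * (√2)⁻¹ := by
  set ρ := Real.exp (-(2 * t)) with hρ
  have hρ0 : 0 < ρ := Real.exp_pos _
  have hρ1 : ρ < 1 := by rw [hρ, Real.exp_lt_one_iff]; linarith
  set M := (1 + Real.exp (2 * t)) / 2 with hM
  have hMpos : 0 < M := by positivity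
  have hMρ : M * ρ = (1 + ρ) / 2 := by
    have : Real.exp (2 * t) * ρ = 1 := by rw [hρ, ← Real.exp_add]; simp
    rw [hM]
    linear_combination (1 / 2) * this
  have e1 : Real.exp (-(Real.log M / 2)) ^ 2 = M⁻¹ := by
    rw [← Real.exp_nat_mul]
    rw [show ((2 : ℕ) : ℝ) * -(Real.log M / 2) = -Real.log M by push_cast; ring, Real.exp_neg,
      Real.exp_log hMpos]
  have e2 : Real.exp (-(2 * (Real.log M / 2))) = M⁻¹ := by
    rw [show -(2 * (Real.log M / 2)) = -Real.log M by ring, Real.exp_neg, Real.exp_log hMpos]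
  refine ⟨√((1 + ρ) / 2), √((1 - ρ) / 2), Real.log M / 2, Real.sqrt_nonneg _, Real.sqrt_nonneg _,
    ?_, ?_, ?_, ?_, ?_, ?_⟩
  · rw [Real.sq_sqrt (by linarith), Real.sq_sqrt (by linarith)]; ring
  · -- t / 2 ≤ log M / 2
    have h1 : Real.exp t ≤ M := by
      have h2 : Real.exp (2 * t) = Real.exp t ^ 2 := by
        rw [← Real.exp_nat_mul]; push_cast; ring_nf
      rw [hM, h2]
      nlinarith [sq_nonneg (Real.exp t - 1)]
    have h3 : t ≤ Real.log M := by
      rw [Real.le_log_iff_exp_le hMpos]; exact h1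
    linarith
  · have h1 : M ≤ Real.exp (2 * t) := by
      have : 1 ≤ Real.exp (2 * t) := Real.one_le_exp (by linarith)
      rw [hM]; linarith
    have h2 : Real.log M ≤ 2 * t := by
      rw [Real.log_le_iff_le_exp hMpos]; exact h1
    linarith
  · -- a e^{-τ} = e^{-t}
    have h1 : (√((1 + ρ) / 2) * Real.exp (-(Real.log M / 2))) ^ 2 = Real.exp (-t) ^ 2 := by
      rw [mul_pow, Real.sq_sqrt (by linarith), e1, ← hMρ]
      rw [← Real.exp_nat_mul]
      push_cast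
      rw [show (2 : ℝ) * -t = -(2 * t) by ring, ← hρ]
      field_simp
    exact (sq_eq_sq₀ (by positivity) (by positivity)).mp h1
  · -- a c_τ = b
    rw [e2, ← Real.sqrt_mul (by linarith)]
    congr 1
    rw [← hMρ]
    have : (1 - ρ) / 2 = M * ρ - ρ := by rw [hMρ]; ring
    rw [this]
    field_simp
  · rw [← Real.sqrt_inv, ← Real.sqrt_mul (by linarith)]
    congr 1

/-- **Product formula**: `(P_t φ) (P_t U) = P_τ G`. -/
lemma product_formula (h : RotInv μ) {t : ℝ} (ht : 0 < t) {φ : E → ℝ} (hφ : MemLp φ 2 μ)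
    {U : E → F} (hU : AEStronglyMeasurable U μ) {B : ℝ} (hB : ∀ x, ‖U x‖ ≤ B) :
    ∃ (G : E → F) (τ : ℝ), t / 2 ≤ τ ∧ τ ≤ t ∧ MemLp G 2 μ ∧
      eLpNorm G 2 μ ≤ ENNReal.ofReal B * eLpNorm φ 2 μ ∧
      (fun x => mehler μ t φ x • mehler μ t U x) =ᵐ[μ] mehler μ τ G := by
  obtain ⟨a, b, τ, ha, hb, hab, hτ1, hτ2, he1, he2, he3⟩ := prod_consts ht
  have hτ0 : 0 ≤ τ := by linarith
  have hab' : a ^ 2 + (-b) ^ 2 = 1 := by rw [neg_sq]; exact hab
  have mp1 : MeasurePreserving (fun p : E × E => a • p.1 + b • p.2) (μ.prod μ) μ := h.mp_comb hab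
  have mp2 : MeasurePreserving (fun p : E × E => a • p.1 + (-b) • p.2) (μ.prod μ) μ :=
    h.mp_comb hab'
  let G : E → F := fun u => ∫ v, φ (a • u + b • v) • U (a • u + (-b) • v) ∂μ
  have hsm : AEStronglyMeasurable
      (fun p : E × E => φ (a • p.1 + b • p.2) • U (a • p.1 + (-b) • p.2)) (μ.prod μ) :=
    (hφ.1.comp_measurePreserving mp1).smul (hU.comp_measurePreserving mp2)
  have hGm : AEStronglyMeasurable G μ := hsm.integral_prod_right'
  have hBn : ∀ x, ‖U x‖ₑ ≤ ENNReal.ofReal B := fun x => by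
    rw [← ofReal_norm]
    exact ENNReal.ofReal_le_ofReal (hB x)
  have hGn : eLpNorm G 2 μ ≤ ENNReal.ofReal B * eLpNorm φ 2 μ := by
    have hbound : ∫⁻ u, ‖G u‖ₑ ^ (2 : ℝ) ∂μ
        ≤ (ENNReal.ofReal B) ^ (2 : ℝ) * ∫⁻ u, ‖φ u‖ₑ ^ (2 : ℝ) ∂μ := by
      have hm1 : AEMeasurable (fun p : E × E => ‖φ (a • p.1 + b • p.2)‖ₑ) (μ.prod μ) :=
        (hφ.1.comp_measurePreserving mp1).enorm
      have hm2 : ∀ᵐ u ∂μ, AEMeasurable (fun v => ‖φ (a • u + b • v)‖ₑ) μ := by
        have := hm1.aestronglyMeasurable.prodMk_left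
        filter_upwards [this] with u hu
        exact hu.aemeasurable
      calc ∫⁻ u, ‖G u‖ₑ ^ (2 : ℝ) ∂μ
          ≤ ∫⁻ u, (ENNReal.ofReal B) ^ (2 : ℝ) * ∫⁻ v, ‖φ (a • u + b • v)‖ₑ ^ (2 : ℝ) ∂μ ∂μ := by
            refine lintegral_mono_ae ?_
            filter_upwards [hm2] with u hu
            calc ‖G u‖ₑ ^ (2 : ℝ)
                ≤ (∫⁻ v, ‖φ (a • u + b • v)‖ₑ * ENNReal.ofReal B ∂μ) ^ (2 : ℝ) := by
                  refine ENNReal.rpow_le_rpow ?_ (by norm_num)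
                  refine (enorm_integral_le_lintegral_enorm _).trans ?_
                  refine lintegral_mono fun v => ?_
                  rw [enorm_smul]
                  gcongr
                  exact hBn _
              _ = (ENNReal.ofReal B) ^ (2 : ℝ) * (∫⁻ v, ‖φ (a • u + b • v)‖ₑ ∂μ) ^ (2 : ℝ) := by
                  rw [lintegral_mul_const' _ _ ENNReal.ofReal_ne_top,
                    ENNReal.mul_rpow_of_nonneg _ _ (by norm_num), mul_comm]
              _ ≤ (ENNReal.ofReal B) ^ (2 : ℝ) * ∫⁻ v, ‖φ (a • u + b • v)‖ₑ ^ (2 : ℝ) ∂μ := by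
                  gcongr
                  exact lintegral_rpow_jensen hu (by norm_num)
        _ = (ENNReal.ofReal B) ^ (2 : ℝ) * ∫⁻ u, ∫⁻ v, ‖φ (a • u + b • v)‖ₑ ^ (2 : ℝ) ∂μ ∂μ := by
            rw [lintegral_const_mul' _ _ (ENNReal.rpow_ne_top_of_nonneg (by norm_num)
              ENNReal.ofReal_ne_top)]
        _ = (ENNReal.ofReal B) ^ (2 : ℝ) * ∫⁻ u, ‖φ u‖ₑ ^ (2 : ℝ) ∂μ := by
            congr 1
            rw [← lintegral_prod (fun p : E × E => ‖φ (a • p.1 + b • p.2)‖ₑ ^ (2 : ℝ))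
              (hm1.pow_const _)]
            have hm3 : AEMeasurable (fun u => ‖φ u‖ₑ ^ (2 : ℝ))
                (Measure.map (fun p : E × E => a • p.1 + b • p.2) (μ.prod μ)) := by
              rw [mp1.map_eq]; exact hφ.1.enorm.pow_const _
            rw [← lintegral_map' hm3 mp1.measurable.aemeasurable, mp1.map_eq]
    rw [eLpNorm_eq_lintegral_rpow_enorm_toReal (by norm_num) (by norm_num),
      eLpNorm_eq_lintegral_rpow_enorm_toReal (by norm_num) (by norm_num)]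
    simp only [ENNReal.toReal_ofNat]
    calc (∫⁻ u, ‖G u‖ₑ ^ (2 : ℝ) ∂μ) ^ (1 / (2 : ℝ))
        ≤ ((ENNReal.ofReal B) ^ (2 : ℝ) * ∫⁻ u, ‖φ u‖ₑ ^ (2 : ℝ) ∂μ) ^ (1 / (2 : ℝ)) :=
          ENNReal.rpow_le_rpow hbound (by norm_num)
      _ = ENNReal.ofReal B * (∫⁻ u, ‖φ u‖ₑ ^ (2 : ℝ) ∂μ) ^ (1 / (2 : ℝ)) := by
          rw [ENNReal.mul_rpow_of_nonneg _ _ (by norm_num), ← ENNReal.rpow_mul]
          norm_num
  refine ⟨G, τ, hτ1, hτ2, ⟨hGm, hGn.trans_lt (ENNReal.mul_lt_top ENNReal.ofReal_lt_top hφ.2)⟩,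
    hGn, ?_⟩
  -- the pointwise identity
  have hs2 : (√2)⁻¹ ^ 2 + (√2)⁻¹ ^ 2 = (1 : ℝ) := by
    rw [inv_pow, Real.sq_sqrt (by norm_num)]; norm_num
  have mpR := h.mp_refl hs2
  have hint : ∀ᵐ x ∂μ, Integrable (fun z => φ (pt t x z)) μ := by
    have : Integrable (fun p : E × E => φ (pt t p.1 p.2)) (μ.prod μ) :=
      (mp_pt h ht.le).integrable_comp_of_integrable (hφ.integrable (by norm_num))
    exact this.prod_right_ae
  have hintU : ∀ᵐ x ∂μ, Integrable (fun z => U (pt t x z)) μ := by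
    have hUi : Integrable U μ := Integrable.of_bound hU B (Filter.Eventually.of_forall hB)
    have : Integrable (fun p : E × E => U (pt t p.1 p.2)) (μ.prod μ) :=
      (mp_pt h ht.le).integrable_comp_of_integrable hUi
    exact this.prod_right_ae
  filter_upwards [hint, hintU] with x hx hxU
  have hΨ : Integrable (fun q : E × E => φ (pt t x q.1) • U (pt t x q.2)) (μ.prod μ) :=
    hx.smul_prod hxU
  have hΨR := mpR.integrable_comp_of_integrable hΨ
  have e0 : ∀ w v : E, a • (pt τ x w) + b • v = pt t x ((√2)⁻¹ • w + (√2)⁻¹ • v) := by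
    intro w v
    unfold pt
    rw [smul_add, smul_smul, smul_smul, he1, he2, add_assoc, ← smul_add, ← smul_add, smul_smul,
      ← he3]
  have e0' : ∀ w v : E, a • (pt τ x w) + (-b) • v = pt t x ((√2)⁻¹ • w - (√2)⁻¹ • v) := by
    intro w v
    unfold pt
    rw [smul_add, smul_smul, smul_smul, he1, he2, add_assoc, neg_smul, ← sub_eq_add_neg,
      ← smul_sub, ← smul_sub, smul_smul, ← he3]
  calc mehler μ t φ x • mehler μ t U x
      = ∫ q : E × E, φ (pt t x q.1) • U (pt t x q.2) ∂(μ.prod μ) :=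
        (integral_prod_smul (fun z => φ (pt t x z)) (fun z => U (pt t x z))).symm
    _ = ∫ p : E × E, φ (pt t x ((√2)⁻¹ • p.1 + (√2)⁻¹ • p.2)) •
          U (pt t x ((√2)⁻¹ • p.1 - (√2)⁻¹ • p.2)) ∂(μ.prod μ) :=
        (mp_integral_comp mpR hΨ.1).symm
    _ = ∫ w, ∫ v, φ (pt t x ((√2)⁻¹ • w + (√2)⁻¹ • v)) •
          U (pt t x ((√2)⁻¹ • w - (√2)⁻¹ • v)) ∂μ ∂μ :=
        integral_prod _ hΨR
    _ = ∫ w, G (pt τ x w) ∂μ := by
        refine integral_congr_ae (Filter.Eventually.of_forall fun w => ?_)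
        refine integral_congr_ae (Filter.Eventually.of_forall fun v => ?_)
        simp only
        rw [← e0, ← e0']
    _ = mehler μ τ G x := rfl

end Pool.Agent.H96.OU
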