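import Mathlib
import Pool.Agent.H96.OU.Prod

open MeasureTheory ProbabilityTheory
open scoped ENNReal NNReal Real Topology RealInnerProductSpace

set_option linter.unusedSectionVars false

namespace Pool.Agent.H96.OU

variable {E : Type*} [NormedAddCommGroup E] [NormedSpace ℝ E] [MeasurableSpace E]
variable {H : Type*} [NormedAddCommGroup H] [InnerProductSpace ℝ H] [CompleteSpace H]
variable [BorelSpace E] [SecondCountableTopology E] {μ : Measure E} [IsProbabilityMeasure μ]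

lemma PL_gam_zero (h : RotInv μ) (f : Lp H 2 μ) : PL h (gam 0) f = f := by
  apply Lp.ext
  refine (PL_coe h _ f).trans ?_
  refine (bessel_ae_eq h 0 ((Lp.memLp f).integrable (by norm_num))).symm.trans ?_
  refine Filter.Eventually.of_forall fun x => ?_
  simp [bessel]

lemma PL_gam_add (h : RotInv μ) (r s : ℕ) (f : Lp H 2 μ) :
    PL h (gam r) (PL h (gam s) f) = PL h (gam (r + s)) f := by
  rw [PL_PL]
  simp only [gam_conv]

lemma inv_one_sub_exp_le {s : ℝ} (hs : 0 < s) (hs1 : s ≤ 1) :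
    (1 - Real.exp (-s))⁻¹ ≤ 2 / s := by
  have h1 : s / 2 ≤ 1 - Real.exp (-s) := by
    have h2 : Real.exp (-s) ≤ 1 / (1 + s) := by
      rw [Real.exp_neg, ← one_div]
      apply one_div_le_one_div_of_le (by positivity)
      linarith [Real.add_one_le_exp s]
    have h3 : 1 / (1 + s) ≤ 1 - s / 2 := by
      rw [div_le_iff₀ (by positivity)]
      nlinarith
    linarith
  rw [inv_le_comm₀ (by linarith) (by positivity)]
  rw [inv_div]
  exact h1

/-- `P_τ G = (1 - L)^{-m} Y` with `‖Y‖ ≤ C τ^{-m} ‖G‖`. -/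
lemma key3 (h : RotInv μ) (m : ℕ) : ∃ C : ℝ, 0 ≤ C ∧ ∀ τ : ℝ, 0 < τ → τ ≤ 1 →
    ∀ G : Lp H 2 μ, ∃ Y : Lp H 2 μ, PL h (gam (2 * m)) Y = PL h (dl τ) G ∧
      ‖Y‖ ≤ C * (τ⁻¹) ^ m * ‖G‖ := by
  induction m with
  | zero =>
    refine ⟨1, zero_le_one, fun τ hτ _ G => ⟨PL h (dl τ) G, ?_, ?_⟩⟩
    · rw [mul_zero, PL_gam_zero]
    · simpa using norm_PL_le h (dl τ) G
  | succ m ih =>
    obtain ⟨C, hC0, hC⟩ := ih
    refine ⟨C * 2 ^ m * 4, by positivity, fun τ hτ hτ1 G => ?_⟩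
    obtain ⟨Y, hY1, hY2⟩ := hC (τ / 2) (by positivity) (by linarith) G
    obtain ⟨Y', hY'1, hY'2⟩ := key2 h (s := τ / 2) (by positivity) Y
    refine ⟨Y', ?_, ?_⟩
    · have e1 : 2 * (m + 1) = 2 * m + 2 := by ring
      rw [e1, ← PL_gam_add, hY'1, PL_comm, hY1, PL_dl_PL_dl h (by positivity) (by positivity)]
      congr 2
      ring_nf
    · have h1 := inv_one_sub_exp_le (s := τ / 2) (by positivity) (by linarith)
      calc ‖Y'‖ ≤ (1 - Real.exp (-(τ / 2)))⁻¹ * ‖Y‖ := hY'2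
        _ ≤ (2 / (τ / 2)) * (C * ((τ / 2)⁻¹) ^ m * ‖G‖) := by
            gcongr
        _ = C * 2 ^ m * 4 * (τ⁻¹) ^ (m + 1) * ‖G‖ := by
            have : (τ / 2)⁻¹ = 2 * τ⁻¹ := by field_simp
            rw [this, mul_pow, pow_succ]
            field_simp
            ring

lemma gam2_Iic (x : ℝ) :
    gam 2 (Set.Iic x) = ENNReal.ofReal (if 0 ≤ x then 1 - Real.exp (-x) else 0) := by
  have h1 : gam 2 = expMeasure 1 := by simp [gam, expMeasure]
  have h2 := isProbabilityMeasure_expMeasure one_pos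
  rw [← ofReal_measureReal, h1, ← cdf_eq_real, cdf_expMeasure_eq one_pos, one_mul]

lemma gam2_decomp {τ : ℝ} (hτ : 0 ≤ τ) :
    gam 2 = (gam 2).restrict (Set.Iic τ)
      + ENNReal.ofReal (Real.exp (-τ)) • ((dl τ).conv (gam 2)) := by
  have hfin : IsFiniteMeasure (ENNReal.ofReal (Real.exp (-τ)) • ((dl τ).conv (gam 2))) :=
    Measure.smul_finite _ ENNReal.ofReal_ne_top
  refine Measure.ext_of_Iic _ _ fun x => ?_
  have hmap : ((dl τ).conv (gam 2)) (Set.Iic x) = gam 2 (Set.Iic (x - τ)) := by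
    rw [dl_eq hτ, Measure.dirac_conv, Measure.map_apply (by fun_prop) measurableSet_Iic]
    congr 1
    ext y
    simp only [Set.mem_preimage, Set.mem_Iic]
    constructor <;> intro hy <;> linarith
  rw [Measure.add_apply, Measure.smul_apply, hmap, Measure.restrict_apply measurableSet_Iic,
    Set.Iic_inter_Iic, gam2_Iic, gam2_Iic, gam2_Iic, smul_eq_mul,
    ← ENNReal.ofReal_mul (Real.exp_pos _).le]
  have hnn : ∀ y : ℝ, 0 ≤ (if 0 ≤ y then 1 - Real.exp (-y) else 0) := by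
    intro y
    split_ifs with hy
    · have : Real.exp (-y) ≤ 1 := Real.exp_le_one_iff.mpr (by linarith)
      linarith
    · exact le_rfl
  rw [← ENNReal.ofReal_add (hnn _) (mul_nonneg (Real.exp_pos _).le (hnn _))]
  congr 1
  rcases le_or_gt τ x with hx | hx
  · rw [min_eq_right hx, if_pos (show 0 ≤ x by linarith), if_pos hτ, if_pos (by linarith)]
    have : Real.exp (-x) = Real.exp (-τ) * Real.exp (-(x - τ)) := by
      rw [← Real.exp_add]; ring_nf
    rw [this]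
    ring
  · rw [min_eq_left hx.le]
    have h2 : ¬ (0 ≤ x - τ) := by linarith
    rw [if_neg h2]
    simp

/-- `‖(1 - P_τ) (1 - L)^{-1} f‖ ≤ 2 τ ‖f‖` -/
lemma key4 (h : RotInv μ) {τ : ℝ} (hτ : 0 ≤ τ) (f : Lp H 2 μ) :
    ‖PL h (gam 2) f - PL h (dl τ) (PL h (gam 2) f)‖ ≤ 2 * τ * ‖f‖ := by
  set v := PL h (gam 2) f - PL h (dl τ) (PL h (gam 2) f) with hv
  rcases eq_or_ne v 0 with h0 | h0
  · rw [h0, norm_zero]; positivity
  have hvpos : 0 < ‖v‖ := norm_pos_iff.mpr h0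
  set M := ‖f‖ * ‖v‖ with hM
  have hM0 : 0 ≤ M := by positivity
  let u : ℝ → ℝ := fun t => ⟪PL h (dl t) f, v⟫
  have hub : ∀ t, |u t| ≤ M := fun t => by
    calc |u t| ≤ ‖PL h (dl t) f‖ * ‖v‖ := abs_real_inner_le_norm _ _
      _ ≤ ‖f‖ * ‖v‖ := by gcongr; exact norm_PL_le h _ _
  have hui : Integrable u (gam 2) := PL_mix_integrable h (gam 2) f v
  have hui2 : Integrable u ((dl τ).conv (gam 2)) := PL_mix_integrable h _ f v
  have e1 : ⟪PL h (gam 2) f, v⟫ = ∫ t, u t ∂(gam 2) := PL_mix h (gam 2) f v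
  have e2 : ⟪PL h (dl τ) (PL h (gam 2) f), v⟫ = ∫ t, u t ∂((dl τ).conv (gam 2)) := by
    rw [PL_PL]; exact PL_mix h _ f v
  have e3 : ∫ t, u t ∂(gam 2) = ∫ t in Set.Iic τ, u t ∂(gam 2)
      + Real.exp (-τ) * ∫ t, u t ∂((dl τ).conv (gam 2)) := by
    conv_lhs => rw [gam2_decomp hτ]
    rw [integral_add_measure hui.restrict (hui2.smul_measure ENNReal.ofReal_ne_top),
      integral_smul_measure, ENNReal.toReal_ofReal (Real.exp_pos _).le, smul_eq_mul]
  have e4 : |∫ t in Set.Iic τ, u t ∂(gam 2)| ≤ M * (1 - Real.exp (-τ)) := by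
    have := norm_setIntegral_le_of_norm_le_const (μ := gam 2) (s := Set.Iic τ) (f := u) (C := M)
      (measure_lt_top _ _) (fun t _ => hub t)
    rw [gam_two_real_Iic hτ] at this
    exact this
  have e5 : |∫ t, u t ∂((dl τ).conv (gam 2))| ≤ M := by
    have := norm_integral_le_of_norm_le_const (μ := (dl τ).conv (gam 2)) (f := u) (C := M)
      (Filter.Eventually.of_forall hub)
    simpa using this
  have e6 : ‖v‖ ^ 2 = ∫ t in Set.Iic τ, u t ∂(gam 2)
      - (1 - Real.exp (-τ)) * ∫ t, u t ∂((dl τ).conv (gam 2)) := by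
    have : ‖v‖ ^ 2 = ⟪PL h (gam 2) f, v⟫ - ⟪PL h (dl τ) (PL h (gam 2) f), v⟫ := by
      rw [← inner_sub_left, ← hv, real_inner_self_eq_norm_sq]
    rw [this, e1, e2, e3]
    ring
  have hexp : 0 ≤ 1 - Real.exp (-τ) := by
    have : Real.exp (-τ) ≤ 1 := Real.exp_le_one_iff.mpr (by linarith)
    linarith
  have hexp2 : 1 - Real.exp (-τ) ≤ τ := by
    linarith [Real.add_one_le_exp (-τ)]
  have e7 : ‖v‖ ^ 2 ≤ 2 * τ * M := by
    rw [e6]
    have h1 := abs_le.mp e4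
    have h2 := abs_le.mp e5
    nlinarith
  have e8 : ‖v‖ * ‖v‖ ≤ (2 * τ * ‖f‖) * ‖v‖ := by
    rw [hM] at e7
    nlinarith
  exact le_of_mul_le_mul_right e8 hvpos

end Pool.Agent.H96.OU
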