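import Mathlib
import Pool.Agent.H96.OU.Smooth

open MeasureTheory ProbabilityTheory
open scoped ENNReal NNReal Real Topology RealInnerProductSpace

set_option linter.unusedSectionVars false

namespace Pool.Agent.H96.OU

/-! ### Resolvent identity -/

lemma exp_conv_aux {l : ℝ} (hl : 1 < l) {u : ℝ} (hu : u ≠ 0) :
    (∫⁻ x, gammaPDF 1 l x * gammaPDF 1 1 (-x + u)) + ENNReal.ofReal (1 / (l - 1)) * gammaPDF 1 l u
      = ENNReal.ofReal (l / (l - 1)) * gammaPDF 1 1 u := by
  have hl1 : 0 < l - 1 := by linarith
  rcases lt_or_gt_of_ne hu with hu | hu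
  · rw [gammaPDF_of_neg hu, gammaPDF_of_neg hu, mul_zero, mul_zero, add_zero]
    rw [lintegral_eq_zero_iff (by unfold gammaPDF; fun_prop)]
    refine Filter.Eventually.of_forall fun x => ?_
    rcases lt_or_ge x 0 with hx | hx
    · simp [gammaPDF_of_neg hx]
    · simp [gammaPDF_of_neg (show -x + u < 0 by linarith)]
  · have e1 : ∀ x : ℝ, gammaPDF 1 l x * gammaPDF 1 1 (-x + u)
        = (Set.Icc 0 u).indicator
          (fun x => ENNReal.ofReal (l * Real.exp (-u) * Real.exp (-((l - 1) * x)))) x := by
      intro x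
      by_cases hx : x ∈ Set.Icc 0 u
      · rw [Set.indicator_of_mem hx, gammaPDF_of_nonneg hx.1, gammaPDF_of_nonneg (by linarith [hx.2]),
          ← ENNReal.ofReal_mul (by simp; positivity)]
        congr 1
        simp only [Real.rpow_one, Real.Gamma_one, div_one, sub_self, Real.rpow_zero, mul_one, one_mul]
        have e2 : Real.exp (-(l * x)) * Real.exp (-(-x + u))
            = Real.exp (-u) * Real.exp (-((l - 1) * x)) := by
          rw [← Real.exp_add, ← Real.exp_add]; ring_nf
        linear_combination l * e2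
      · rw [Set.indicator_of_notMem hx]
        rw [Set.mem_Icc, not_and_or, not_le, not_le] at hx
        rcases hx with hx | hx
        · simp [gammaPDF_of_neg hx]
        · simp [gammaPDF_of_neg (show -x + u < 0 by linarith)]
    have e3 : ∫ x in Set.Icc 0 u, l * Real.exp (-u) * Real.exp (-((l - 1) * x))
        = l / (l - 1) * (Real.exp (-u) - Real.exp (-(l * u))) := by
      rw [integral_const_mul, integral_Icc_eq_integral_Ioc,
        ← intervalIntegral.integral_of_le hu.le]
      have e4 : ∫ x in (0 : ℝ)..u, Real.exp (-((l - 1) * x))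
          = (1 - Real.exp (-((l - 1) * u))) / (l - 1) := by
        have h1 : ∀ x : ℝ, -((l - 1) * x) = (-(l - 1)) * x := fun x => by ring
        simp_rw [h1]
        rw [intervalIntegral.integral_comp_mul_left (fun x => Real.exp x)
          (show (-(l - 1)) ≠ 0 by linarith), integral_exp, smul_eq_mul, mul_zero, Real.exp_zero]
        field_simp
        ring
      rw [e4]
      have e5 : Real.exp (-(l * u)) = Real.exp (-u) * Real.exp (-((l - 1) * u)) := by
        rw [← Real.exp_add]; ring_nf
      rw [e5]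
      field_simp
    have hle : Real.exp (-(l * u)) ≤ Real.exp (-u) := Real.exp_le_exp.mpr (by nlinarith)
    simp_rw [e1]
    rw [lintegral_indicator measurableSet_Icc, ← ofReal_integral_eq_lintegral_ofReal, e3,
      gammaPDF_of_nonneg hu.le, gammaPDF_of_nonneg hu.le]
    · rw [← ENNReal.ofReal_mul (by positivity), ← ENNReal.ofReal_mul (by positivity),
        ← ENNReal.ofReal_add (mul_nonneg (by positivity) (by linarith)) (by simp; positivity)]
      congr 1
      simp only [Real.rpow_one, Real.Gamma_one, div_one, sub_self, Real.rpow_zero, mul_one, one_mul]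
      field_simp
      ring
    · exact (Continuous.integrableOn_Icc (by fun_prop))
    · exact Filter.Eventually.of_forall fun x => by positivity

/-- the resolvent identity at the level of mixing measures -/
lemma exp_conv {l : ℝ} (hl : 1 < l) :
    (gammaMeasure 1 l).conv (gam 2) + ENNReal.ofReal (1 / (l - 1)) • gammaMeasure 1 l
      = ENNReal.ofReal (l / (l - 1)) • gam 2 := by
  have hml : Measurable (gammaPDF 1 l) := by unfold gammaPDF; fun_prop
  have hm1 : Measurable (gammaPDF 1 1) := by unfold gammaPDF; fun_prop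
  have hg2 : gam 2 = volume.withDensity (gammaPDF 1 1) := by simp [gam, gammaMeasure]
  rw [hg2]
  unfold gammaMeasure
  rw [conv_withDensity_eq_lconvolution hml hm1, ← withDensity_smul _ hml, ← withDensity_smul _ hm1,
    ← withDensity_add_right _ (hml.const_smul _)]
  refine withDensity_congr_ae ?_
  filter_upwards [Measure.ae_ne volume (0 : ℝ)] with u hu
  exact exp_conv_aux hl hu

variable {E : Type*} [NormedAddCommGroup E] [NormedSpace ℝ E] [MeasurableSpace E]
variable {H : Type*} [NormedAddCommGroup H] [InnerProductSpace ℝ H] [CompleteSpace H]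
variable [BorelSpace E] [SecondCountableTopology E] {μ : Measure E} [IsProbabilityMeasure μ]

/-- the resolvent `(1 + ε (1 - L))⁻¹` -/
lemma exists_res (H : Type*) [NormedAddCommGroup H] [InnerProductSpace ℝ H] [CompleteSpace H]
    (h : RotInv μ) {ε : ℝ} (hε : 0 < ε) : ∃ S : Lp H 2 μ →L[ℝ] Lp H 2 μ,
    (∀ f, ‖S f‖ ≤ ‖f‖) ∧
    (∀ p : ℝ≥0∞, 1 ≤ p → p ≠ ∞ → ∀ f, eLpNorm (S f) p μ ≤ eLpNorm f p μ) ∧
    (∀ f, S (PL h (gam 2) f) = PL h (gam 2) f - ε • S f) ∧
    (∀ f, S (PL h (gam 2) f) = PL h (gam 2) (S f)) := by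
  set l : ℝ := 1 + 1 / ε with hl
  have hl1 : 1 < l := by rw [hl]; linarith [show 0 < 1 / ε by positivity]
  have hmix : Mix (gammaMeasure 1 l) := mix_gammaMeasure one_pos (by linarith)
  have hc0 : 0 ≤ (1 + ε)⁻¹ := by positivity
  have hc1 : (1 + ε)⁻¹ ≤ 1 := inv_le_one_of_one_le₀ (by linarith)
  refine ⟨(1 + ε)⁻¹ • PL h (gammaMeasure 1 l), fun f => ?_, fun p hp hp' f => ?_, fun f => ?_,
    fun f => ?_⟩
  · rw [smul_apply, norm_smul, Real.norm_of_nonneg hc0]
    calc (1 + ε)⁻¹ * ‖PL h (gammaMeasure 1 l) f‖ ≤ 1 * ‖f‖ := by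
          gcongr
          exact norm_PL_le h _ f
      _ = ‖f‖ := one_mul _
  · rw [smul_apply, eLpNorm_congr_ae (Lp.coeFn_smul _ _), eLpNorm_const_smul]
    calc ‖(1 + ε)⁻¹‖ₑ * eLpNorm (PL h (gammaMeasure 1 l) f) p μ
        ≤ 1 * eLpNorm f p μ := by
          gcongr
          · rw [← ofReal_norm, Real.norm_of_nonneg hc0]
            exact ENNReal.ofReal_le_one.mpr hc1
          · exact eLpNorm_PL_le h _ f hp hp'
      _ = eLpNorm f p μ := one_mul _
  · -- resolvent identity
    have key : PL h ((gammaMeasure 1 l).conv (gam 2)) f + (1 / (l - 1)) • PL h (gammaMeasure 1 l) f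
        = (l / (l - 1)) • PL h (gam 2) f := by
      refine ext_inner_right ℝ fun g => ?_
      have hl2 : 0 < l - 1 := by linarith
      rw [inner_add_left, inner_smul_left, inner_smul_left, PL_mix, PL_mix h (gammaMeasure 1 l),
        PL_mix h (gam 2)]
      have i1 := PL_mix_integrable h ((gammaMeasure 1 l).conv (gam 2)) f g
      have i2 := PL_mix_integrable h (gammaMeasure 1 l) f g
      have e1 := congrArg (fun m : Measure ℝ => ∫ t, ⟪PL h (dl t) f, g⟫ ∂m) (exp_conv hl1)
      rw [integral_add_measure i1 (i2.smul_measure ENNReal.ofReal_ne_top), integral_smul_measure,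
        integral_smul_measure, ENNReal.toReal_ofReal (by positivity),
        ENNReal.toReal_ofReal (by positivity)] at e1
      simpa using e1
    have h1 : l - 1 = 1 / ε := by rw [hl]; ring
    have h2 : l / (l - 1) = 1 + ε := by rw [h1, hl]; field_simp; ring
    have h3 : 1 / (l - 1) = ε := by rw [h1]; field_simp
    rw [h2, h3] at key
    simp only [smul_apply]
    rw [PL_PL, eq_sub_of_add_eq key, smul_sub, smul_smul, smul_smul, smul_smul,
      inv_mul_cancel₀ (by positivity), one_smul, mul_comm ε]
  · simp only [smul_apply]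
    rw [PL_comm, map_smul]

end Pool.Agent.H96.OU
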