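import Mathlib
import Pool.Agent.H96.OU.Res

open MeasureTheory ProbabilityTheory
open scoped ENNReal NNReal Real Topology RealInnerProductSpace

set_option linter.unusedSectionVars false

namespace Pool.Agent.H96.OU

variable {E : Type*} [NormedAddCommGroup E] [NormedSpace ℝ E] [MeasurableSpace E]
variable {H : Type*} [NormedAddCommGroup H] [InnerProductSpace ℝ H] [CompleteSpace H]
variable [BorelSpace E] [SecondCountableTopology E] {μ : Measure E} [IsProbabilityMeasure μ]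

/-- `x` is a contraction for the (extended) `L^p` norm -/
def Contr (x : Lp H 2 μ →L[ℝ] Lp H 2 μ) (p : ℝ≥0∞) : Prop :=
  ∀ V, eLpNorm (x V) p μ ≤ eLpNorm V p μ

lemma Contr.pow {x : Lp H 2 μ →L[ℝ] Lp H 2 μ} {p : ℝ≥0∞} (hx : Contr x p) (i : ℕ) :
    Contr (x ^ i) p := by
  induction i with
  | zero => intro V; simp
  | succ i ih =>
    intro V
    rw [pow_succ]
    exact (ih (x V)).trans (hx V)

lemma Contr.one_sub {x : Lp H 2 μ →L[ℝ] Lp H 2 μ} {p : ℝ≥0∞} (hx : Contr x p) (hp : 1 ≤ p)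
    (V : Lp H 2 μ) : eLpNorm ((1 - x) V : Lp H 2 μ) p μ ≤ 2 * eLpNorm V p μ := by
  have e : (1 - x) V = V - x V := by simp
  rw [e, eLpNorm_congr_ae (Lp.coeFn_sub _ _), two_mul]
  refine (eLpNorm_sub_le (Lp.aestronglyMeasurable _) (Lp.aestronglyMeasurable _) hp).trans ?_
  gcongr
  exact hx V

lemma Contr.one_sub_pow {x : Lp H 2 μ →L[ℝ] Lp H 2 μ} {p : ℝ≥0∞} (hx : Contr x p) (hp : 1 ≤ p)
    (i : ℕ) (V : Lp H 2 μ) :
    eLpNorm (((1 - x) ^ i) V : Lp H 2 μ) p μ ≤ 2 ^ i * eLpNorm V p μ := by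
  induction i generalizing V with
  | zero => simp
  | succ i ih =>
    rw [pow_succ]
    calc eLpNorm ((((1 - x) ^ i) * (1 - x)) V : Lp H 2 μ) p μ
        = eLpNorm (((1 - x) ^ i) ((1 - x) V) : Lp H 2 μ) p μ := rfl
      _ ≤ 2 ^ i * eLpNorm ((1 - x) V : Lp H 2 μ) p μ := ih _
      _ ≤ 2 ^ i * (2 * eLpNorm V p μ) := by gcongr; exact hx.one_sub hp V
      _ = 2 ^ i * 2 * eLpNorm V p μ := by rw [mul_assoc]

lemma Contr.geom {x : Lp H 2 μ →L[ℝ] Lp H 2 μ} {p : ℝ≥0∞} (hx : Contr x p) (hp : 1 ≤ p)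
    (N : ℕ) (V : Lp H 2 μ) :
    eLpNorm ((∑ i ∈ Finset.range N, (1 - x) ^ i) V : Lp H 2 μ) p μ ≤ 2 ^ N * eLpNorm V p μ := by
  induction N with
  | zero =>
    simp only [Finset.range_zero, Finset.sum_empty, zero_apply, pow_zero, one_mul]
    rw [eLpNorm_congr_ae (Lp.coeFn_zero _ _ _), eLpNorm_zero]
    exact zero_le
  | succ N ih =>
    rw [Finset.sum_range_succ, add_apply, eLpNorm_congr_ae (Lp.coeFn_add _ _)]
    refine (eLpNorm_add_le (Lp.aestronglyMeasurable _) (Lp.aestronglyMeasurable _) hp).trans ?_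
    calc _ ≤ 2 ^ N * eLpNorm V p μ + 2 ^ N * eLpNorm V p μ := add_le_add ih (hx.one_sub_pow hp N V)
      _ = 2 ^ (N + 1) * eLpNorm V p μ := by rw [pow_succ]; ring

lemma contr_PL (h : RotInv μ) (ν : Measure ℝ) [Mix ν] {p : ℝ≥0∞} (hp : 1 ≤ p) (hp' : p ≠ ∞) :
    Contr (PL (H := H) h ν) p := fun f => eLpNorm_PL_le h ν f hp hp'

/-- decomposition `V = Σ_{i<N} (1-x)^i (x V) + (1-x)^N V` -/
lemma geom_decomp (x : Lp H 2 μ →L[ℝ] Lp H 2 μ) (N : ℕ) (V : Lp H 2 μ) :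
    V = (∑ i ∈ Finset.range N, (1 - x) ^ i) (x V) + ((1 - x) ^ N) V := by
  have h1 := geom_sum_mul_neg (1 - x) N
  have h2 : (∑ i ∈ Finset.range N, (1 - x) ^ i) * x = 1 - (1 - x) ^ N := by
    simpa using h1
  have h3 := congrArg (fun T : Lp H 2 μ →L[ℝ] Lp H 2 μ => T V) h2
  simp only [sub_apply, one_apply_eq_self] at h3
  have h4 : ((∑ i ∈ Finset.range N, (1 - x) ^ i) * x) V
      = (∑ i ∈ Finset.range N, (1 - x) ^ i) (x V) := rfl
  rw [h4] at h3
  rw [h3]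
  abel

lemma geom_decomp' (x : Lp H 2 μ →L[ℝ] Lp H 2 μ) (N : ℕ) (V : Lp H 2 μ) :
    V = x ((∑ i ∈ Finset.range N, (1 - x) ^ i) V) + ((1 - x) ^ N) V := by
  have h1 := mul_neg_geom_sum (1 - x) N
  have h2 : x * (∑ i ∈ Finset.range N, (1 - x) ^ i) = 1 - (1 - x) ^ N := by
    simpa using h1
  have h3 := congrArg (fun T : Lp H 2 μ →L[ℝ] Lp H 2 μ => T V) h2
  simp only [sub_apply, one_apply_eq_self] at h3
  have h4 : (x * (∑ i ∈ Finset.range N, (1 - x) ^ i)) V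
      = x ((∑ i ∈ Finset.range N, (1 - x) ^ i) V) := rfl
  rw [h4] at h3
  rw [h3]
  abel

lemma comm_gam (h : RotInv μ) (T : Lp H 2 μ →L[ℝ] Lp H 2 μ)
    (hcomm : ∀ f, T (PL h (gam 2) f) = PL h (gam 2) (T f)) (N : ℕ) (f : Lp H 2 μ) :
    T (PL h (gam (2 * N)) f) = PL h (gam (2 * N)) (T f) := by
  induction N generalizing f with
  | zero => simp [PL_gam_zero]
  | succ N ih =>
    have e1 : 2 * (N + 1) = 2 * N + 2 := by ring
    rw [e1, ← PL_gam_add, ih, hcomm, PL_gam_add]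

/-- If `‖T (R f)‖ ≤ c ‖f‖` and `T` commutes with `R` then `‖T^N R^N f‖ ≤ c^N ‖f‖`. -/
lemma pow_bound (h : RotInv μ) (T : Lp H 2 μ →L[ℝ] Lp H 2 μ) {c : ℝ} (hc : 0 ≤ c)
    (hT : ∀ f, ‖T (PL h (gam 2) f)‖ ≤ c * ‖f‖)
    (hcomm : ∀ f, T (PL h (gam 2) f) = PL h (gam 2) (T f)) (N : ℕ) (f : Lp H 2 μ) :
    ‖(T ^ N) (PL h (gam (2 * N)) f)‖ ≤ c ^ N * ‖f‖ := by
  have hcommN := comm_gam h T hcomm
  induction N generalizing f with
  | zero => simp [PL_gam_zero]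
  | succ N ih =>
    have e1 : 2 * (N + 1) = 2 * N + 2 := by ring
    have e2 : (T ^ (N + 1)) (PL h (gam (2 * (N + 1))) f)
        = (T ^ N) (PL h (gam (2 * N)) (T (PL h (gam 2) f))) := by
      rw [pow_succ, e1, ← PL_gam_add]
      change (T ^ N) (T (PL h (gam (2 * N)) (PL h (gam 2) f))) = _
      rw [hcommN]
    rw [e2]
    calc _ ≤ c ^ N * ‖T (PL h (gam 2) f)‖ := ih _
      _ ≤ c ^ N * (c * ‖f‖) := by gcongr; exact hT f
      _ = c ^ (N + 1) * ‖f‖ := by ring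

lemma key5 (h : RotInv μ) {τ : ℝ} (hτ : 0 ≤ τ) (N : ℕ) (f : Lp H 2 μ) :
    ‖((1 - PL h (dl τ)) ^ N) (PL h (gam (2 * N)) f)‖ ≤ (2 * τ) ^ N * ‖f‖ := by
  refine pow_bound h _ (by positivity) (fun f => ?_) (fun f => ?_) N f
  · have := key4 h hτ f
    simpa using this
  · simp only [sub_apply, one_apply_eq_self, map_sub]
    rw [PL_comm]

/-- the approximation used for the regularity of `A V` -/
lemma key6 (h : RotInv μ) {S : Lp H 2 μ →L[ℝ] Lp H 2 μ} {ε : ℝ} (hε : 0 < ε)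
    (hS1 : ∀ f, ‖S f‖ ≤ ‖f‖)
    (hS3 : ∀ f, S (PL h (gam 2) f) = PL h (gam 2) f - ε • S f)
    (hS4 : ∀ f, S (PL h (gam 2) f) = PL h (gam 2) (S f)) (m K : ℕ) (f : Lp H 2 μ) :
    ‖((1 - S ^ m) ^ K) (PL h (gam (2 * K)) f)‖ ≤ (m * ε) ^ K * ‖f‖ := by
  have hcomm : ∀ (i : ℕ) (f : Lp H 2 μ), (S ^ i) (PL h (gam 2) f) = PL h (gam 2) ((S ^ i) f) := by
    intro i
    induction i with
    | zero => intro f; simp
    | succ i ih =>
      intro f
      rw [pow_succ]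
      change (S ^ i) (S (PL h (gam 2) f)) = PL h (gam 2) ((S ^ i) (S f))
      rw [hS4, ih]
  have hSpow : ∀ (i : ℕ) (f : Lp H 2 μ), ‖(S ^ i) f‖ ≤ ‖f‖ := by
    intro i
    induction i with
    | zero => intro f; simp
    | succ i ih =>
      intro f
      rw [pow_succ]
      exact (ih (S f)).trans (hS1 f)
  have hb : ∀ (m : ℕ) (f : Lp H 2 μ), ‖(1 - S ^ m) (PL h (gam 2) f)‖ ≤ (m * ε) * ‖f‖ := by
    intro m
    induction m with
    | zero => intro f; simp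
    | succ m ih =>
      intro f
      have e1 : (1 - S ^ (m + 1)) (PL h (gam 2) f)
          = (1 - S ^ m) (PL h (gam 2) f) + (S ^ m) (ε • S f) := by
        have e2 : (S ^ (m + 1)) (PL h (gam 2) f) = (S ^ m) (S (PL h (gam 2) f)) := by
          rw [pow_succ]; rfl
        simp only [sub_apply, one_apply_eq_self]
        rw [e2, hS3, map_sub]
        abel
      rw [e1]
      calc _ ≤ ‖(1 - S ^ m) (PL h (gam 2) f)‖ + ‖(S ^ m) (ε • S f)‖ := norm_add_le _ _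
        _ ≤ (m * ε) * ‖f‖ + ε * ‖f‖ := by
            gcongr
            · exact ih f
            · refine (hSpow m _).trans ?_
              rw [norm_smul, Real.norm_of_nonneg hε.le]
              gcongr
              exact hS1 f
        _ = ((m + 1 : ℕ) * ε) * ‖f‖ := by push_cast; ring
  refine pow_bound h _ (by positivity) (hb m) (fun f => ?_) K f
  simp only [sub_apply, one_apply_eq_self, map_sub]
  rw [hcomm]

lemma key7 (h : RotInv μ) {S : Lp H 2 μ →L[ℝ] Lp H 2 μ} {ε : ℝ} (hε : 0 < ε)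
    (hS3 : ∀ f, S (PL h (gam 2) f) = PL h (gam 2) f - ε • S f)
    (hS4 : ∀ f, S (PL h (gam 2) f) = PL h (gam 2) (S f))
    {p : ℝ≥0∞} (hp : 1 ≤ p) (hS : Contr S p) (m : ℕ) (Y : Lp H 2 μ) :
    eLpNorm ((S ^ m) Y : Lp H 2 μ) p μ
      ≤ ENNReal.ofReal ((2 / ε) ^ m) * eLpNorm (PL h (gam (2 * m)) Y) p μ := by
  induction m generalizing Y with
  | zero => simp [PL_gam_zero]
  | succ m ih =>
    have e2 : (S ^ (m + 1)) Y = (S ^ m) (S Y) := by rw [pow_succ]; rfl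
    have e3 : S Y = ε⁻¹ • (PL h (gam 2) Y - S (PL h (gam 2) Y)) := by
      rw [hS3]
      simp only [sub_sub_cancel, smul_smul]
      rw [inv_mul_cancel₀ hε.ne', one_smul]
    have e4 : ∀ Z : Lp H 2 μ, eLpNorm ((ε⁻¹ • (Z - S Z) : Lp H 2 μ)) p μ
        ≤ ENNReal.ofReal (2 / ε) * eLpNorm Z p μ := by
      intro Z
      rw [eLpNorm_congr_ae (Lp.coeFn_smul _ _), eLpNorm_const_smul]
      have h5 := hS.one_sub hp Z
      have h6 : (1 - S) Z = Z - S Z := by simp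
      rw [h6] at h5
      calc _ ≤ ‖ε⁻¹‖ₑ * (2 * eLpNorm Z p μ) := by gcongr
        _ = ENNReal.ofReal (2 / ε) * eLpNorm Z p μ := by
            rw [← mul_assoc]
            congr 1
            rw [← ofReal_norm, Real.norm_of_nonneg (by positivity), ← ENNReal.ofReal_ofNat 2,
              ← ENNReal.ofReal_mul (by positivity)]
            congr 1
            field_simp
    have e5 : PL h (gam (2 * m)) (S Y)
        = ε⁻¹ • (PL h (gam (2 * (m + 1))) Y - S (PL h (gam (2 * (m + 1))) Y)) := by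
      have e6 : 2 * (m + 1) = 2 * m + 2 := by ring
      rw [e3, map_smul, map_sub, PL_gam_add, ← e6, ← comm_gam h S hS4 m, PL_gam_add, ← e6]
    rw [e2]
    refine (ih (S Y)).trans ?_
    rw [e5]
    calc _ ≤ ENNReal.ofReal ((2 / ε) ^ m)
          * (ENNReal.ofReal (2 / ε) * eLpNorm (PL h (gam (2 * (m + 1))) Y) p μ) := by
          gcongr
          exact e4 _
      _ = _ := by
          rw [← mul_assoc, ← ENNReal.ofReal_mul (by positivity), ← pow_succ]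

end Pool.Agent.H96.OU
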