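import Mathlib
import Pool.Agent.H96.OU.Alg

open MeasureTheory ProbabilityTheory
open scoped ENNReal NNReal Real Topology RealInnerProductSpace

set_option linter.unusedSectionVars false

namespace Pool.Agent.H96.OU

variable {E : Type*} [NormedAddCommGroup E] [NormedSpace ℝ E] [MeasurableSpace E]
variable {F : Type*} [NormedAddCommGroup F] [NormedSpace ℝ F]
variable {H : Type*} [NormedAddCommGroup H] [InnerProductSpace ℝ H] [CompleteSpace H]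
variable [BorelSpace E] [SecondCountableTopology E] {μ : Measure E} [IsProbabilityMeasure μ]

lemma mehler_eq_Pm_fun (t : ℝ) (f : E → F) : mehler μ t f = Pm μ (Measure.dirac t) f :=
  funext fun x => mehler_eq_Pm t f x

lemma mehler_congr (h : RotInv μ) {t : ℝ} (ht : 0 ≤ t) {f g : E → F} (hfg : f =ᵐ[μ] g) :
    mehler μ t f =ᵐ[μ] mehler μ t g := by
  have := mix_dirac ht
  rw [mehler_eq_Pm_fun, mehler_eq_Pm_fun]
  exact Pm_congr h hfg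

lemma mehler_mehler (h : RotInv μ) {s t : ℝ} (hs : 0 ≤ s) (ht : 0 ≤ t) {f : E → F}
    (hf : Integrable f μ) : mehler μ s (mehler μ t f) =ᵐ[μ] mehler μ (s + t) f := by
  have h1 := mix_dirac hs
  have h2 := mix_dirac ht
  have h3 := Pm_Pm (ν := Measure.dirac s) (ν' := Measure.dirac t) h hf
  rw [mehler_eq_Pm_fun s, mehler_eq_Pm_fun t, mehler_eq_Pm_fun (s + t)]
  rwa [Measure.dirac_conv_dirac] at h3

lemma aesm_mehler (h : RotInv μ) {t : ℝ} (ht : 0 ≤ t) {f : E → F}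
    (hf : AEStronglyMeasurable f μ) : AEStronglyMeasurable (mehler μ t f) μ := by
  have h1 := mix_dirac ht
  rw [mehler_eq_Pm_fun]
  exact aestronglyMeasurable_Pm h hf

lemma norm_mehler_le {f : E → F} {B : ℝ} (hf : ∀ x, ‖f x‖ ≤ B) (t : ℝ) (x : E) :
    ‖mehler μ t f x‖ ≤ B := by
  have h1 := norm_integral_le_of_norm_le_const (μ := μ)
    (f := fun y : E => f (pt t x y)) (C := B) (Filter.Eventually.of_forall fun z => hf _)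
  simpa [mehler_eq_pt] using h1

lemma eLpNorm_mehler_le (h : RotInv μ) {t : ℝ} (ht : 0 ≤ t) {f : E → F}
    (hf : AEStronglyMeasurable f μ) {p : ℝ≥0∞} (hp : 1 ≤ p) (hp' : p ≠ ∞) :
    eLpNorm (mehler μ t f) p μ ≤ eLpNorm f p μ := by
  have h1 := mix_dirac ht
  rw [mehler_eq_Pm_fun]
  exact eLpNorm_Pm_le h hf hp hp'

lemma mehler_ae_PL (h : RotInv μ) {t : ℝ} (ht : 0 ≤ t) {G : E → H} (hG : MemLp G 2 μ) :
    mehler μ t G =ᵐ[μ] PL h (dl t) (hG.toLp G) := by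
  have h1 := mix_dirac ht
  refine (mehler_congr h ht hG.coeFn_toLp.symm).trans ?_
  rw [mehler_eq_Pm_fun]
  refine Filter.EventuallyEq.trans ?_ (PL_coe h (dl t) _).symm
  rw [dl_eq ht]

lemma bessel_ae_PL (h : RotInv μ) (r : ℕ) (Y : Lp H 2 μ) :
    (PL h (gam r) Y : E → H) =ᵐ[μ] bessel μ r Y :=
  (PL_coe h _ Y).trans (bessel_ae_eq h r ((Lp.memLp Y).integrable (by norm_num))).symm

lemma sobolevNorm_le {p : ℝ≥0∞} {r : ℕ} {U V : E → F} (hU : MemLp U p μ)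
    (hV : V =ᵐ[μ] bessel μ r U) : sobolevNorm μ p r V ≤ eLpNorm U p μ :=
  iInf_le_of_le U (iInf_le_of_le hU (iInf_le_of_le hV le_rfl))

lemma sobolevNorm_congr {p : ℝ≥0∞} {r : ℕ} {V V' : E → F} (hV : V =ᵐ[μ] V') :
    sobolevNorm μ p r V = sobolevNorm μ p r V' := by
  unfold sobolevNorm
  congr 1; ext U
  congr 1; ext hU
  exact iInf_congr_Prop ⟨fun h => hV.symm.trans h, fun h => hV.trans h⟩ fun _ => rfl

lemma MemSobolev.congr {p : ℝ≥0∞} {r : ℕ} {V V' : E → F} (hV : V =ᵐ[μ] V')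
    (h : MemSobolev μ p r V) : MemSobolev μ p r V' := by
  obtain ⟨U, hU, hVU⟩ := h
  exact ⟨U, hU, hV.symm.trans hVU⟩

lemma eLpNorm_le_sobolevNorm_zero (p : ℝ≥0∞) (V : E → F) :
    eLpNorm V p μ ≤ sobolevNorm μ p 0 V := by
  refine le_iInf fun U => le_iInf fun hU => le_iInf fun hV => ?_
  have : V =ᵐ[μ] U := hV.trans (Filter.Eventually.of_forall fun x => by simp [bessel])
  rw [eLpNorm_congr_ae this]

lemma eLpNorm_coe_Lp (Y : Lp H 2 μ) : eLpNorm Y 2 μ = ENNReal.ofReal ‖Y‖ := by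
  rw [Lp.norm_def, ENNReal.ofReal_toReal (Lp.eLpNorm_ne_top Y)]

/-- smoothing of the Ornstein-Uhlenbeck semigroup in `𝔻^2_s` -/
lemma sobolevNorm_mehler (h : RotInv μ) (H : Type*) [NormedAddCommGroup H]
    [InnerProductSpace ℝ H] [CompleteSpace H] (s : ℕ) :
    ∃ C : ℝ, 0 ≤ C ∧ ∀ τ : ℝ, 0 < τ → τ ≤ 1 → ∀ G : E → H, MemLp G 2 μ →
      MemSobolev μ 2 s (mehler μ τ G) ∧
      sobolevNorm μ 2 s (mehler μ τ G) ≤ ENNReal.ofReal (C * (τ⁻¹) ^ s) * eLpNorm G 2 μ := by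
  obtain ⟨C, hC0, hC⟩ := key3 (H := H) h s
  refine ⟨C, hC0, fun τ hτ hτ1 G hG => ?_⟩
  obtain ⟨Y, hY1, hY2⟩ := hC τ hτ hτ1 (hG.toLp G)
  have h1 : mehler μ τ G =ᵐ[μ] bessel μ s (PL h (gam s) Y) := by
    refine (mehler_ae_PL h hτ.le hG).trans ?_
    rw [← hY1, two_mul, ← PL_gam_add]
    exact bessel_ae_PL h s _
  refine ⟨⟨_, Lp.memLp _, h1⟩, ?_⟩
  refine (sobolevNorm_le (Lp.memLp _) h1).trans ?_
  rw [eLpNorm_coe_Lp]
  have h2 : ‖PL h (gam s) Y‖ ≤ C * (τ⁻¹) ^ s * ‖hG.toLp G‖ := (norm_PL_le h _ Y).trans hY2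
  calc ENNReal.ofReal ‖PL h (gam s) Y‖ ≤ ENNReal.ofReal (C * (τ⁻¹) ^ s * ‖hG.toLp G‖) :=
        ENNReal.ofReal_le_ofReal h2
    _ = ENNReal.ofReal (C * (τ⁻¹) ^ s) * eLpNorm G 2 μ := by
        rw [ENNReal.ofReal_mul (by positivity), Lp.norm_toLp, ENNReal.ofReal_toReal hG.2.ne]

/-- The standing hypotheses on the operator field `A`. -/
structure Hyp (μ : Measure E) (A : E → H →L[ℝ] H) : Prop where
  meas : ∀ x : H, StronglyMeasurable fun ω => A ω x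
  map : ∀ V : E → H, MemDTwoInfty μ V → MemDTwoInfty μ fun ω => A ω (V ω)
  cont : ∀ r : ℕ, ∃ (s : ℕ) (C : ℝ≥0), ∀ V : E → H, MemDTwoInfty μ V →
    sobolevNorm μ 2 r (fun ω => A ω (V ω)) ≤ C * sobolevNorm μ 2 s V

lemma ofReal_coe_mul {C : ℝ≥0} {x : ℝ} : (C : ℝ≥0∞) * ENNReal.ofReal x
    = ENNReal.ofReal ((C : ℝ) * x) := by
  rw [ENNReal.ofReal_mul (NNReal.coe_nonneg C), ENNReal.ofReal_coe_nnreal]

lemma D1 (h : RotInv μ) {A : E → H →L[ℝ] H} (hA : Hyp μ A) :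
    ∃ (C : ℝ) (κ : ℕ), 0 ≤ C ∧ ∀ τ : ℝ, 0 < τ → τ ≤ 1 → ∀ G : E → H, MemLp G 2 μ →
      eLpNorm (fun ω => A ω (mehler μ τ G ω)) 2 μ
        ≤ ENNReal.ofReal (C * (τ⁻¹) ^ κ) * eLpNorm G 2 μ := by
  obtain ⟨s, C₁, hC₁⟩ := hA.cont 0
  obtain ⟨C₂, hC₂0, hC₂⟩ := sobolevNorm_mehler h H s
  refine ⟨C₁ * C₂, s, by positivity, fun τ hτ hτ1 G hG => ?_⟩
  have hmem : MemDTwoInfty μ (mehler μ τ G) := fun r => by
    obtain ⟨C, _, hC⟩ := sobolevNorm_mehler h H r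
    exact (hC τ hτ hτ1 G hG).1
  calc eLpNorm (fun ω => A ω (mehler μ τ G ω)) 2 μ
      ≤ sobolevNorm μ 2 0 (fun ω => A ω (mehler μ τ G ω)) := eLpNorm_le_sobolevNorm_zero _ _
    _ ≤ C₁ * sobolevNorm μ 2 s (mehler μ τ G) := hC₁ _ hmem
    _ ≤ C₁ * (ENNReal.ofReal (C₂ * (τ⁻¹) ^ s) * eLpNorm G 2 μ) := by
        gcongr
        exact (hC₂ τ hτ hτ1 G hG).2
    _ = ENNReal.ofReal (C₁ * C₂ * (τ⁻¹) ^ s) * eLpNorm G 2 μ := by
        rw [← mul_assoc, ofReal_coe_mul, mul_assoc (C₁ : ℝ)]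

lemma D2 (h : RotInv μ) {A : E → H →L[ℝ] H} (hA : Hyp μ A) (N : ℕ) :
    ∃ (C : ℝ) (κ : ℕ), 0 ≤ C ∧ ∀ τ : ℝ, 0 < τ → τ ≤ 1 → ∀ G : E → H, MemLp G 2 μ →
      eLpNorm G 2 μ ≤ 1 → ∃ Z : Lp H 2 μ,
      (fun ω => A ω (mehler μ τ G ω)) =ᵐ[μ] PL h (gam (2 * N)) Z ∧ ‖Z‖ ≤ C * (τ⁻¹) ^ κ := by
  obtain ⟨s, C₁, hC₁⟩ := hA.cont (2 * N)
  obtain ⟨C₂, hC₂0, hC₂⟩ := sobolevNorm_mehler h H s
  refine ⟨C₁ * C₂ + 1, s, by positivity, fun τ hτ hτ1 G hG hG1 => ?_⟩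
  have hτi : 1 ≤ τ⁻¹ := (one_le_inv₀ hτ).mpr hτ1
  have hmem : MemDTwoInfty μ (mehler μ τ G) := fun r => by
    obtain ⟨C, _, hC⟩ := sobolevNorm_mehler h H r
    exact (hC τ hτ hτ1 G hG).1
  have h1 : sobolevNorm μ 2 (2 * N) (fun ω => A ω (mehler μ τ G ω))
      < ENNReal.ofReal (C₁ * (C₂ * (τ⁻¹) ^ s) + 1) := by
    calc sobolevNorm μ 2 (2 * N) (fun ω => A ω (mehler μ τ G ω))
        ≤ C₁ * sobolevNorm μ 2 s (mehler μ τ G) := hC₁ _ hmem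
      _ ≤ C₁ * (ENNReal.ofReal (C₂ * (τ⁻¹) ^ s) * eLpNorm G 2 μ) := by
          gcongr
          exact (hC₂ τ hτ hτ1 G hG).2
      _ ≤ C₁ * (ENNReal.ofReal (C₂ * (τ⁻¹) ^ s) * 1) := by gcongr
      _ = ENNReal.ofReal (C₁ * (C₂ * (τ⁻¹) ^ s)) := by rw [mul_one, ofReal_coe_mul]
      _ < _ := by
          rw [ENNReal.ofReal_lt_ofReal_iff (by positivity)]
          linarith
  unfold sobolevNorm at h1
  simp only [iInf_lt_iff] at h1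
  obtain ⟨U, hU, hV, hlt⟩ := h1
  refine ⟨hU.toLp U, ?_, ?_⟩
  · refine hV.trans ((bessel_ae_eq h _ (hU.integrable (by norm_num))).trans ?_)
    refine Filter.EventuallyEq.trans ?_ (PL_coe h _ _).symm
    exact Pm_congr h hU.coeFn_toLp.symm
  · rw [Lp.norm_toLp]
    refine ENNReal.toReal_le_of_le_ofReal (by positivity) (hlt.le.trans ?_)
    refine ENNReal.ofReal_le_ofReal ?_
    have : 1 ≤ (τ⁻¹) ^ s := one_le_pow₀ hτi
    nlinarith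

/-- trace inequality -/
lemma trace_ineq (h : RotInv μ) {A : E → H →L[ℝ] H} (hA : Hyp μ A) :
    ∃ (C : ℝ) (κ : ℕ), 0 ≤ C ∧ ∀ τ t : ℝ, 0 < τ → τ ≤ t → t ≤ 1 → ∀ U : E → H,
      AEStronglyMeasurable U μ → (∀ x, ‖U x‖ ≤ 1) → ∀ φ : E → ℝ, MemLp φ 2 μ →
      ∫⁻ ω, ‖A ω (mehler μ t U ω)‖ₑ ^ 2 * ‖mehler μ τ φ ω‖ₑ ^ 2 ∂μ
        ≤ ENNReal.ofReal (C * (τ⁻¹) ^ κ) * ∫⁻ ω, ‖φ ω‖ₑ ^ 2 ∂μ := by
  obtain ⟨C, κ, hC0, hC⟩ := D1 h hA
  refine ⟨(C * 2 ^ κ) ^ 2, 2 * κ, by positivity, fun τ t hτ hτt ht1 U hU hU1 φ hφ => ?_⟩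
  have ht : 0 ≤ t - τ := by linarith
  obtain ⟨G, τ', hτ'1, hτ'2, hG, hGn, hprod⟩ := product_formula h hτ hφ
    (aesm_mehler h ht hU) (norm_mehler_le (μ := μ) hU1 (t - τ))
  have hτ'0 : 0 < τ' := by linarith
  have hτ'le : τ' ≤ 1 := by linarith
  have hUi : Integrable U μ := Integrable.of_bound hU 1 (Filter.Eventually.of_forall hU1)
  have h1 : mehler μ τ (mehler μ (t - τ) U) =ᵐ[μ] mehler μ t U := by
    have := mehler_mehler h hτ.le ht hUi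
    simpa using this
  have h2 := hC τ' hτ'0 hτ'le G hG
  have h3 : (fun ω => mehler μ τ φ ω • A ω (mehler μ t U ω))
      =ᵐ[μ] fun ω => A ω (mehler μ τ' G ω) := by
    filter_upwards [h1, hprod] with ω hω1 hω2
    rw [← hω2, map_smul, hω1]
  have h4 : ∫⁻ ω, ‖A ω (mehler μ t U ω)‖ₑ ^ 2 * ‖mehler μ τ φ ω‖ₑ ^ 2 ∂μ
      = (eLpNorm (fun ω => A ω (mehler μ τ' G ω)) 2 μ) ^ 2 := by
    rw [← eLpNorm_congr_ae h3, eLpNorm_eq_lintegral_rpow_enorm_toReal (by norm_num) (by norm_num)]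
    simp only [ENNReal.toReal_ofNat]
    rw [← ENNReal.rpow_natCast, ← ENNReal.rpow_mul]
    norm_num
    refine lintegral_congr fun ω => ?_
    rw [enorm_smul, mul_pow, mul_comm]
  have h5 : ∫⁻ ω, ‖φ ω‖ₑ ^ 2 ∂μ = (eLpNorm φ 2 μ) ^ 2 := by
    rw [eLpNorm_eq_lintegral_rpow_enorm_toReal (by norm_num) (by norm_num)]
    simp only [ENNReal.toReal_ofNat]
    rw [← ENNReal.rpow_natCast, ← ENNReal.rpow_mul]
    norm_num
  rw [h4, h5]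
  calc (eLpNorm (fun ω => A ω (mehler μ τ' G ω)) 2 μ) ^ 2
      ≤ (ENNReal.ofReal (C * (τ'⁻¹) ^ κ) * eLpNorm G 2 μ) ^ 2 := by gcongr
    _ ≤ (ENNReal.ofReal (C * 2 ^ κ * (τ⁻¹) ^ κ) * (ENNReal.ofReal 1 * eLpNorm φ 2 μ)) ^ 2 := by
        have h6 : τ'⁻¹ ≤ 2 * τ⁻¹ := by
          rw [inv_le_comm₀ hτ'0 (by positivity)]
          rw [mul_inv, inv_inv]
          linarith
        have h7 : C * (τ'⁻¹) ^ κ ≤ C * 2 ^ κ * (τ⁻¹) ^ κ := by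
          rw [mul_assoc, ← mul_pow]
          gcongr
        gcongr
    _ = ENNReal.ofReal ((C * 2 ^ κ) ^ 2 * (τ⁻¹) ^ (2 * κ)) * (eLpNorm φ 2 μ) ^ 2 := by
        rw [ENNReal.ofReal_one, one_mul, mul_pow, ← ENNReal.ofReal_pow (by positivity)]
        congr 2
        rw [mul_pow, ← pow_mul, mul_comm κ 2]

end Pool.Agent.H96.OU
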