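import Mathlib
import Pool.Agent.H96.OU.Trace

open MeasureTheory ProbabilityTheory
open scoped ENNReal NNReal Real Topology RealInnerProductSpace

set_option linter.unusedSectionVars false

namespace Pool.Agent.H96.OU

/-! ### Elementary inequalities -/

lemma exists_dyadic (M : ℕ) (hM : 1 ≤ M) {w : ℝ≥0} (hw : 1 < w) :
    ∃ k : ℕ, ((2 : ℝ≥0) ^ M) ^ k < w ∧ w ≤ ((2 : ℝ≥0) ^ M) ^ (k + 1) := by
  have hD : 1 < (2 : ℝ≥0) ^ M := one_lt_pow₀ (by norm_num) (by omega)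
  obtain ⟨m, hm⟩ := pow_unbounded_of_one_lt w hD
  have hex : ∃ k : ℕ, w ≤ ((2 : ℝ≥0) ^ M) ^ k := ⟨m, hm.le⟩
  classical
  have h1 := Nat.find_spec hex
  have h0 : Nat.find hex ≠ 0 := by
    intro h0
    rw [h0, pow_zero] at h1
    exact absurd hw (not_lt.mpr h1)
  obtain ⟨k, hk⟩ := Nat.exists_eq_succ_of_ne_zero h0
  refine ⟨k, ?_, ?_⟩
  · have := Nat.find_min hex (m := k) (by omega)
    exact not_le.mp this
  · rw [hk] at h1
    exact h1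

/-- first dyadic inequality -/
lemma dyadic1 (n M : ℕ) (hn : 1 ≤ n) (hM : 1 ≤ M) (w : ℝ≥0) (a b : ℕ → ℝ≥0)
    (hab : ∀ k, w ≤ a k + b k) :
    (w : ℝ≥0∞) ^ (n + 1) ≤ 1 + ∑' k, (4 * ((2 ^ M) ^ (k + 1)) ^ (n - 1) * (b k : ℝ≥0∞) ^ 2
      + 2 ^ n * (((2 : ℝ≥0∞) ^ M) ^ k)⁻¹ * ((w : ℝ≥0∞) ^ 2 * (a k : ℝ≥0∞) ^ n)) := by
  rcases le_or_gt w 1 with hw | hw
  · refine le_trans ?_ (le_add_of_nonneg_right zero_le)
    exact_mod_cast pow_le_one₀ zero_le hw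
  obtain ⟨k, hk1, hk2⟩ := exists_dyadic M hM hw
  set D : ℝ≥0 := (2 : ℝ≥0) ^ M with hD
  have hDpos : 0 < D := by positivity
  have key : w ^ (n + 1) ≤ 4 * (D ^ (k + 1)) ^ (n - 1) * (b k) ^ 2
      + 2 ^ n * (D ^ k)⁻¹ * (w ^ 2 * (a k) ^ n) := by
    rcases le_or_gt w (2 * b k) with hb | hb
    · refine le_trans ?_ (le_add_of_nonneg_right zero_le)
      calc w ^ (n + 1) = w ^ (n - 1) * w ^ 2 := by rw [← pow_add]; congr 1; omega
        _ ≤ (D ^ (k + 1)) ^ (n - 1) * (2 * b k) ^ 2 := by gcongr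
        _ = 4 * (D ^ (k + 1)) ^ (n - 1) * (b k) ^ 2 := by ring
    · refine le_trans ?_ (le_add_of_nonneg_left zero_le)
      have ha : w ≤ 2 * a k := by
        have h1 := hab k
        have h2 : (2 : ℝ) * (b k : ℝ) < w := by exact_mod_cast hb
        have h3 : (w : ℝ) ≤ a k + b k := by exact_mod_cast h1
        have h4 : (w : ℝ) ≤ 2 * a k := by linarith
        exact_mod_cast h4
      have h5 : w ^ (n + 1) * D ^ k ≤ 2 ^ n * (w ^ 2 * (a k) ^ n) := by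
        calc w ^ (n + 1) * D ^ k ≤ w ^ (n + 1) * w := by gcongr
          _ = w ^ 2 * w ^ n := by ring
          _ ≤ w ^ 2 * (2 * a k) ^ n := by gcongr
          _ = 2 ^ n * (w ^ 2 * (a k) ^ n) := by rw [mul_pow]; ring
      calc w ^ (n + 1) = (w ^ (n + 1) * D ^ k) * (D ^ k)⁻¹ := by
            rw [mul_assoc, mul_inv_cancel₀ (by positivity), mul_one]
        _ ≤ (2 ^ n * (w ^ 2 * (a k) ^ n)) * (D ^ k)⁻¹ := by gcongr
        _ = 2 ^ n * (D ^ k)⁻¹ * (w ^ 2 * (a k) ^ n) := by ring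
  refine le_trans ?_ (le_add_of_nonneg_left zero_le)
  refine le_trans ?_ (ENNReal.le_tsum k)
  have h6 : (((D ^ k)⁻¹ : ℝ≥0) : ℝ≥0∞) = (((2 : ℝ≥0∞) ^ M) ^ k)⁻¹ := by
    rw [ENNReal.coe_inv (by positivity), hD]
    push_cast
    rfl
  rw [← h6]
  have h7 : ((2 : ℝ≥0∞) ^ M) = ((D : ℝ≥0) : ℝ≥0∞) := by rw [hD]; push_cast; rfl
  rw [h7]
  exact_mod_cast key

/-- second dyadic inequality -/
lemma dyadic2 (n q M : ℕ) (hn : 2 ≤ n) (hq : n ≤ q) (hM : 1 ≤ M) (w : ℝ≥0) (a b : ℕ → ℝ≥0)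
    (hab : ∀ k, w ≤ a k + b k) :
    (w : ℝ≥0∞) ^ n ≤ 1 + ∑' k, (4 * ((2 ^ M) ^ (k + 1)) ^ (n - 2) * (b k : ℝ≥0∞) ^ 2
      + 2 ^ q * ((((2 : ℝ≥0∞) ^ M) ^ k) ^ (q - n))⁻¹ * (a k : ℝ≥0∞) ^ q) := by
  rcases le_or_gt w 1 with hw | hw
  · refine le_trans ?_ (le_add_of_nonneg_right zero_le)
    exact_mod_cast pow_le_one₀ zero_le hw
  obtain ⟨k, hk1, hk2⟩ := exists_dyadic M hM hw
  set D : ℝ≥0 := (2 : ℝ≥0) ^ M with hD
  have hDpos : 0 < D := by positivity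
  have key : w ^ n ≤ 4 * (D ^ (k + 1)) ^ (n - 2) * (b k) ^ 2
      + 2 ^ q * ((D ^ k) ^ (q - n))⁻¹ * (a k) ^ q := by
    rcases le_or_gt w (2 * b k) with hb | hb
    · refine le_trans ?_ (le_add_of_nonneg_right zero_le)
      calc w ^ n = w ^ (n - 2) * w ^ 2 := by rw [← pow_add]; congr 1; omega
        _ ≤ (D ^ (k + 1)) ^ (n - 2) * (2 * b k) ^ 2 := by gcongr
        _ = 4 * (D ^ (k + 1)) ^ (n - 2) * (b k) ^ 2 := by ring
    · refine le_trans ?_ (le_add_of_nonneg_left zero_le)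
      have ha : w ≤ 2 * a k := by
        have h1 := hab k
        have h2 : (2 : ℝ) * (b k : ℝ) < w := by exact_mod_cast hb
        have h3 : (w : ℝ) ≤ a k + b k := by exact_mod_cast h1
        have h4 : (w : ℝ) ≤ 2 * a k := by linarith
        exact_mod_cast h4
      have h5 : w ^ n * (D ^ k) ^ (q - n) ≤ 2 ^ q * (a k) ^ q := by
        calc w ^ n * (D ^ k) ^ (q - n) ≤ w ^ n * w ^ (q - n) := by gcongr
          _ = w ^ q := by rw [← pow_add]; congr 1; omega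
          _ ≤ (2 * a k) ^ q := by gcongr
          _ = 2 ^ q * (a k) ^ q := by rw [mul_pow]
      calc w ^ n = (w ^ n * (D ^ k) ^ (q - n)) * ((D ^ k) ^ (q - n))⁻¹ := by
            rw [mul_assoc, mul_inv_cancel₀ (by positivity), mul_one]
        _ ≤ (2 ^ q * (a k) ^ q) * ((D ^ k) ^ (q - n))⁻¹ := by gcongr
        _ = 2 ^ q * ((D ^ k) ^ (q - n))⁻¹ * (a k) ^ q := by ring
  refine le_trans ?_ (le_add_of_nonneg_left zero_le)
  refine le_trans ?_ (ENNReal.le_tsum k)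
  have h6 : ((((D ^ k) ^ (q - n))⁻¹ : ℝ≥0) : ℝ≥0∞) = ((((2 : ℝ≥0∞) ^ M) ^ k) ^ (q - n))⁻¹ := by
    rw [ENNReal.coe_inv (by positivity), hD]
    push_cast
    rfl
  rw [← h6]
  have h7 : ((2 : ℝ≥0∞) ^ M) = ((D : ℝ≥0) : ℝ≥0∞) := by rw [hD]; push_cast; rfl
  rw [h7]
  exact_mod_cast key

end Pool.Agent.H96.OU
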