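import Mathlib
import Pool.Agent.H96.OU.Boot

open MeasureTheory ProbabilityTheory
open scoped ENNReal NNReal Real Topology RealInnerProductSpace

set_option linter.unusedSectionVars false

namespace Pool.Agent.H96.OU

lemma tsum_half : ∑' k : ℕ, ((2 : ℝ≥0∞)⁻¹) ^ k = 2 := by
  rw [ENNReal.tsum_geometric, ENNReal.one_sub_inv_two, inv_inv]

lemma ofReal_half_pow (k : ℕ) : ENNReal.ofReal ((1 / 2 : ℝ) ^ k) = ((2 : ℝ≥0∞)⁻¹) ^ k := by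
  rw [ENNReal.ofReal_pow (by norm_num)]
  congr 1
  rw [one_div, ENNReal.ofReal_inv_of_pos (by norm_num)]
  norm_num

lemma real_term1 (M n k : ℕ) (hM : 1 ≤ M) (hn : 1 ≤ n) {t z : ℝ} (ht0 : 0 ≤ t) (ht : t ≤ 1) :
    4 * (((2 : ℝ) ^ M) ^ (k + 1)) ^ (n - 1) * ((2 * (t * (1 / 2) ^ k)) ^ (M * n) * z) ^ 2
      ≤ (4 * (2 ^ M) ^ (n - 1) * 4 ^ (M * n) * z ^ 2) * (1 / 2) ^ k := by
  have e1 : (((2 : ℝ) ^ M) ^ (k + 1)) ^ (n - 1)
      = ((2 : ℝ) ^ M) ^ (n - 1) * (2 : ℝ) ^ (k * M * (n - 1)) := by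
    rw [← pow_mul, ← pow_mul, ← pow_mul, ← pow_add]
    congr 1
    ring
  have e2 : ((2 * (t * (1 / 2) ^ k)) ^ (M * n) * z) ^ 2
      = 4 ^ (M * n) * (t ^ (2 * (M * n))) * ((1 / 2 : ℝ) ^ (2 * k * M * n)) * z ^ 2 := by
    have h4 : (4 : ℝ) ^ (M * n) = (2 ^ (M * n)) ^ 2 := by
      rw [show (4 : ℝ) = 2 ^ 2 by norm_num, ← pow_mul, ← pow_mul]; congr 1; ring
    have h5 : t ^ (2 * (M * n)) = (t ^ (M * n)) ^ 2 := by rw [← pow_mul, mul_comm]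
    have h6 : (1 / 2 : ℝ) ^ (2 * k * M * n) = (((1 / 2 : ℝ) ^ k) ^ (M * n)) ^ 2 := by
      rw [← pow_mul, ← pow_mul]; congr 1; ring
    rw [h4, h5, h6, mul_pow, mul_pow, mul_pow]
    ring
  have e5 : (2 : ℝ) ^ (k * M * (n - 1)) * (1 / 2 : ℝ) ^ (2 * k * M * n) ≤ (1 / 2) ^ k := by
    have h1 : 2 * k * M * n = k * M * (n - 1) + k * M * (n + 1) := by
      obtain ⟨n', rfl⟩ : ∃ n', n = n' + 1 := ⟨n - 1, by omega⟩
      simp only [Nat.add_sub_cancel]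
      ring
    rw [h1, pow_add, ← mul_assoc, ← mul_pow]
    rw [show (2 : ℝ) * (1 / 2) = 1 by norm_num, one_pow, one_mul]
    apply pow_le_pow_of_le_one (by norm_num) (by norm_num)
    calc k = k * 1 * 1 := by ring
      _ ≤ k * M * (n + 1) := by gcongr; omega
  have ht' : t ^ (2 * (M * n)) ≤ 1 := pow_le_one₀ ht0 ht
  rw [e1, e2]
  calc 4 * ((2 ^ M) ^ (n - 1) * 2 ^ (k * M * (n - 1))) *
        (4 ^ (M * n) * t ^ (2 * (M * n)) * (1 / 2) ^ (2 * k * M * n) * z ^ 2)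
      = (4 * (2 ^ M) ^ (n - 1) * 4 ^ (M * n) * z ^ 2) *
        (t ^ (2 * (M * n)) * (2 ^ (k * M * (n - 1)) * (1 / 2) ^ (2 * k * M * n))) := by ring
    _ ≤ (4 * (2 ^ M) ^ (n - 1) * 4 ^ (M * n) * z ^ 2) * (1 * (1 / 2) ^ k) := by
        gcongr
    _ = _ := by ring

lemma real_term2 (κ k : ℕ) {t : ℝ} (ht0 : 0 < t) :
    (((2 : ℝ) ^ (κ + 1)) ^ k)⁻¹ * ((t * (1 / 2) ^ k)⁻¹) ^ κ = (t⁻¹) ^ κ * (1 / 2) ^ k := by
  have e1 : (t * (1 / 2 : ℝ) ^ k)⁻¹ = t⁻¹ * 2 ^ k := by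
    rw [mul_inv, one_div, inv_pow, inv_inv]
  rw [e1, mul_pow, ← pow_mul, ← pow_mul, one_div, inv_pow]
  rw [show (κ + 1) * k = k * κ + k by ring, pow_add]
  have h2 : (2 : ℝ) ^ (k * κ) ≠ 0 := by positivity
  have h3 : (2 : ℝ) ^ k ≠ 0 := by positivity
  rw [inv_pow (2 : ℝ) k]
  field_simp

variable {E : Type*} [NormedAddCommGroup E] [NormedSpace ℝ E] [MeasurableSpace E]
variable {H : Type*} [NormedAddCommGroup H] [InnerProductSpace ℝ H] [CompleteSpace H]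
variable [BorelSpace E] [SecondCountableTopology E] {μ : Measure E} [IsProbabilityMeasure μ]

/-- Jensen for the Mehler semigroup, in the form used in the trace inequality. -/
lemma jensen_mehler (h : RotInv μ) {τ : ℝ} (hτ : 0 ≤ τ) {n : ℕ} (hn : 2 ≤ n) {f : E → H}
    (hf : AEStronglyMeasurable f μ) (hφ : Integrable (fun x => ‖f x‖ ^ ((n : ℝ) / 2)) μ) :
    ∀ᵐ x ∂μ, ‖mehler μ τ f x‖ₑ ^ n ≤ ‖mehler μ τ (fun x => ‖f x‖ ^ ((n : ℝ) / 2)) x‖ₑ ^ 2 := by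
  have hmp := mp_pt (μ := μ) h hτ
  have h1 : ∀ᵐ x ∂μ, AEStronglyMeasurable (fun y => f (pt τ x y)) μ :=
    (hf.comp_measurePreserving hmp).prodMk_left
  have h2 : ∀ᵐ x ∂μ, Integrable (fun y => ‖f (pt τ x y)‖ ^ ((n : ℝ) / 2)) μ := by
    have : Integrable (fun p : E × E => ‖f (pt τ p.1 p.2)‖ ^ ((n : ℝ) / 2)) (μ.prod μ) :=
      hmp.integrable_comp_of_integrable hφ
    exact this.prod_right_ae
  have hn2 : 1 ≤ (n : ℝ) / 2 := by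
    have : (2 : ℝ) ≤ n := by exact_mod_cast hn
    linarith
  filter_upwards [h1, h2] with x hx1 hx2
  have e1 : ‖mehler μ τ f x‖ₑ ≤ ∫⁻ y, ‖f (pt τ x y)‖ₑ ∂μ := enorm_integral_le_lintegral_enorm _
  have e2 : (∫⁻ y, ‖f (pt τ x y)‖ₑ ∂μ) ^ ((n : ℝ) / 2) ≤ ∫⁻ y, ‖f (pt τ x y)‖ₑ ^ ((n : ℝ) / 2) ∂μ :=
    lintegral_rpow_jensen hx1.enorm hn2
  have e3 : ‖mehler μ τ (fun x => ‖f x‖ ^ ((n : ℝ) / 2)) x‖ₑ
      = ∫⁻ y, ‖f (pt τ x y)‖ₑ ^ ((n : ℝ) / 2) ∂μ := by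
    rw [mehler_eq_pt, ← ofReal_norm, Real.norm_of_nonneg (integral_nonneg fun y => by positivity),
      ofReal_integral_eq_lintegral_ofReal hx2 (Filter.Eventually.of_forall fun y => by positivity)]
    refine lintegral_congr fun y => ?_
    rw [← ofReal_norm, ENNReal.ofReal_rpow_of_nonneg (norm_nonneg _) (by positivity)]
  rw [e3]
  calc ‖mehler μ τ f x‖ₑ ^ n ≤ (∫⁻ y, ‖f (pt τ x y)‖ₑ ∂μ) ^ n := by gcongr
    _ = ((∫⁻ y, ‖f (pt τ x y)‖ₑ ∂μ) ^ ((n : ℝ) / 2)) ^ 2 := by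
        rw [← ENNReal.rpow_natCast, ← ENNReal.rpow_natCast _ 2, ← ENNReal.rpow_mul]
        congr 1
        push_cast; ring
    _ ≤ _ := by gcongr

/-- The bound to be bootstrapped. -/
def Bd (μ : Measure E) (A : E → H →L[ℝ] H) (n : ℕ) : Prop :=
  ∃ (C : ℝ) (κ : ℕ), 0 ≤ C ∧ ∀ t : ℝ, 0 < t → t ≤ 1 → ∀ U : E → H,
    AEStronglyMeasurable U μ → (∀ x, ‖U x‖ ≤ 1) →
    ∫⁻ ω, ‖A ω (mehler μ t U ω)‖ₑ ^ n ∂μ ≤ ENNReal.ofReal (C * (t⁻¹) ^ κ)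

lemma eLpNorm_pow_eq {α F : Type*} [MeasurableSpace α] [NormedAddCommGroup F] {m : Measure α}
    (f : α → F) (n : ℕ) (hn : n ≠ 0) :
    (eLpNorm f n m) ^ n = ∫⁻ x, ‖f x‖ₑ ^ n ∂m := by
  rw [eLpNorm_eq_lintegral_rpow_enorm_toReal (by exact_mod_cast hn) (ENNReal.natCast_ne_top n)]
  simp only [ENNReal.toReal_natCast, ENNReal.rpow_natCast]
  rw [← ENNReal.rpow_natCast, ← ENNReal.rpow_mul, one_div, inv_mul_cancel₀ (by exact_mod_cast hn),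
    ENNReal.rpow_one]

lemma memLp_of_lintegral_pow {α F : Type*} [MeasurableSpace α] [NormedAddCommGroup F]
    {m : Measure α} {f : α → F} (n : ℕ) (hn : n ≠ 0) (hf : AEStronglyMeasurable f m)
    (hfi : ∫⁻ x, ‖f x‖ₑ ^ n ∂m < ∞) : MemLp f n m := by
  refine ⟨hf, ?_⟩
  rw [← eLpNorm_pow_eq f n hn] at hfi
  by_contra hcon
  rw [not_lt, top_le_iff] at hcon
  rw [hcon, ENNReal.top_pow hn] at hfi
  exact lt_irrefl _ hfi

lemma Bd_two (h : RotInv μ) {A : E → H →L[ℝ] H} (hA : Hyp μ A) : Bd μ A 2 := by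
  obtain ⟨C, κ, hC0, hC⟩ := D1 h hA
  refine ⟨C ^ 2, 2 * κ, by positivity, fun t ht ht1 U hU hU1 => ?_⟩
  have hUm : MemLp U 2 μ := MemLp.of_bound hU 1 (Filter.Eventually.of_forall hU1)
  have hU2 : eLpNorm U 2 μ ≤ 1 := by
    have := eLpNorm_le_of_ae_bound (p := 2) (μ := μ) (Filter.Eventually.of_forall hU1)
    simpa using this
  have h1 := hC t ht ht1 U hUm
  have h2 := eLpNorm_pow_eq (m := μ) (fun ω => A ω (mehler μ t U ω)) 2 (by norm_num)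
  rw [← h2]
  push_cast
  calc (eLpNorm (fun ω => A ω (mehler μ t U ω)) 2 μ) ^ 2
      ≤ (ENNReal.ofReal (C * (t⁻¹) ^ κ) * 1) ^ 2 := by gcongr; exact h1.trans (by gcongr)
    _ = _ := by
        rw [mul_one, ← ENNReal.ofReal_pow (by positivity)]
        congr 1
        rw [mul_pow, ← pow_mul, mul_comm κ 2]

end Pool.Agent.H96.OU
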