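import Mathlib
import Pool.Agent.H96.OU.Boot2

open MeasureTheory ProbabilityTheory
open scoped ENNReal NNReal Real Topology RealInnerProductSpace

set_option linter.unusedSectionVars false

namespace Pool.Agent.H96.OU

variable {E : Type*} [NormedAddCommGroup E] [NormedSpace ℝ E] [MeasurableSpace E]
variable {H : Type*} [NormedAddCommGroup H] [InnerProductSpace ℝ H] [CompleteSpace H]
variable [BorelSpace E] [SecondCountableTopology E] {μ : Measure E} [IsProbabilityMeasure μ]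

/-- weighted bound for one scale -/
lemma one_scale (h : RotInv μ) {A : E → H →L[ℝ] H} {C : ℝ} {κ : ℕ} (hC0 : 0 ≤ C)
    (htr : ∀ τ t : ℝ, 0 < τ → τ ≤ t → t ≤ 1 → ∀ U : E → H,
      AEStronglyMeasurable U μ → (∀ x, ‖U x‖ ≤ 1) → ∀ φ : E → ℝ, MemLp φ 2 μ →
      ∫⁻ ω, ‖A ω (mehler μ t U ω)‖ₑ ^ 2 * ‖mehler μ τ φ ω‖ₑ ^ 2 ∂μ
        ≤ ENNReal.ofReal (C * (τ⁻¹) ^ κ) * ∫⁻ ω, ‖φ ω‖ₑ ^ 2 ∂μ)
    {n N : ℕ} (hn : 2 ≤ n) {τ t : ℝ} (hτ : 0 < τ) (hτt : τ ≤ t) (ht1 : t ≤ 1) {U : E → H}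
    (hU : AEStronglyMeasurable U μ) (hU1 : ∀ x, ‖U x‖ ≤ 1) (WL : Lp H 2 μ)
    (hW : (fun ω => A ω (mehler μ t U ω)) =ᵐ[μ] WL) (hWn : ∫⁻ ω, ‖WL ω‖ₑ ^ n ∂μ < ∞) :
    ∫⁻ ω, ‖WL ω‖ₑ ^ 2 *
      ‖(PL h (dl τ) ((∑ i ∈ Finset.range N, (1 - PL h (dl τ)) ^ i) WL)) ω‖ₑ ^ n ∂μ
      ≤ ENNReal.ofReal (C * (τ⁻¹) ^ κ * (2 ^ N) ^ n) * ∫⁻ ω, ‖WL ω‖ₑ ^ n ∂μ := by
  set W' : Lp H 2 μ := (∑ i ∈ Finset.range N, (1 - PL h (dl τ)) ^ i) WL with hW'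
  have hn0 : n ≠ 0 := by omega
  have hn1 : (1 : ℝ≥0∞) ≤ n := by exact_mod_cast (by omega : 1 ≤ n)
  -- the `L^n` bound for `W'`
  have hW'n : eLpNorm W' n μ ≤ 2 ^ N * eLpNorm WL n μ :=
    (contr_PL h (dl τ) hn1 (ENNReal.natCast_ne_top n)).geom hn1 N WL
  have hW'n2 : ∫⁻ ω, ‖W' ω‖ₑ ^ n ∂μ ≤ (2 ^ N) ^ n * ∫⁻ ω, ‖WL ω‖ₑ ^ n ∂μ := by
    rw [← eLpNorm_pow_eq _ n hn0, ← eLpNorm_pow_eq _ n hn0, ← mul_pow]
    gcongr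
  have hW'fin : ∫⁻ ω, ‖W' ω‖ₑ ^ n ∂μ < ∞ := by
    refine hW'n2.trans_lt (ENNReal.mul_lt_top ?_ hWn)
    exact ENNReal.pow_lt_top (ENNReal.pow_lt_top (by norm_num))
  -- the scalar function `φ = ‖W'‖^{n/2}`
  let φ : E → ℝ := fun x => ‖W' x‖ ^ ((n : ℝ) / 2)
  have hφe : ∀ x, ‖φ x‖ₑ ^ 2 = ‖W' x‖ₑ ^ n := fun x => by
    have h1 : ‖φ x‖ₑ = ‖W' x‖ₑ ^ ((n : ℝ) / 2) := by
      rw [← ofReal_norm, ← ofReal_norm, Real.norm_of_nonneg (by positivity),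
        ENNReal.ofReal_rpow_of_nonneg (norm_nonneg _) (by positivity)]
    rw [h1, ← ENNReal.rpow_natCast _ 2, ← ENNReal.rpow_mul, ← ENNReal.rpow_natCast _ n]
    congr 1
    push_cast; ring
  have hφm : AEStronglyMeasurable φ μ :=
    ((Lp.aestronglyMeasurable W').norm.aemeasurable.pow_const _).aestronglyMeasurable
  have hφ : MemLp φ 2 μ := by
    have := memLp_of_lintegral_pow (m := μ) (f := φ) 2 (by norm_num) hφm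
      (by simp_rw [hφe]; exact hW'fin)
    exact_mod_cast this
  have hφi : Integrable φ μ := hφ.integrable (by norm_num)
  have hj := jensen_mehler h hτ.le hn (Lp.aestronglyMeasurable W') hφi
  have hPL : (PL h (dl τ) W' : E → H) =ᵐ[μ] mehler μ τ W' := by
    refine (PL_coe h (dl τ) W').trans ?_
    rw [dl_eq hτ.le, mehler_eq_Pm_fun]
  calc ∫⁻ ω, ‖WL ω‖ₑ ^ 2 * ‖(PL h (dl τ) W') ω‖ₑ ^ n ∂μ
      ≤ ∫⁻ ω, ‖A ω (mehler μ t U ω)‖ₑ ^ 2 * ‖mehler μ τ φ ω‖ₑ ^ 2 ∂μ := by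
        refine lintegral_mono_ae ?_
        filter_upwards [hW, hj, hPL] with ω h1 h2 h3
        rw [h3, ← h1]
        gcongr
    _ ≤ ENNReal.ofReal (C * (τ⁻¹) ^ κ) * ∫⁻ ω, ‖φ ω‖ₑ ^ 2 ∂μ :=
        htr τ t hτ hτt ht1 U hU hU1 φ hφ
    _ ≤ ENNReal.ofReal (C * (τ⁻¹) ^ κ) * ((2 ^ N) ^ n * ∫⁻ ω, ‖WL ω‖ₑ ^ n ∂μ) := by
        gcongr
        simp_rw [hφe]
        exact hW'n2
    _ = _ := by
        rw [← mul_assoc]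
        congr 1
        rw [ENNReal.ofReal_mul (by positivity : 0 ≤ C * (τ⁻¹) ^ κ)]
        congr 1
        rw [ENNReal.ofReal_pow (by positivity), ENNReal.ofReal_pow (by positivity)]
        norm_num

lemma Bd_succ (h : RotInv μ) {A : E → H →L[ℝ] H} (hA : Hyp μ A) {n : ℕ} (hn : 2 ≤ n)
    (hB : Bd μ A n) : Bd μ A (n + 1) := by
  obtain ⟨C₁, κ₁, hC₁0, htr⟩ := trace_ineq h hA
  obtain ⟨C₂, κ₂, hC₂0, hC₂⟩ := hB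
  set M := κ₁ + 1 with hM
  set N := M * n with hN
  obtain ⟨C₃, κ₃, hC₃0, hC₃⟩ := D2 h hA N
  set c₁ : ℝ := 4 * (2 ^ M) ^ (n - 1) * 4 ^ N * C₃ ^ 2 with hc₁
  set c₂ : ℝ := 2 ^ n * (C₁ * (2 ^ N) ^ n) * C₂ with hc₂
  refine ⟨1 + 2 * (c₁ + c₂), 2 * κ₃ + (κ₁ + κ₂), by positivity, fun t ht ht1 U hU hU1 => ?_⟩
  have hUm : MemLp U 2 μ := MemLp.of_bound hU 1 (Filter.Eventually.of_forall hU1)
  have hU2 : eLpNorm U 2 μ ≤ 1 := by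
    have := eLpNorm_le_of_ae_bound (p := 2) (μ := μ) (Filter.Eventually.of_forall hU1)
    simpa using this
  obtain ⟨Z, hZ1, hZ2⟩ := hC₃ t ht ht1 U hUm hU2
  set WL : Lp H 2 μ := PL h (gam (2 * N)) Z with hWL
  have hti : 1 ≤ t⁻¹ := (one_le_inv₀ ht).mpr ht1
  have hWn : ∫⁻ ω, ‖WL ω‖ₑ ^ n ∂μ ≤ ENNReal.ofReal (C₂ * (t⁻¹) ^ κ₂) := by
    have h1 := hC₂ t ht ht1 U hU hU1
    have h2 : ∫⁻ ω, ‖WL ω‖ₑ ^ n ∂μ = ∫⁻ ω, ‖A ω (mehler μ t U ω)‖ₑ ^ n ∂μ := by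
      refine lintegral_congr_ae ?_
      filter_upwards [hZ1] with ω hω
      rw [← hω]
    rw [h2]
    exact h1
  have hWn' : ∫⁻ ω, ‖WL ω‖ₑ ^ n ∂μ < ∞ := hWn.trans_lt ENNReal.ofReal_lt_top
  -- scales
  let τ : ℕ → ℝ := fun k => t * (1 / 2) ^ k
  have hτ : ∀ k, 0 < τ k := fun k => by positivity
  have hτt : ∀ k, τ k ≤ t := fun k => by
    have : (1 / 2 : ℝ) ^ k ≤ 1 := pow_le_one₀ (by norm_num) (by norm_num)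
    calc τ k = t * (1 / 2) ^ k := rfl
      _ ≤ t * 1 := by gcongr
      _ = t := mul_one t
  let a : ℕ → Lp H 2 μ := fun k =>
    PL h (dl (τ k)) ((∑ i ∈ Finset.range N, (1 - PL h (dl (τ k))) ^ i) WL)
  let b : ℕ → Lp H 2 μ := fun k => ((1 - PL h (dl (τ k))) ^ N) WL
  have hab : ∀ k, WL = a k + b k := fun k => geom_decomp' (PL h (dl (τ k))) N WL
  have hbn : ∀ k, ∫⁻ ω, ‖b k ω‖ₑ ^ 2 ∂μ
      ≤ ENNReal.ofReal (((2 * τ k) ^ N * (C₃ * (t⁻¹) ^ κ₃)) ^ 2) := by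
    intro k
    have h1 : ‖b k‖ ≤ (2 * τ k) ^ N * (C₃ * (t⁻¹) ^ κ₃) := by
      calc ‖b k‖ ≤ (2 * τ k) ^ N * ‖Z‖ := key5 h (hτ k).le N Z
        _ ≤ _ := by
          have := hτ k
          gcongr
    have h2 := eLpNorm_pow_eq (m := μ) (b k) 2 (by norm_num)
    push_cast at h2
    rw [← h2, eLpNorm_coe_Lp, ← ENNReal.ofReal_pow (norm_nonneg _)]
    gcongr
  have han : ∀ k, ∫⁻ ω, ‖WL ω‖ₑ ^ 2 * ‖a k ω‖ₑ ^ n ∂μ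
      ≤ ENNReal.ofReal (C₁ * ((τ k)⁻¹) ^ κ₁ * (2 ^ N) ^ n * (C₂ * (t⁻¹) ^ κ₂)) := by
    intro k
    have h1 := one_scale h hC₁0 htr (N := N) hn (hτ k) (hτt k) ht1 hU hU1 WL hZ1 hWn'
    refine h1.trans ?_
    have := hτ k
    rw [ENNReal.ofReal_mul (p := C₁ * ((τ k)⁻¹) ^ κ₁ * (2 ^ N) ^ n) (by positivity)]
    gcongr
  -- pointwise dyadic inequality
  have hpt : ∀ᵐ ω ∂μ, ‖WL ω‖ₑ ^ (n + 1) ≤ 1 + ∑' k, (4 * ((2 ^ M) ^ (k + 1)) ^ (n - 1) *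
      ‖b k ω‖ₑ ^ 2 + 2 ^ n * (((2 : ℝ≥0∞) ^ M) ^ k)⁻¹ * (‖WL ω‖ₑ ^ 2 * ‖a k ω‖ₑ ^ n)) := by
    have h1 : ∀ k, ∀ᵐ ω ∂μ, WL ω = a k ω + b k ω := fun k => by
      have h2 := Lp.coeFn_add (a k) (b k)
      rw [← hab k] at h2
      exact h2
    filter_upwards [ae_all_iff.mpr h1] with ω hω
    refine dyadic1 n M (by omega) (by omega) ‖WL ω‖₊ (fun k => ‖a k ω‖₊) (fun k => ‖b k ω‖₊)
      (fun k => ?_)
    rw [hω k]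
    exact nnnorm_add_le _ _
  have hmeasb : ∀ k, AEMeasurable (fun ω => ‖b k ω‖ₑ ^ 2) μ := fun k =>
    (Lp.aestronglyMeasurable (b k)).enorm.pow_const 2
  have hmeasa : ∀ k, AEMeasurable (fun ω => ‖WL ω‖ₑ ^ 2 * ‖a k ω‖ₑ ^ n) μ := fun k =>
    ((Lp.aestronglyMeasurable WL).enorm.pow_const 2).mul
      ((Lp.aestronglyMeasurable (a k)).enorm.pow_const n)
  have e0 : ∫⁻ ω, ‖A ω (mehler μ t U ω)‖ₑ ^ (n + 1) ∂μ = ∫⁻ ω, ‖WL ω‖ₑ ^ (n + 1) ∂μ := by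
    refine lintegral_congr_ae ?_
    filter_upwards [hZ1] with ω hω
    rw [← hω]
  -- bound of each term
  have hterm1 : ∀ k, 4 * (((2 : ℝ≥0∞) ^ M) ^ (k + 1)) ^ (n - 1) * ∫⁻ ω, ‖b k ω‖ₑ ^ 2 ∂μ
      ≤ ENNReal.ofReal (c₁ * (t⁻¹) ^ (2 * κ₃)) * ((2 : ℝ≥0∞)⁻¹) ^ k := by
    intro k
    have e1 : 4 * (((2 : ℝ≥0∞) ^ M) ^ (k + 1)) ^ (n - 1)
        = ENNReal.ofReal (4 * (((2 : ℝ) ^ M) ^ (k + 1)) ^ (n - 1)) := by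
      rw [ENNReal.ofReal_mul (by norm_num), ENNReal.ofReal_pow (by positivity),
        ENNReal.ofReal_pow (by positivity), ENNReal.ofReal_pow (by positivity)]
      norm_num
    rw [e1]
    refine (mul_le_mul_right (hbn k) _).trans ?_
    rw [← ENNReal.ofReal_mul (by positivity), ← ofReal_half_pow, ← ENNReal.ofReal_mul (by positivity)]
    refine ENNReal.ofReal_le_ofReal ?_
    have h2 := real_term1 M n k (by omega) (by omega) (z := C₃ * (t⁻¹) ^ κ₃) ht.le ht1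
    refine h2.trans (le_of_eq ?_)
    have h3 : (t⁻¹) ^ (2 * κ₃) = ((t⁻¹) ^ κ₃) ^ 2 := by rw [← pow_mul, mul_comm]
    rw [hc₁, h3, hN]
    ring
  have hterm2 : ∀ k, 2 ^ n * (((2 : ℝ≥0∞) ^ M) ^ k)⁻¹ * ∫⁻ ω, ‖WL ω‖ₑ ^ 2 * ‖a k ω‖ₑ ^ n ∂μ
      ≤ ENNReal.ofReal (c₂ * (t⁻¹) ^ (κ₁ + κ₂)) * ((2 : ℝ≥0∞)⁻¹) ^ k := by
    intro k
    have e1 : 2 ^ n * (((2 : ℝ≥0∞) ^ M) ^ k)⁻¹
        = ENNReal.ofReal (2 ^ n * (((2 : ℝ) ^ M) ^ k)⁻¹) := by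
      rw [ENNReal.ofReal_mul (by positivity), ENNReal.ofReal_inv_of_pos (by positivity),
        ENNReal.ofReal_pow (by positivity), ENNReal.ofReal_pow (by positivity),
        ENNReal.ofReal_pow (by positivity)]
      norm_num
    rw [e1]
    refine (mul_le_mul_right (han k) _).trans ?_
    rw [← ENNReal.ofReal_mul (by positivity), ← ofReal_half_pow, ← ENNReal.ofReal_mul (by positivity)]
    refine ENNReal.ofReal_le_ofReal (le_of_eq ?_)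
    have h2 := real_term2 κ₁ k ht
    calc 2 ^ n * (((2 : ℝ) ^ M) ^ k)⁻¹ * (C₁ * ((τ k)⁻¹) ^ κ₁ * (2 ^ N) ^ n * (C₂ * (t⁻¹) ^ κ₂))
        = (2 ^ n * (C₁ * (2 ^ N) ^ n) * C₂) *
          ((((2 : ℝ) ^ (κ₁ + 1)) ^ k)⁻¹ * ((t * (1 / 2) ^ k)⁻¹) ^ κ₁) * (t⁻¹) ^ κ₂ := by
          simp only [τ]
          ring
      _ = _ := by rw [h2, hc₂, pow_add]; ring
  rw [e0]
  calc ∫⁻ ω, ‖WL ω‖ₑ ^ (n + 1) ∂μ
      ≤ ∫⁻ ω, (1 + ∑' k, (4 * ((2 ^ M) ^ (k + 1)) ^ (n - 1) * ‖b k ω‖ₑ ^ 2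
        + 2 ^ n * (((2 : ℝ≥0∞) ^ M) ^ k)⁻¹ * (‖WL ω‖ₑ ^ 2 * ‖a k ω‖ₑ ^ n))) ∂μ :=
        lintegral_mono_ae hpt
    _ = 1 + ∑' k, (4 * ((2 ^ M) ^ (k + 1)) ^ (n - 1) * ∫⁻ ω, ‖b k ω‖ₑ ^ 2 ∂μ
        + 2 ^ n * (((2 : ℝ≥0∞) ^ M) ^ k)⁻¹ * ∫⁻ ω, ‖WL ω‖ₑ ^ 2 * ‖a k ω‖ₑ ^ n ∂μ) := by
        rw [lintegral_add_left measurable_const, lintegral_const, measure_univ, mul_one,
          lintegral_tsum]
        · congr 1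
          refine tsum_congr fun k => ?_
          rw [lintegral_add_left' ((hmeasb k).const_mul _), lintegral_const_mul'' _ (hmeasb k),
            lintegral_const_mul'' _ (hmeasa k)]
        · exact fun k => ((hmeasb k).const_mul _).add ((hmeasa k).const_mul _)
    _ ≤ 1 + ∑' k, (ENNReal.ofReal (c₁ * (t⁻¹) ^ (2 * κ₃)) * ((2 : ℝ≥0∞)⁻¹) ^ k
        + ENNReal.ofReal (c₂ * (t⁻¹) ^ (κ₁ + κ₂)) * ((2 : ℝ≥0∞)⁻¹) ^ k) := by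
        refine add_le_add le_rfl (ENNReal.tsum_le_tsum fun k => add_le_add (hterm1 k) (hterm2 k))
    _ = 1 + (ENNReal.ofReal (c₁ * (t⁻¹) ^ (2 * κ₃)) * 2
        + ENNReal.ofReal (c₂ * (t⁻¹) ^ (κ₁ + κ₂)) * 2) := by
        rw [ENNReal.tsum_add, ENNReal.tsum_mul_left, ENNReal.tsum_mul_left, tsum_half]
    _ ≤ ENNReal.ofReal ((1 + 2 * (c₁ + c₂)) * (t⁻¹) ^ (2 * κ₃ + (κ₁ + κ₂))) := by
        have e2 : (2 : ℝ≥0∞) = ENNReal.ofReal 2 := by norm_num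
        have e3 : (1 : ℝ≥0∞) = ENNReal.ofReal 1 := by norm_num
        rw [e2, e3, ← ENNReal.ofReal_mul (by positivity), ← ENNReal.ofReal_mul (by positivity),
          ← ENNReal.ofReal_add (by positivity) (by positivity),
          ← ENNReal.ofReal_add (by norm_num) (by positivity)]
        refine ENNReal.ofReal_le_ofReal ?_
        have p1 : 1 ≤ (t⁻¹) ^ (2 * κ₃ + (κ₁ + κ₂)) := one_le_pow₀ hti
        have p2 : (t⁻¹) ^ (2 * κ₃) ≤ (t⁻¹) ^ (2 * κ₃ + (κ₁ + κ₂)) :=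
          pow_le_pow_right₀ hti (by omega)
        have p3 : (t⁻¹) ^ (κ₁ + κ₂) ≤ (t⁻¹) ^ (2 * κ₃ + (κ₁ + κ₂)) :=
          pow_le_pow_right₀ hti (by omega)
        have q1 : 0 ≤ c₁ := by positivity
        have q2 : 0 ≤ c₂ := by positivity
        nlinarith [mul_le_mul_of_nonneg_left p2 q1, mul_le_mul_of_nonneg_left p3 q2]

end Pool.Agent.H96.OU
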