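import Mathlib
import Pool.Agent.H96.OU.Boot3

open MeasureTheory ProbabilityTheory
open scoped ENNReal NNReal Real Topology RealInnerProductSpace

set_option linter.unusedSectionVars false

namespace Pool.Agent.H96.OU

lemma tsum_pow_le (a : ℕ → ℝ≥0∞) {n : ℕ} (hn : n ≠ 0) :
    (∑' j, a j) ^ n ≤ ∑' j, (2 ^ (j + 1) * a j) ^ n := by
  set s := ⨆ j, 2 ^ (j + 1) * a j with hs
  have h1 : ∑' j, a j ≤ s := by
    calc ∑' j, a j = ∑' j, ((2 : ℝ≥0∞)⁻¹) ^ (j + 1) * (2 ^ (j + 1) * a j) := by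
          refine tsum_congr fun j => ?_
          rw [← mul_assoc, ← mul_pow, ENNReal.inv_mul_cancel (by norm_num) (by norm_num), one_pow,
            one_mul]
      _ ≤ ∑' j, ((2 : ℝ≥0∞)⁻¹) ^ (j + 1) * s := by
          refine ENNReal.tsum_le_tsum fun j => ?_
          gcongr
          exact le_iSup (fun j => 2 ^ (j + 1) * a j) j
      _ = s := by
          rw [ENNReal.tsum_mul_right]
          have : ∑' j : ℕ, ((2 : ℝ≥0∞)⁻¹) ^ (j + 1) = 1 := by
            simp_rw [pow_succ]
            rw [ENNReal.tsum_mul_right, tsum_half, ENNReal.mul_inv_cancel (by norm_num)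
              (by norm_num)]
          rw [this, one_mul]
  calc (∑' j, a j) ^ n ≤ s ^ n := by gcongr
    _ = ⨆ j, (2 ^ (j + 1) * a j) ^ n := by
        rw [hs]
        exact (pow_left_mono n).map_ciSup_of_continuousAt (ENNReal.continuous_pow n).continuousAt
          (OrderTop.bddAbove _)
    _ ≤ ∑' j, (2 ^ (j + 1) * a j) ^ n := iSup_le fun j => ENNReal.le_tsum j

lemma lintegral_cs {α : Type*} [MeasurableSpace α] {m : Measure α} {X : α → ℝ≥0∞}
    (hX : AEMeasurable X m) {n : ℕ} (hn : 2 ≤ n) :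
    (∫⁻ a, X a ^ n ∂m) ^ 2 ≤ (∫⁻ a, X a ^ 2 ∂m) * ∫⁻ a, X a ^ (2 * n - 2) ∂m := by
  have h1 := ENNReal.lintegral_mul_le_Lp_mul_Lq m (p := 2) (q := 2)
    (by constructor <;> norm_num) hX (hX.pow_const (n - 1))
  have e1 : ∀ a, (X * fun a => X a ^ (n - 1)) a = X a ^ n := fun a => by
    simp only [Pi.mul_apply]
    rw [← pow_succ']
    congr 1; omega
  simp_rw [e1] at h1
  have e2 : ∀ a, (X a ^ (n - 1)) ^ (2 : ℝ) = X a ^ (2 * n - 2) := fun a => by
    rw [show (2 : ℝ) = ((2 : ℕ) : ℝ) by norm_num, ENNReal.rpow_natCast, ← pow_mul]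
    congr 1; omega
  have e3 : ∀ a, X a ^ (2 : ℝ) = X a ^ 2 := fun a => by
    rw [show (2 : ℝ) = ((2 : ℕ) : ℝ) by norm_num, ENNReal.rpow_natCast]
  simp_rw [e2, e3] at h1
  calc (∫⁻ a, X a ^ n ∂m) ^ 2
      ≤ ((∫⁻ a, X a ^ 2 ∂m) ^ (1 / (2 : ℝ)) * (∫⁻ a, X a ^ (2 * n - 2) ∂m) ^ (1 / (2 : ℝ))) ^ 2 := by
        gcongr
    _ = _ := by
        rw [mul_pow, ← ENNReal.rpow_natCast, ← ENNReal.rpow_natCast, ← ENNReal.rpow_mul,
          ← ENNReal.rpow_mul]
        norm_num

variable {E : Type*} [NormedAddCommGroup E] [NormedSpace ℝ E] [MeasurableSpace E]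
variable {H : Type*} [NormedAddCommGroup H] [InnerProductSpace ℝ H] [CompleteSpace H]
variable [BorelSpace E] [SecondCountableTopology E] {μ : Measure E} [IsProbabilityMeasure μ]

lemma Bd_all (h : RotInv μ) {A : E → H →L[ℝ] H} (hA : Hyp μ A) {n : ℕ} (hn : 2 ≤ n) :
    Bd μ A n := by
  induction n, hn using Nat.le_induction with
  | base => exact Bd_two h hA
  | succ n hn ih => exact Bd_succ h hA hn ih

/-- the dyadic annuli -/
def ann (j : ℕ) : Set ℝ := if j = 0 then Set.Iio 2 else Set.Ico (2 ^ j) (2 ^ (j + 1))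

lemma measurableSet_ann (j : ℕ) : MeasurableSet (ann j) := by
  unfold ann; split_ifs <;> measurability

lemma exists_ann {r : ℝ} (hr : 0 ≤ r) : ∃ j, r ∈ ann j ∧ ∀ i, i ≠ j → r ∉ ann i := by
  by_cases h2 : r < 2
  · refine ⟨0, by simpa [ann] using h2, fun i hi => ?_⟩
    simp only [ann, hi, if_false, Set.mem_Ico, not_and_or, not_le]
    left
    have : (2 : ℝ) ^ 1 ≤ 2 ^ i := pow_le_pow_right₀ (by norm_num) (by omega)
    linarith
  · rw [not_lt] at h2
    obtain ⟨m, hm⟩ := pow_unbounded_of_one_lt r (one_lt_two)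
    have hex : ∃ k : ℕ, r < (2 : ℝ) ^ (k + 1) := ⟨m, hm.trans_le
      (pow_le_pow_right₀ (by norm_num) (by omega))⟩
    classical
    have h1 := Nat.find_spec hex
    have h0 : Nat.find hex ≠ 0 := by
      intro h0
      rw [h0] at h1
      norm_num at h1
      linarith
    have h3 : (2 : ℝ) ^ (Nat.find hex) ≤ r := by
      obtain ⟨k, hk⟩ := Nat.exists_eq_succ_of_ne_zero h0
      have := Nat.find_min hex (m := k) (by omega)
      rw [hk]
      exact not_lt.mp this
    refine ⟨Nat.find hex, ?_, fun i hi => ?_⟩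
    · simp only [ann, h0, if_false, Set.mem_Ico]
      exact ⟨h3, h1⟩
    · unfold ann
      split_ifs with hi0
      · simp only [Set.mem_Iio, not_lt]
        exact h2
      · simp only [Set.mem_Ico, not_and_or, not_le, not_lt]
        rcases lt_or_gt_of_ne hi with hlt | hgt
        · right
          exact (pow_le_pow_right₀ (by norm_num) (by omega)).trans h3
        · left
          exact h1.trans_le (pow_le_pow_right₀ (by norm_num) (by omega))

/-- dyadic pieces of a vector field -/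
noncomputable def piece (U : E → H) (j : ℕ) : E → H := fun x =>
  (ann j).indicator (fun _ => U x) ‖U x‖

lemma aesm_piece {U : E → H} (hU : AEStronglyMeasurable U μ) (j : ℕ) :
    AEStronglyMeasurable (piece U j) μ := by
  have h1 : NullMeasurableSet {x | ‖U x‖ ∈ ann j} μ :=
    hU.norm.aemeasurable.nullMeasurable (measurableSet_ann j)
  have h2 : piece U j = {x | ‖U x‖ ∈ ann j}.indicator U := by
    ext x
    by_cases hx : ‖U x‖ ∈ ann j
    · rw [Set.indicator_of_mem (by exact hx)]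
      simp [piece, Set.indicator_of_mem hx]
    · rw [Set.indicator_of_notMem (by exact hx)]
      simp [piece, Set.indicator_of_notMem hx]
  rw [h2]
  exact hU.indicator₀ h1

lemma hasSum_piece (U : E → H) (x : E) : HasSum (fun j => piece U j x) (U x) := by
  obtain ⟨j, hj, hj'⟩ := exists_ann (norm_nonneg (U x))
  have h1 := hasSum_single (f := fun i => piece U i x) j (fun i hi => by
    simp [piece, Set.indicator_of_notMem (hj' i hi)])
  simpa [piece, Set.indicator_of_mem hj] using h1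

lemma tsum_enorm_piece (U : E → H) (x : E) : ∑' j, ‖piece U j x‖ₑ = ‖U x‖ₑ := by
  obtain ⟨j, hj, hj'⟩ := exists_ann (norm_nonneg (U x))
  rw [tsum_eq_single j (fun i hi => by simp [piece, Set.indicator_of_notMem (hj' i hi)])]
  simp [piece, Set.indicator_of_mem hj]

lemma norm_piece_le (U : E → H) (j : ℕ) (x : E) : ‖piece U j x‖ ≤ 2 ^ (j + 1) := by
  by_cases hx : ‖U x‖ ∈ ann j
  · have : piece U j x = U x := by simp [piece, Set.indicator_of_mem hx]
    rw [this]
    unfold ann at hx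
    split_ifs at hx with h0
    · subst h0
      have : ‖U x‖ < 2 := hx
      norm_num
      linarith
    · exact hx.2.le
  · have : piece U j x = 0 := by simp [piece, Set.indicator_of_notMem hx]
    rw [this, norm_zero]
    positivity

/-- `‖U_j‖² ≤ 4 · 2^{-j(q-2)} (1 + ‖U‖^q)`, in the multiplied-out form. -/
lemma piece_sq_le (U : E → H) (j : ℕ) {q : ℕ} (hq : 2 ≤ q) (x : E) :
    ‖piece U j x‖ₑ ^ 2 * (2 ^ j) ^ (q - 2) ≤ 4 + ‖U x‖ₑ ^ q := by
  have key : ‖piece U j x‖ ^ 2 * (2 ^ j) ^ (q - 2) ≤ 4 + ‖U x‖ ^ q := by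
    by_cases hx : ‖U x‖ ∈ ann j
    · have : piece U j x = U x := by simp [piece, Set.indicator_of_mem hx]
      rw [this]
      unfold ann at hx
      split_ifs at hx with h0
      · subst h0
        have h1 : ‖U x‖ < 2 := hx
        have h2 : 0 ≤ ‖U x‖ ^ q := by positivity
        have h3 : ‖U x‖ ^ 2 ≤ 2 ^ 2 := by gcongr
        norm_num
        nlinarith
      · have h1 : (2 : ℝ) ^ j ≤ ‖U x‖ := hx.1
        calc ‖U x‖ ^ 2 * (2 ^ j) ^ (q - 2) ≤ ‖U x‖ ^ 2 * ‖U x‖ ^ (q - 2) := by gcongr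
          _ = ‖U x‖ ^ q := by rw [← pow_add]; congr 1; omega
          _ ≤ 4 + ‖U x‖ ^ q := by linarith
    · have : piece U j x = 0 := by simp [piece, Set.indicator_of_notMem hx]
      rw [this, norm_zero]
      norm_num
      positivity
  have h1 : ‖piece U j x‖ₑ ^ 2 * (2 ^ j) ^ (q - 2)
      = ENNReal.ofReal (‖piece U j x‖ ^ 2 * (2 ^ j) ^ (q - 2)) := by
    rw [ENNReal.ofReal_mul (by positivity), ENNReal.ofReal_pow (norm_nonneg _), ofReal_norm,
      ENNReal.ofReal_pow (by positivity), ENNReal.ofReal_pow (by positivity)]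
    norm_num
  have h2 : 4 + ‖U x‖ₑ ^ q = ENNReal.ofReal (4 + ‖U x‖ ^ q) := by
    rw [ENNReal.ofReal_add (by norm_num) (by positivity), ENNReal.ofReal_pow (norm_nonneg _),
      ofReal_norm]
    norm_num
  rw [h1, h2]
  exact ENNReal.ofReal_le_ofReal key

end Pool.Agent.H96.OU
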