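import Mathlib
import Pool.Agent.H96.OU.Ext

open MeasureTheory ProbabilityTheory
open scoped ENNReal NNReal Real Topology RealInnerProductSpace

set_option linter.unusedSectionVars false

namespace Pool.Agent.H96.OU

variable {E : Type*} [NormedAddCommGroup E] [NormedSpace ℝ E] [MeasurableSpace E]
variable {H : Type*} [NormedAddCommGroup H] [InnerProductSpace ℝ H] [CompleteSpace H]
variable [BorelSpace E] [SecondCountableTopology E] {μ : Measure E} [IsProbabilityMeasure μ]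

lemma memDTwo_mehler (h : RotInv μ) {τ : ℝ} (hτ : 0 < τ) (hτ1 : τ ≤ 1) {G : E → H}
    (hG : MemLp G 2 μ) : MemDTwoInfty μ (mehler μ τ G) := fun r => by
  obtain ⟨C, _, hC⟩ := sobolevNorm_mehler h H r
  exact (hC τ hτ hτ1 G hG).1

lemma aesm_A_mehler (h : RotInv μ) {A : E → H →L[ℝ] H} (hA : Hyp μ A) {τ : ℝ} (hτ : 0 < τ)
    (hτ1 : τ ≤ 1) {G : E → H} (hG : MemLp G 2 μ) :
    AEStronglyMeasurable (fun ω => A ω (mehler μ τ G ω)) μ := by
  obtain ⟨U, hU, hV⟩ := hA.map _ (memDTwo_mehler h hτ hτ1 hG) 0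
  refine hU.1.congr ?_
  refine Filter.EventuallyEq.trans ?_ hV.symm
  exact Filter.Eventually.of_forall fun x => by simp [bessel]

lemma pieces_bound (h : RotInv μ) (A : E → H →L[ℝ] H) {t : ℝ} (ht : 0 ≤ t) {U : E → H}
    (hU : Integrable U μ) :
    ∀ᵐ ω ∂μ, ‖A ω (mehler μ t U ω)‖ₑ ≤ ∑' j, ‖A ω (mehler μ t (piece U j) ω)‖ₑ := by
  have hmp := mp_pt (μ := μ) h ht
  have h1 : ∀ᵐ x ∂μ, Integrable (fun y => U (pt t x y)) μ := by
    have : Integrable (fun p : E × E => U (pt t p.1 p.2)) (μ.prod μ) :=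
      hmp.integrable_comp_of_integrable hU
    exact this.prod_right_ae
  have h2 : ∀ᵐ x ∂μ, ∀ j, AEStronglyMeasurable (fun y => piece U j (pt t x y)) μ := by
    rw [ae_all_iff]
    exact fun j => ((aesm_piece hU.1 j).comp_measurePreserving hmp).prodMk_left
  filter_upwards [h1, h2] with x hx1 hx2
  have h3 : ∑' j, ∫⁻ y, ‖piece U j (pt t x y)‖ₑ ∂μ = ∫⁻ y, ‖U (pt t x y)‖ₑ ∂μ := by
    rw [← lintegral_tsum (fun j => (hx2 j).enorm)]
    exact lintegral_congr fun y => tsum_enorm_piece U _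
  have h4 : ∑' j, ∫⁻ y, ‖piece U j (pt t x y)‖ₑ ∂μ ≠ ∞ := by
    rw [h3]; exact hx1.2.ne
  have h5 : mehler μ t U x = ∑' j, mehler μ t (piece U j) x := by
    have := integral_tsum hx2 h4
    rw [mehler_eq_pt]
    simp_rw [mehler_eq_pt]
    rw [← this]
    refine integral_congr_ae (Filter.Eventually.of_forall fun y => ?_)
    exact (hasSum_piece U _).tsum_eq.symm
  have h6 : Summable (fun j => mehler μ t (piece U j) x) := by
    apply Summable.of_nnnorm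
    have h7 : ∀ j, ‖mehler μ t (piece U j) x‖ₑ ≤ ∫⁻ y, ‖piece U j (pt t x y)‖ₑ ∂μ :=
      fun j => enorm_integral_le_lintegral_enorm _
    have h8 : ∑' j, ‖mehler μ t (piece U j) x‖ₑ ≠ ∞ :=
      ne_top_of_le_ne_top h4 (ENNReal.tsum_le_tsum h7)
    exact ENNReal.tsum_coe_ne_top_iff_summable.mp h8
  rw [h5, ContinuousLinearMap.map_tsum _ h6]
  exact enorm_tsum_le_tsum_enorm

lemma ext_bound (h : RotInv μ) {A : E → H →L[ℝ] H} (hA : Hyp μ A) {n : ℕ} (hn : 2 ≤ n) :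
    ∃ (C : ℝ) (κ : ℕ), 0 ≤ C ∧ ∀ t : ℝ, 0 < t → t ≤ 1 → ∀ U : E → H,
      AEStronglyMeasurable U μ → ∫⁻ ω, ‖U ω‖ₑ ^ (8 * n) ∂μ ≤ 1 →
      ∫⁻ ω, ‖A ω (mehler μ t U ω)‖ₑ ^ n ∂μ ≤ ENNReal.ofReal (C * (t⁻¹) ^ κ) := by
  obtain ⟨C₁, κ₁, hC₁0, hC₁⟩ := D1 h hA
  obtain ⟨C₂, κ₂, hC₂0, hC₂⟩ := Bd_all h hA (n := 2 * n - 2) (by omega)
  set c : ℝ := C₁ * 3 * 2 ^ (n - 1) * (C₂ + 1) with hc
  refine ⟨2 * (2 ^ n * c), κ₁ + κ₂, by positivity, fun t ht ht1 U hU hU1 => ?_⟩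
  have hti : 1 ≤ t⁻¹ := (one_le_inv₀ ht).mpr ht1
  have hUi : Integrable U μ := by
    have h1 : MemLp U ((8 * n : ℕ) : ℝ≥0∞) μ :=
      memLp_of_lintegral_pow (8 * n) (by omega) hU (hU1.trans_lt (by norm_num))
    refine h1.integrable ?_
    exact_mod_cast (by omega : 1 ≤ 8 * n)
  have hpb : ∀ j, MemLp (piece U j) 2 μ := fun j =>
    MemLp.of_bound (aesm_piece hU j) (2 ^ (j + 1))
      (Filter.Eventually.of_forall (norm_piece_le U j))
  let X : ℕ → E → ℝ≥0∞ := fun j ω => ‖A ω (mehler μ t (piece U j) ω)‖ₑ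
  have hXm : ∀ j, AEMeasurable (X j) μ := fun j => (aesm_A_mehler h hA ht ht1 (hpb j)).enorm
  -- second moment
  have hX2 : ∀ j, (∫⁻ ω, X j ω ^ 2 ∂μ) * (2 ^ j) ^ (8 * n - 2)
      ≤ ENNReal.ofReal ((C₁ * (t⁻¹) ^ κ₁) ^ 2 * 5) := by
    intro j
    have h1 := hC₁ t ht ht1 (piece U j) (hpb j)
    have h2 := eLpNorm_pow_eq (m := μ) (fun ω => A ω (mehler μ t (piece U j) ω)) 2 (by norm_num)
    have h3 := eLpNorm_pow_eq (m := μ) (piece U j) 2 (by norm_num)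
    push_cast at h2 h3
    have h4 : (∫⁻ ω, ‖piece U j ω‖ₑ ^ 2 ∂μ) * (2 ^ j) ^ (8 * n - 2) ≤ 5 := by
      rw [← lintegral_mul_const' _ _ (ENNReal.pow_ne_top (ENNReal.pow_ne_top (by norm_num)))]
      calc _ ≤ ∫⁻ ω, (4 + ‖U ω‖ₑ ^ (8 * n)) ∂μ :=
            lintegral_mono fun ω => piece_sq_le U j (by omega) ω
        _ = 4 + ∫⁻ ω, ‖U ω‖ₑ ^ (8 * n) ∂μ := by
            rw [lintegral_add_left measurable_const, lintegral_const, measure_univ, mul_one]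
        _ ≤ 4 + 1 := by gcongr
        _ = 5 := by norm_num
    calc (∫⁻ ω, X j ω ^ 2 ∂μ) * (2 ^ j) ^ (8 * n - 2)
        = (eLpNorm (fun ω => A ω (mehler μ t (piece U j) ω)) 2 μ) ^ 2
          * (2 ^ j) ^ (8 * n - 2) := by rw [h2]
      _ ≤ (ENNReal.ofReal (C₁ * (t⁻¹) ^ κ₁) * eLpNorm (piece U j) 2 μ) ^ 2
          * (2 ^ j) ^ (8 * n - 2) := by gcongr
      _ = ENNReal.ofReal ((C₁ * (t⁻¹) ^ κ₁) ^ 2) *
          ((∫⁻ ω, ‖piece U j ω‖ₑ ^ 2 ∂μ) * (2 ^ j) ^ (8 * n - 2)) := by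
          rw [mul_pow, h3, ENNReal.ofReal_pow (by positivity), mul_assoc]
      _ ≤ ENNReal.ofReal ((C₁ * (t⁻¹) ^ κ₁) ^ 2) * 5 := by gcongr
      _ = _ := by
          rw [ENNReal.ofReal_mul (p := (C₁ * (t⁻¹) ^ κ₁) ^ 2) (by positivity)]
          norm_num
  -- high moment
  have hXn : ∀ j, ∫⁻ ω, X j ω ^ (2 * n - 2) ∂μ
      ≤ ENNReal.ofReal ((2 ^ (j + 1)) ^ (2 * n - 2) * (C₂ * (t⁻¹) ^ κ₂)) := by
    intro j
    set r : ℝ := 2 ^ (j + 1) with hr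
    have hr0 : 0 < r := by positivity
    have h1 := hC₂ t ht ht1 (fun x => r⁻¹ • piece U j x)
      ((aesm_piece hU j).const_smul _) (fun x => by
        rw [norm_smul, Real.norm_of_nonneg (by positivity), inv_mul_le_iff₀ hr0, mul_one]
        exact norm_piece_le U j x)
    have h2 : ∀ ω, X j ω = ENNReal.ofReal r *
        ‖A ω (mehler μ t (fun x => r⁻¹ • piece U j x) ω)‖ₑ := by
      intro ω
      have h3 : mehler μ t (piece U j) ω = r • mehler μ t (fun x => r⁻¹ • piece U j x) ω := by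
        rw [mehler_eq_pt, mehler_eq_pt, integral_smul, smul_smul, mul_inv_cancel₀ hr0.ne', one_smul]
      change ‖A ω (mehler μ t (piece U j) ω)‖ₑ = _
      rw [h3, map_smul, enorm_smul, Real.enorm_of_nonneg hr0.le]
    simp_rw [h2, mul_pow]
    rw [lintegral_const_mul' _ _ (ENNReal.pow_ne_top ENNReal.ofReal_ne_top),
      ENNReal.ofReal_mul (by positivity), ← ENNReal.ofReal_pow hr0.le]
    gcongr
  -- combination
  have hXf : ∀ j, ∫⁻ ω, X j ω ^ n ∂μ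
      ≤ ENNReal.ofReal (c * (t⁻¹) ^ (κ₁ + κ₂) * (1 / 2) ^ (3 * n * j)) := by
    intro j
    have h1 := lintegral_cs (hXm j) hn
    have h2 : (∫⁻ ω, X j ω ^ n ∂μ) ^ 2
        ≤ (ENNReal.ofReal (c * (t⁻¹) ^ (κ₁ + κ₂) * (1 / 2) ^ (3 * n * j))) ^ 2 := by
      refine h1.trans ?_
      have h3 : (∫⁻ ω, X j ω ^ 2 ∂μ) ≤ ENNReal.ofReal ((C₁ * (t⁻¹) ^ κ₁) ^ 2 * 5
          * (1 / 2) ^ (j * (8 * n - 2))) := by
        have h4 := hX2 j
        have h5 : ((2 : ℝ≥0∞) ^ j) ^ (8 * n - 2)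
            * ENNReal.ofReal ((1 / 2 : ℝ) ^ (j * (8 * n - 2))) = 1 := by
          rw [ofReal_half_pow, ← pow_mul, ← mul_pow, ENNReal.mul_inv_cancel (by norm_num)
            (by norm_num), one_pow]
        calc (∫⁻ ω, X j ω ^ 2 ∂μ)
            = ((∫⁻ ω, X j ω ^ 2 ∂μ) * (2 ^ j) ^ (8 * n - 2))
              * ENNReal.ofReal ((1 / 2 : ℝ) ^ (j * (8 * n - 2))) := by
              rw [mul_assoc, h5, mul_one]
          _ ≤ ENNReal.ofReal ((C₁ * (t⁻¹) ^ κ₁) ^ 2 * 5)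
              * ENNReal.ofReal ((1 / 2 : ℝ) ^ (j * (8 * n - 2))) := by gcongr
          _ = _ := by rw [← ENNReal.ofReal_mul (by positivity)]
      refine (mul_le_mul' h3 (hXn j)).trans ?_
      rw [← ENNReal.ofReal_mul (by positivity), ← ENNReal.ofReal_pow (by positivity)]
      refine ENNReal.ofReal_le_ofReal ?_
      -- real inequality
      obtain ⟨m, rfl⟩ : ∃ m, n = m + 1 := ⟨n - 1, by omega⟩
      have e1 : 2 * (m + 1) - 2 = 2 * m := by omega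
      have e2 : 8 * (m + 1) - 2 = 8 * m + 6 := by omega
      have e3 : m + 1 - 1 = m := by omega
      rw [hc, e1, e2, e3]
      have e4 : ((2 : ℝ) ^ (j + 1)) ^ (2 * m) * (1 / 2) ^ (j * (8 * m + 6))
          = (2 ^ m) ^ 2 * ((1 / 2 : ℝ) ^ (3 * (m + 1) * j)) ^ 2 := by
        have e5 : ((2 : ℝ) ^ (j + 1)) ^ (2 * m) = (2 ^ m) ^ 2 * 2 ^ (2 * m * j) := by
          rw [← pow_mul, ← pow_mul, ← pow_add]; congr 1; ring
        have e6 : (1 / 2 : ℝ) ^ (j * (8 * m + 6)) = (1 / 2) ^ (2 * m * j)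
            * ((1 / 2 : ℝ) ^ (3 * (m + 1) * j)) ^ 2 := by
          rw [← pow_mul, ← pow_add]; congr 1; ring
        rw [e5, e6]
        have e7 : (2 : ℝ) ^ (2 * m * j) * (1 / 2) ^ (2 * m * j) = 1 := by
          rw [← mul_pow]; norm_num
        linear_combination ((2 ^ m) ^ 2 * ((1 / 2 : ℝ) ^ (3 * (m + 1) * j)) ^ 2) * e7
      have e8 : C₂ * (t⁻¹) ^ κ₂ ≤ (C₂ + 1) ^ 2 * ((t⁻¹) ^ κ₂) ^ 2 := by
        have e9 : 1 ≤ (t⁻¹) ^ κ₂ := one_le_pow₀ hti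
        have e10 : C₂ ≤ (C₂ + 1) ^ 2 := by nlinarith
        have e11 : (t⁻¹) ^ κ₂ ≤ ((t⁻¹) ^ κ₂) ^ 2 := by nlinarith
        exact mul_le_mul e10 e11 (by positivity) (by positivity)
      calc (C₁ * t⁻¹ ^ κ₁) ^ 2 * 5 * (1 / 2) ^ (j * (8 * m + 6)) *
            ((2 ^ (j + 1)) ^ (2 * m) * (C₂ * t⁻¹ ^ κ₂))
          = (C₁ * t⁻¹ ^ κ₁) ^ 2 * 5 * (((2 : ℝ) ^ (j + 1)) ^ (2 * m) * (1 / 2) ^ (j * (8 * m + 6)))
            * (C₂ * t⁻¹ ^ κ₂) := by ring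
        _ ≤ (C₁ * t⁻¹ ^ κ₁) ^ 2 * 9 * (((2 : ℝ) ^ (j + 1)) ^ (2 * m) * (1 / 2) ^ (j * (8 * m + 6)))
            * ((C₂ + 1) ^ 2 * ((t⁻¹) ^ κ₂) ^ 2) := by
            gcongr
            norm_num
        _ = _ := by rw [e4, pow_add (t⁻¹) κ₁ κ₂]; ring
    exact (ENNReal.pow_le_pow_left_iff (by norm_num)).mp h2
  calc ∫⁻ ω, ‖A ω (mehler μ t U ω)‖ₑ ^ n ∂μ
      ≤ ∫⁻ ω, ∑' j, (2 ^ (j + 1) * X j ω) ^ n ∂μ := by
        refine lintegral_mono_ae ?_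
        filter_upwards [pieces_bound h A ht.le hUi] with ω hω
        calc ‖A ω (mehler μ t U ω)‖ₑ ^ n ≤ (∑' j, X j ω) ^ n := by gcongr
          _ ≤ _ := tsum_pow_le _ (by omega)
    _ = ∑' j, (2 ^ (j + 1)) ^ n * ∫⁻ ω, X j ω ^ n ∂μ := by
        rw [lintegral_tsum (fun j => ((hXm j).const_mul _).pow_const n)]
        refine tsum_congr fun j => ?_
        simp_rw [mul_pow]
        rw [lintegral_const_mul' _ _ (ENNReal.pow_ne_top (ENNReal.pow_ne_top (by norm_num)))]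
    _ ≤ ∑' j, ENNReal.ofReal (2 ^ n * c * (t⁻¹) ^ (κ₁ + κ₂)) * ((2 : ℝ≥0∞)⁻¹) ^ j := by
        refine ENNReal.tsum_le_tsum fun j => ?_
        have e1 : ((2 : ℝ≥0∞) ^ (j + 1)) ^ n = ENNReal.ofReal ((2 ^ (j + 1)) ^ n) := by
          rw [ENNReal.ofReal_pow (by positivity), ENNReal.ofReal_pow (by positivity)]
          norm_num
        rw [e1]
        refine (mul_le_mul_right (hXf j) _).trans ?_
        rw [← ENNReal.ofReal_mul (by positivity), ← ofReal_half_pow,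
          ← ENNReal.ofReal_mul (by positivity)]
        refine ENNReal.ofReal_le_ofReal ?_
        have e2 : ((2 : ℝ) ^ (j + 1)) ^ n * (1 / 2) ^ (3 * n * j) ≤ 2 ^ n * (1 / 2) ^ j := by
          have e3 : ((2 : ℝ) ^ (j + 1)) ^ n = 2 ^ n * 2 ^ (n * j) := by
            rw [← pow_mul, ← pow_add]; congr 1; ring
          have e4 : (1 / 2 : ℝ) ^ (3 * n * j) = (1 / 2) ^ (n * j) * (1 / 2) ^ (2 * n * j) := by
            rw [← pow_add]; congr 1; ring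
          have e5 : (2 : ℝ) ^ (n * j) * (1 / 2) ^ (n * j) = 1 := by
            rw [← mul_pow]; norm_num
          have e6 : (1 / 2 : ℝ) ^ (2 * n * j) ≤ (1 / 2) ^ j := by
            apply pow_le_pow_of_le_one (by norm_num) (by norm_num)
            calc j = 1 * j := by ring
              _ ≤ 2 * n * j := by gcongr; omega
          rw [e3, e4]
          calc (2 : ℝ) ^ n * 2 ^ (n * j) * ((1 / 2) ^ (n * j) * (1 / 2) ^ (2 * n * j))
              = 2 ^ n * (2 ^ (n * j) * (1 / 2) ^ (n * j)) * (1 / 2) ^ (2 * n * j) := by ring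
            _ = 2 ^ n * (1 / 2) ^ (2 * n * j) := by rw [e5, mul_one]
            _ ≤ _ := by gcongr
        calc (2 ^ (j + 1)) ^ n * (c * (t⁻¹) ^ (κ₁ + κ₂) * (1 / 2) ^ (3 * n * j))
            = (c * (t⁻¹) ^ (κ₁ + κ₂)) * (((2 : ℝ) ^ (j + 1)) ^ n * (1 / 2) ^ (3 * n * j)) := by ring
          _ ≤ (c * (t⁻¹) ^ (κ₁ + κ₂)) * (2 ^ n * (1 / 2) ^ j) := by gcongr
          _ = _ := by ring
    _ = ENNReal.ofReal (2 * (2 ^ n * c) * (t⁻¹) ^ (κ₁ + κ₂)) := by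
        rw [ENNReal.tsum_mul_left, tsum_half]
        have : (2 : ℝ≥0∞) = ENNReal.ofReal 2 := by norm_num
        rw [this, ← ENNReal.ofReal_mul (by positivity)]
        congr 1
        ring

end Pool.Agent.H96.OU
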