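import Mathlib
import Pool.Agent.H96.OU.Ext2

open MeasureTheory ProbabilityTheory
open scoped ENNReal NNReal Real Topology RealInnerProductSpace

set_option linter.unusedSectionVars false

namespace Pool.Agent.H96.OU

variable {E : Type*} [NormedAddCommGroup E] [NormedSpace ℝ E] [MeasurableSpace E]
variable {H : Type*} [NormedAddCommGroup H] [InnerProductSpace ℝ H] [CompleteSpace H]
  [SecondCountableTopology H]
variable [BorelSpace E] [SecondCountableTopology E] {μ : Measure E} [IsProbabilityMeasure μ]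

lemma aesm_A {A : E → H →L[ℝ] H} (hA : ∀ x : H, StronglyMeasurable fun ω => A ω x)
    {α : Type*} [MeasurableSpace α] {m : Measure α} {g : α → E} (hg : Measurable g) {V : α → H}
    (hV : AEStronglyMeasurable V m) : AEStronglyMeasurable (fun a => A (g a) (V a)) m := by
  borelize H
  have h1 : Measurable (Function.uncurry fun (v : H) (ω : E) => A ω v) :=
    measurable_uncurry_of_continuous_of_measurable (fun ω => (A ω).continuous)
      (fun v => (hA v).measurable)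
  have h2 : AEMeasurable (fun a => A (g a) (V a)) m := by
    have h3 : AEMeasurable (fun a => (V a, g a)) m := hV.aemeasurable.prodMk hg.aemeasurable
    exact h1.comp_aemeasurable h3
  exact h2.aestronglyMeasurable

lemma aesm_mehler_joint (h : RotInv μ) (ν : Measure ℝ) [Mix ν] {U : E → H}
    (hU : AEStronglyMeasurable U μ) :
    AEStronglyMeasurable (fun q : E × ℝ => mehler μ q.2 U q.1) (μ.prod ν) := by
  have h1 : MeasurePreserving (MeasurableEquiv.prodAssoc : (E × ℝ) × E ≃ᵐ E × (ℝ × E))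
      ((μ.prod ν).prod μ) (μ.prod (ν.prod μ)) := measurePreserving_prodAssoc μ ν μ
  have h2 : MeasurePreserving (fun q : (E × ℝ) × E => pt q.1.2 q.1.1 q.2)
      ((μ.prod ν).prod μ) μ := (mp_pt' (ν := ν) h).comp h1
  have h3 := hU.comp_measurePreserving h2
  exact h3.integral_prod_right'

lemma integral_weight (κ : ℕ) :
    ∫⁻ t, ENNReal.ofReal ((t⁻¹) ^ κ) ∂(gam (2 * (κ + 1))) ≤ 1 := by
  have h1 : gam (2 * (κ + 1)) = gammaMeasure ((κ : ℝ) + 1) 1 := by
    simp only [gam, Nat.mul_eq_zero, OfNat.ofNat_ne_zero, Nat.add_eq_zero_iff, one_ne_zero,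
      and_false, or_self, if_false]
    congr 1
    push_cast
    ring
  have hm : Measurable (gammaPDF ((κ : ℝ) + 1) 1) := by unfold gammaPDF; fun_prop
  rw [h1, gammaMeasure, lintegral_withDensity_eq_lintegral_mul _ hm (by fun_prop)]
  calc ∫⁻ t, (gammaPDF ((κ : ℝ) + 1) 1 * fun t => ENNReal.ofReal ((t⁻¹) ^ κ)) t
      ≤ ∫⁻ t, gammaPDF 1 1 t := by
        refine lintegral_mono_ae ?_
        filter_upwards [Measure.ae_ne volume (0 : ℝ)] with t ht
        simp only [Pi.mul_apply]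
        rcases lt_or_gt_of_ne ht with ht | ht
        · rw [gammaPDF_of_neg ht, zero_mul]; exact zero_le
        · rw [gammaPDF_of_nonneg ht.le, gammaPDF_of_nonneg ht.le, ← ENNReal.ofReal_mul
            (by have := Real.Gamma_pos_of_pos (show (0 : ℝ) < κ + 1 by positivity); positivity)]
          refine ENNReal.ofReal_le_ofReal ?_
          rw [Real.Gamma_nat_eq_factorial]
          have hf : (1 : ℝ) ≤ (κ.factorial : ℝ) := by exact_mod_cast Nat.factorial_pos κ
          simp only [Real.one_rpow, add_sub_cancel_right, Real.rpow_natCast, sub_self,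
            Real.rpow_zero, mul_one, Real.Gamma_one, div_one, one_mul]
          have e1 : t ^ κ * (t⁻¹) ^ κ = 1 := by rw [← mul_pow, mul_inv_cancel₀ ht.ne', one_pow]
          calc 1 / (κ.factorial : ℝ) * t ^ κ * Real.exp (-t) * (t⁻¹) ^ κ
              = (1 / (κ.factorial : ℝ)) * Real.exp (-t) * (t ^ κ * (t⁻¹) ^ κ) := by ring
            _ = (1 / (κ.factorial : ℝ)) * Real.exp (-t) := by rw [e1, mul_one]
            _ ≤ 1 * Real.exp (-t) := by
                gcongr
                rw [div_le_one (by positivity)]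
                exact hf
            _ = Real.exp (-t) := one_mul _
    _ = 1 := lintegral_gammaPDF_eq_one one_pos one_pos

lemma ext_bound' (h : RotInv μ) {A : E → H →L[ℝ] H} (hA : Hyp μ A) {n : ℕ} (hn : 2 ≤ n) :
    ∃ (C : ℝ) (κ : ℕ), 0 ≤ C ∧ ∀ t : ℝ, 0 < t → ∀ U : E → H,
      AEStronglyMeasurable U μ → ∫⁻ ω, ‖U ω‖ₑ ^ (8 * n) ∂μ ≤ 1 →
      ∫⁻ ω, ‖A ω (mehler μ t U ω)‖ₑ ^ n ∂μ ≤ ENNReal.ofReal (C * (1 + (t⁻¹) ^ κ)) := by
  obtain ⟨C, κ, hC0, hC⟩ := ext_bound h hA hn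
  refine ⟨C, κ, hC0, fun t ht U hU hU1 => ?_⟩
  rcases le_or_gt t 1 with ht1 | ht1
  · refine (hC t ht ht1 U hU hU1).trans (ENNReal.ofReal_le_ofReal ?_)
    have : 0 ≤ C := hC0
    nlinarith
  · have ht' : 0 ≤ t - 1 := by linarith
    have hUi : Integrable U μ := by
      have h1 : MemLp U ((8 * n : ℕ) : ℝ≥0∞) μ :=
        memLp_of_lintegral_pow (8 * n) (by omega) hU (hU1.trans_lt (by norm_num))
      refine h1.integrable ?_
      exact_mod_cast (by omega : 1 ≤ 8 * n)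
    have h1 : mehler μ 1 (mehler μ (t - 1) U) =ᵐ[μ] mehler μ t U := by
      have := mehler_mehler h zero_le_one ht' hUi
      simpa using this
    have hU' := aesm_mehler h ht' hU
    have hU'1 : ∫⁻ ω, ‖mehler μ (t - 1) U ω‖ₑ ^ (8 * n) ∂μ ≤ 1 := by
      have := mix_dirac ht'
      have h2 := lintegral_enorm_Pm_rpow_le (ν := Measure.dirac (t - 1)) h hU
        (p := ((8 * n : ℕ) : ℝ)) (by exact_mod_cast (by omega : 1 ≤ 8 * n))
      simp only [ENNReal.rpow_natCast] at h2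
      rw [mehler_eq_Pm_fun]
      exact h2.trans hU1
    have h3 := hC 1 one_pos le_rfl _ hU' hU'1
    have h4 : ∫⁻ ω, ‖A ω (mehler μ t U ω)‖ₑ ^ n ∂μ
        = ∫⁻ ω, ‖A ω (mehler μ 1 (mehler μ (t - 1) U) ω)‖ₑ ^ n ∂μ := by
      refine lintegral_congr_ae ?_
      filter_upwards [h1] with ω hω
      rw [hω]
    rw [h4]
    refine h3.trans (ENNReal.ofReal_le_ofReal ?_)
    have : 0 ≤ (t⁻¹) ^ κ := by positivity
    simp only [inv_one, one_pow, mul_one]
    nlinarith

lemma bessel_bound (h : RotInv μ) {A : E → H →L[ℝ] H} (hA : Hyp μ A) {n : ℕ} (hn : 2 ≤ n) :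
    ∃ (M : ℕ) (C : ℝ), 0 ≤ C ∧ ∀ U : E → H,
      AEStronglyMeasurable U μ → ∫⁻ ω, ‖U ω‖ₑ ^ (8 * n) ∂μ ≤ 1 →
      ∫⁻ ω, ‖A ω (bessel μ (2 * M) U ω)‖ₑ ^ n ∂μ ≤ ENNReal.ofReal C := by
  obtain ⟨C, κ, hC0, hC⟩ := ext_bound' h hA hn
  refine ⟨κ + 1, C * 2, by positivity, fun U hU hU1 => ?_⟩
  set ν := gam (2 * (κ + 1)) with hν
  have hUi : Integrable U μ := by
    have h1 : MemLp U ((8 * n : ℕ) : ℝ≥0∞) μ :=
      memLp_of_lintegral_pow (8 * n) (by omega) hU (hU1.trans_lt (by norm_num))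
    refine h1.integrable ?_
    exact_mod_cast (by omega : 1 ≤ 8 * n)
  have hjoint : AEStronglyMeasurable (fun q : E × ℝ => A q.1 (mehler μ q.2 U q.1)) (μ.prod ν) :=
    aesm_A hA.meas measurable_fst (aesm_mehler_joint h ν hU)
  have hpt : ∀ᵐ ω ∂μ, ‖A ω (bessel μ (2 * (κ + 1)) U ω)‖ₑ ^ n
      ≤ ∫⁻ t, ‖A ω (mehler μ t U ω)‖ₑ ^ n ∂ν := by
    filter_upwards [bessel_ae_eq h (2 * (κ + 1)) hUi, Pm_ae_eq_integral_mehler (ν := ν) h hUi,
      ae_integrable (ν := ν) h hUi, hjoint.prodMk_left] with ω h1 h2 h3 h4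
    have h5 : Integrable (fun t => mehler μ t U ω) ν := h3.integral_prod_left
    rw [h1, h2, ← ContinuousLinearMap.integral_comp_comm _ h5]
    have h6 : ‖∫ t, A ω (mehler μ t U ω) ∂ν‖ₑ ≤ ∫⁻ t, ‖A ω (mehler μ t U ω)‖ₑ ∂ν :=
      enorm_integral_le_lintegral_enorm _
    calc ‖∫ t, A ω (mehler μ t U ω) ∂ν‖ₑ ^ n
        ≤ (∫⁻ t, ‖A ω (mehler μ t U ω)‖ₑ ∂ν) ^ n := by gcongr
      _ ≤ ∫⁻ t, ‖A ω (mehler μ t U ω)‖ₑ ^ n ∂ν := by
          have := lintegral_rpow_jensen (m := ν) (g := fun t => ‖A ω (mehler μ t U ω)‖ₑ)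
            h4.enorm (p := (n : ℝ)) (by exact_mod_cast (by omega : 1 ≤ n))
          simpa only [ENNReal.rpow_natCast] using this
  calc ∫⁻ ω, ‖A ω (bessel μ (2 * (κ + 1)) U ω)‖ₑ ^ n ∂μ
      ≤ ∫⁻ ω, ∫⁻ t, ‖A ω (mehler μ t U ω)‖ₑ ^ n ∂ν ∂μ := lintegral_mono_ae hpt
    _ = ∫⁻ t, ∫⁻ ω, ‖A ω (mehler μ t U ω)‖ₑ ^ n ∂μ ∂ν := by
        rw [lintegral_lintegral_swap]
        exact hjoint.enorm.pow_const n
    _ ≤ ∫⁻ t, ENNReal.ofReal (C * (1 + (t⁻¹) ^ κ)) ∂ν := by
        refine lintegral_mono_ae ?_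
        have h0 : ∀ᵐ t ∂ν, 0 < t := by
          have h1 : ∀ᵐ t ∂ν, t ≠ 0 := by
            have hg : ν = gammaMeasure ((κ : ℝ) + 1) 1 := by
              rw [hν]
              simp only [gam, Nat.mul_eq_zero, OfNat.ofNat_ne_zero, Nat.add_eq_zero_iff,
                one_ne_zero, and_false, or_self, if_false]
              congr 1
              push_cast
              ring
            rw [hg, gammaMeasure]
            exact (withDensity_absolutelyContinuous _ _).ae_le (Measure.ae_ne volume (0 : ℝ))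
          filter_upwards [h1, Mix.nonneg (ν := ν)] with t ht1 ht2
          exact lt_of_le_of_ne ht2 (Ne.symm ht1)
        filter_upwards [h0] with t ht
        exact hC t ht U hU hU1
    _ ≤ ∫⁻ t, (ENNReal.ofReal C + ENNReal.ofReal C * ENNReal.ofReal ((t⁻¹) ^ κ)) ∂ν := by
        refine lintegral_mono_ae ?_
        filter_upwards [Mix.nonneg (ν := ν)] with t ht
        rw [← ENNReal.ofReal_mul hC0, ← ENNReal.ofReal_add hC0 (by positivity)]
        refine ENNReal.ofReal_le_ofReal (le_of_eq (by ring))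
    _ = ENNReal.ofReal C + ENNReal.ofReal C * ∫⁻ t, ENNReal.ofReal ((t⁻¹) ^ κ) ∂ν := by
        rw [lintegral_add_left measurable_const, lintegral_const, measure_univ, mul_one,
          lintegral_const_mul' _ _ ENNReal.ofReal_ne_top]
    _ ≤ ENNReal.ofReal C + ENNReal.ofReal C * 1 := by
        gcongr
        exact integral_weight κ
    _ = ENNReal.ofReal (C * 2) := by
        rw [mul_one, ← ENNReal.ofReal_add hC0 hC0]
        congr 1; ring

end Pool.Agent.H96.OU
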