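import Mathlib
import Pool.Agent.H96.OU.Fin1

open MeasureTheory ProbabilityTheory
open scoped ENNReal NNReal Real Topology RealInnerProductSpace

set_option linter.unusedSectionVars false

namespace Pool.Agent.H96.OU

variable {E : Type*} [NormedAddCommGroup E] [NormedSpace ℝ E] [MeasurableSpace E]
variable {H : Type*} [NormedAddCommGroup H] [InnerProductSpace ℝ H] [CompleteSpace H]
variable [BorelSpace E] [SecondCountableTopology E] {μ : Measure E} [IsProbabilityMeasure μ]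

lemma real_term3 (m n k : ℕ) (hn : 2 ≤ n) :
    4 * (((2 : ℝ) ^ (2 * m + 1)) ^ (k + 1)) ^ (n - 2)
      * ((m * (1 / 2) ^ k) ^ ((2 * m + 1) * n)) ^ 2
      ≤ (4 * ((2 : ℝ) ^ (2 * m + 1)) ^ (n - 2) * ((m : ℝ) ^ ((2 * m + 1) * n)) ^ 2) * (1 / 2) ^ k := by
  set M := 2 * m + 1 with hM
  have e1 : (((2 : ℝ) ^ M) ^ (k + 1)) ^ (n - 2)
      = ((2 : ℝ) ^ M) ^ (n - 2) * (2 : ℝ) ^ (k * M * (n - 2)) := by
    rw [← pow_mul, ← pow_mul, ← pow_mul, ← pow_add]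
    congr 1
    ring
  have e2 : (((m : ℝ) * (1 / 2) ^ k) ^ (M * n)) ^ 2
      = ((m : ℝ) ^ (M * n)) ^ 2 * (1 / 2 : ℝ) ^ (2 * k * M * n) := by
    rw [mul_pow, mul_pow]
    congr 1
    rw [← pow_mul, ← pow_mul]; congr 1; ring
  have e5 : (2 : ℝ) ^ (k * M * (n - 2)) * (1 / 2 : ℝ) ^ (2 * k * M * n) ≤ (1 / 2) ^ k := by
    have h1 : 2 * k * M * n = k * M * (n - 2) + k * M * (n + 2) := by
      obtain ⟨n', rfl⟩ : ∃ n', n = n' + 2 := ⟨n - 2, by omega⟩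
      simp only [Nat.add_sub_cancel]
      ring
    rw [h1, pow_add, ← mul_assoc, ← mul_pow]
    rw [show (2 : ℝ) * (1 / 2) = 1 by norm_num, one_pow, one_mul]
    apply pow_le_pow_of_le_one (by norm_num) (by norm_num)
    calc k = k * 1 * 1 := by ring
      _ ≤ k * M * (n + 2) := by gcongr <;> omega
  rw [e1, e2]
  calc 4 * ((2 ^ M) ^ (n - 2) * 2 ^ (k * M * (n - 2))) *
        (((m : ℝ) ^ (M * n)) ^ 2 * (1 / 2 : ℝ) ^ (2 * k * M * n))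
      = (4 * (2 ^ M) ^ (n - 2) * ((m : ℝ) ^ (M * n)) ^ 2) *
        (2 ^ (k * M * (n - 2)) * (1 / 2) ^ (2 * k * M * n)) := by ring
    _ ≤ (4 * (2 ^ M) ^ (n - 2) * ((m : ℝ) ^ (M * n)) ^ 2) * (1 / 2) ^ k := by
        gcongr

lemma real_term4 (m n k : ℕ) (hn : 1 ≤ n) :
    ((((2 : ℝ) ^ (2 * m + 1)) ^ k) ^ n)⁻¹ * ((2 / (1 / 2) ^ k) ^ m) ^ (2 * n)
      ≤ (2 ^ m) ^ (2 * n) * (1 / 2) ^ k := by
  have e0 : (2 : ℝ) / (1 / 2) ^ k = 2 * 2 ^ k := by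
    rw [one_div, inv_pow, div_inv_eq_mul]
  have e1 : (((2 : ℝ) ^ (2 * m + 1)) ^ k) ^ n = 2 ^ (2 * m * k * n) * 2 ^ (k * n) := by
    rw [← pow_mul, ← pow_mul, ← pow_add]; congr 1; ring
  have e2 : ((2 * (2 : ℝ) ^ k) ^ m) ^ (2 * n) = (2 ^ m) ^ (2 * n) * 2 ^ (2 * m * k * n) := by
    rw [mul_pow, mul_pow]
    congr 1
    rw [← pow_mul, ← pow_mul]; congr 1; ring
  rw [e0, e1, e2, mul_inv]
  have e3 : ((2 : ℝ) ^ (2 * m * k * n)) ≠ 0 := by positivity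
  calc ((2 : ℝ) ^ (2 * m * k * n))⁻¹ * (2 ^ (k * n))⁻¹ * ((2 ^ m) ^ (2 * n) * 2 ^ (2 * m * k * n))
      = (2 ^ m) ^ (2 * n) * (2 ^ (k * n))⁻¹ := by field_simp
    _ ≤ (2 ^ m) ^ (2 * n) * (1 / 2) ^ k := by
        gcongr
        rw [one_div, inv_pow]
        apply inv_anti₀ (by positivity)
        apply pow_le_pow_right₀ (by norm_num)
        calc k = k * 1 := by ring
          _ ≤ k * n := by gcongr

/-- Interpolation: `L^{2n} ∩ 𝔻^2_{2(m+K)} ⊂ 𝔻^n_{2m}`. -/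
lemma interp (h : RotInv μ) (H : Type*) [NormedAddCommGroup H] [InnerProductSpace ℝ H]
    [CompleteSpace H] {n : ℕ} (hn : 2 ≤ n) (m : ℕ) :
    ∃ (K : ℕ) (C : ℝ), 0 ≤ C ∧ ∀ Z : Lp H 2 μ, ‖Z‖ ≤ 1 →
      ∫⁻ ω, ‖PL h (gam (2 * (m + K))) Z ω‖ₑ ^ (2 * n) ∂μ ≤ 1 →
      ∫⁻ ω, ‖PL h (gam (2 * K)) Z ω‖ₑ ^ n ∂μ ≤ ENNReal.ofReal C := by
  set M := 2 * m + 1 with hM
  set K := M * n with hK
  set c₁ : ℝ := 4 * ((2 : ℝ) ^ M) ^ (n - 2) * ((m : ℝ) ^ (M * n)) ^ 2 with hc₁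
  set c₂ : ℝ := 2 ^ (2 * n) * (2 ^ K) ^ (2 * n) * (2 ^ m) ^ (2 * n) with hc₂
  refine ⟨K, 1 + 2 * (c₁ + c₂), by positivity, fun Z hZ hW => ?_⟩
  set Y : Lp H 2 μ := PL h (gam (2 * K)) Z with hY
  have hWY : PL h (gam (2 * (m + K))) Z = PL h (gam (2 * m)) Y := by
    rw [hY, PL_gam_add]; congr 2; ring_nf
  rw [hWY] at hW
  have hε : ∀ k : ℕ, 0 < (1 / 2 : ℝ) ^ k := fun k => by positivity
  choose S hS1 hS2 hS3 hS4 using fun k : ℕ => exists_res (μ := μ) H h (hε k)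
  let a : ℕ → Lp H 2 μ := fun k =>
    (∑ i ∈ Finset.range K, (1 - (S k) ^ m) ^ i) (((S k) ^ m) Y)
  let b : ℕ → Lp H 2 μ := fun k => ((1 - (S k) ^ m) ^ K) Y
  have hab : ∀ k, Y = a k + b k := fun k => geom_decomp ((S k) ^ m) K Y
  have hbn : ∀ k, ∫⁻ ω, ‖b k ω‖ₑ ^ 2 ∂μ
      ≤ ENNReal.ofReal (((m * (1 / 2) ^ k) ^ K) ^ 2) := by
    intro k
    have h1 : ‖b k‖ ≤ (m * (1 / 2) ^ k) ^ K := by
      calc ‖b k‖ ≤ (m * (1 / 2) ^ k) ^ K * ‖Z‖ :=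
            key6 h (hε k) (hS1 k) (hS3 k) (hS4 k) m K Z
        _ ≤ (m * (1 / 2) ^ k) ^ K * 1 := by gcongr
        _ = _ := mul_one _
    have h2 := eLpNorm_pow_eq (m := μ) (b k) 2 (by norm_num)
    push_cast at h2
    rw [← h2, eLpNorm_coe_Lp, ← ENNReal.ofReal_pow (norm_nonneg _)]
    gcongr
  have hn1 : (1 : ℝ≥0∞) ≤ ((2 * n : ℕ) : ℝ≥0∞) := by exact_mod_cast (by omega : 1 ≤ 2 * n)
  have han : ∀ k, ∫⁻ ω, ‖a k ω‖ₑ ^ (2 * n) ∂μ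
      ≤ ENNReal.ofReal ((2 ^ K) ^ (2 * n) * ((2 / (1 / 2) ^ k) ^ m) ^ (2 * n)) := by
    intro k
    have hc : Contr (S k) ((2 * n : ℕ) : ℝ≥0∞) := fun f =>
      hS2 k _ hn1 (ENNReal.natCast_ne_top _) f
    have h1 : eLpNorm (a k) ((2 * n : ℕ) : ℝ≥0∞) μ
        ≤ 2 ^ K * (ENNReal.ofReal ((2 / (1 / 2) ^ k) ^ m) * eLpNorm (PL h (gam (2 * m)) Y)
          ((2 * n : ℕ) : ℝ≥0∞) μ) := by
      refine ((hc.pow m).geom hn1 K _).trans ?_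
      gcongr
      exact key7 h (hε k) (hS3 k) (hS4 k) hn1 hc m Y
    have h3 : eLpNorm (PL h (gam (2 * m)) Y) ((2 * n : ℕ) : ℝ≥0∞) μ ^ (2 * n) ≤ 1 := by
      rw [eLpNorm_pow_eq _ _ (by omega)]
      exact hW
    rw [← eLpNorm_pow_eq _ _ (by omega)]
    calc _ ≤ (2 ^ K * (ENNReal.ofReal ((2 / (1 / 2) ^ k) ^ m) * eLpNorm (PL h (gam (2 * m)) Y)
          ((2 * n : ℕ) : ℝ≥0∞) μ)) ^ (2 * n) := by gcongr
      _ = (2 ^ K) ^ (2 * n) * ((ENNReal.ofReal ((2 / (1 / 2) ^ k) ^ m)) ^ (2 * n) *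
          eLpNorm (PL h (gam (2 * m)) Y) ((2 * n : ℕ) : ℝ≥0∞) μ ^ (2 * n)) := by
          rw [mul_pow, mul_pow]
      _ ≤ (2 ^ K) ^ (2 * n) * ((ENNReal.ofReal ((2 / (1 / 2) ^ k) ^ m)) ^ (2 * n) * 1) := by
          gcongr
      _ = _ := by
          have e4 : ENNReal.ofReal (((2 / (1 / 2) ^ k) ^ m) ^ (2 * n))
              = (ENNReal.ofReal ((2 / (1 / 2) ^ k) ^ m)) ^ (2 * n) :=
            ENNReal.ofReal_pow (by positivity) _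
          have e5 : ENNReal.ofReal ((2 ^ K) ^ (2 * n)) = (2 ^ K) ^ (2 * n) := by
            rw [ENNReal.ofReal_pow (by positivity), ENNReal.ofReal_pow (by positivity)]
            norm_num
          rw [mul_one, ENNReal.ofReal_mul (by positivity), e4, e5]
  have hpt : ∀ᵐ ω ∂μ, ‖Y ω‖ₑ ^ n ≤ 1 + ∑' k, (4 * ((2 ^ M) ^ (k + 1)) ^ (n - 2) *
      ‖b k ω‖ₑ ^ 2 + 2 ^ (2 * n) * ((((2 : ℝ≥0∞) ^ M) ^ k) ^ (2 * n - n))⁻¹
        * ‖a k ω‖ₑ ^ (2 * n)) := by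
    have h1 : ∀ k, ∀ᵐ ω ∂μ, Y ω = a k ω + b k ω := fun k => by
      have h2 := Lp.coeFn_add (a k) (b k)
      rw [← hab k] at h2
      exact h2
    filter_upwards [ae_all_iff.mpr h1] with ω hω
    refine dyadic2 n (2 * n) M hn (by omega) (by omega) ‖Y ω‖₊ (fun k => ‖a k ω‖₊)
      (fun k => ‖b k ω‖₊) (fun k => ?_)
    rw [hω k]
    exact nnnorm_add_le _ _
  have hmeasb : ∀ k, AEMeasurable (fun ω => ‖b k ω‖ₑ ^ 2) μ := fun k =>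
    (Lp.aestronglyMeasurable (b k)).enorm.pow_const 2
  have hmeasa : ∀ k, AEMeasurable (fun ω => ‖a k ω‖ₑ ^ (2 * n)) μ := fun k =>
    (Lp.aestronglyMeasurable (a k)).enorm.pow_const _
  have hterm1 : ∀ k, 4 * (((2 : ℝ≥0∞) ^ M) ^ (k + 1)) ^ (n - 2) * ∫⁻ ω, ‖b k ω‖ₑ ^ 2 ∂μ
      ≤ ENNReal.ofReal c₁ * ((2 : ℝ≥0∞)⁻¹) ^ k := by
    intro k
    have e1 : 4 * (((2 : ℝ≥0∞) ^ M) ^ (k + 1)) ^ (n - 2)
        = ENNReal.ofReal (4 * (((2 : ℝ) ^ M) ^ (k + 1)) ^ (n - 2)) := by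
      rw [ENNReal.ofReal_mul (by norm_num), ENNReal.ofReal_pow (by positivity),
        ENNReal.ofReal_pow (by positivity), ENNReal.ofReal_pow (by positivity)]
      norm_num
    rw [e1]
    refine (mul_le_mul_right (hbn k) _).trans ?_
    rw [← ENNReal.ofReal_mul (by positivity), ← ofReal_half_pow, ← ENNReal.ofReal_mul (by positivity)]
    exact ENNReal.ofReal_le_ofReal (real_term3 m n k hn)
  have hterm2 : ∀ k, 2 ^ (2 * n) * ((((2 : ℝ≥0∞) ^ M) ^ k) ^ (2 * n - n))⁻¹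
      * ∫⁻ ω, ‖a k ω‖ₑ ^ (2 * n) ∂μ ≤ ENNReal.ofReal c₂ * ((2 : ℝ≥0∞)⁻¹) ^ k := by
    intro k
    have e0 : 2 * n - n = n := by omega
    rw [e0]
    have e1 : 2 ^ (2 * n) * ((((2 : ℝ≥0∞) ^ M) ^ k) ^ n)⁻¹
        = ENNReal.ofReal (2 ^ (2 * n) * ((((2 : ℝ) ^ M) ^ k) ^ n)⁻¹) := by
      rw [ENNReal.ofReal_mul (by positivity), ENNReal.ofReal_inv_of_pos (by positivity),
        ENNReal.ofReal_pow (by positivity), ENNReal.ofReal_pow (by positivity),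
        ENNReal.ofReal_pow (by positivity), ENNReal.ofReal_pow (by positivity)]
      norm_num
    rw [e1]
    refine (mul_le_mul_right (han k) _).trans ?_
    rw [← ENNReal.ofReal_mul (by positivity), ← ofReal_half_pow, ← ENNReal.ofReal_mul (by positivity)]
    refine ENNReal.ofReal_le_ofReal ?_
    have h2 := real_term4 m n k (by omega)
    calc 2 ^ (2 * n) * ((((2 : ℝ) ^ M) ^ k) ^ n)⁻¹
          * ((2 ^ K) ^ (2 * n) * ((2 / (1 / 2) ^ k) ^ m) ^ (2 * n))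
        = (2 ^ (2 * n) * (2 ^ K) ^ (2 * n)) *
          (((((2 : ℝ) ^ M) ^ k) ^ n)⁻¹ * ((2 / (1 / 2) ^ k) ^ m) ^ (2 * n)) := by ring
      _ ≤ (2 ^ (2 * n) * (2 ^ K) ^ (2 * n)) * ((2 ^ m) ^ (2 * n) * (1 / 2) ^ k) := by gcongr
      _ = _ := by rw [hc₂]; ring
  calc ∫⁻ ω, ‖Y ω‖ₑ ^ n ∂μ
      ≤ ∫⁻ ω, (1 + ∑' k, (4 * ((2 ^ M) ^ (k + 1)) ^ (n - 2) * ‖b k ω‖ₑ ^ 2
        + 2 ^ (2 * n) * ((((2 : ℝ≥0∞) ^ M) ^ k) ^ (2 * n - n))⁻¹ * ‖a k ω‖ₑ ^ (2 * n))) ∂μ :=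
        lintegral_mono_ae hpt
    _ = 1 + ∑' k, (4 * ((2 ^ M) ^ (k + 1)) ^ (n - 2) * ∫⁻ ω, ‖b k ω‖ₑ ^ 2 ∂μ
        + 2 ^ (2 * n) * ((((2 : ℝ≥0∞) ^ M) ^ k) ^ (2 * n - n))⁻¹
          * ∫⁻ ω, ‖a k ω‖ₑ ^ (2 * n) ∂μ) := by
        rw [lintegral_add_left measurable_const, lintegral_const, measure_univ, mul_one,
          lintegral_tsum]
        · congr 1
          refine tsum_congr fun k => ?_
          rw [lintegral_add_left' ((hmeasb k).const_mul _), lintegral_const_mul'' _ (hmeasb k),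
            lintegral_const_mul'' _ (hmeasa k)]
        · exact fun k => ((hmeasb k).const_mul _).add ((hmeasa k).const_mul _)
    _ ≤ 1 + ∑' k, (ENNReal.ofReal c₁ * ((2 : ℝ≥0∞)⁻¹) ^ k
        + ENNReal.ofReal c₂ * ((2 : ℝ≥0∞)⁻¹) ^ k) :=
        add_le_add le_rfl (ENNReal.tsum_le_tsum fun k => add_le_add (hterm1 k) (hterm2 k))
    _ = 1 + (ENNReal.ofReal c₁ * 2 + ENNReal.ofReal c₂ * 2) := by
        rw [ENNReal.tsum_add, ENNReal.tsum_mul_left, ENNReal.tsum_mul_left, tsum_half]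
    _ = ENNReal.ofReal (1 + 2 * (c₁ + c₂)) := by
        have e2 : (2 : ℝ≥0∞) = ENNReal.ofReal 2 := by norm_num
        have e3 : (1 : ℝ≥0∞) = ENNReal.ofReal 1 := by norm_num
        rw [e2, e3, ← ENNReal.ofReal_mul (by positivity), ← ENNReal.ofReal_mul (by positivity),
          ← ENNReal.ofReal_add (by positivity) (by positivity),
          ← ENNReal.ofReal_add (by norm_num) (by positivity)]
        congr 1
        ring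

end Pool.Agent.H96.OU
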