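import Mathlib
import Pool.Agent.H96.OU.Fin2

open MeasureTheory ProbabilityTheory
open scoped ENNReal NNReal Real Topology RealInnerProductSpace

set_option linter.unusedSectionVars false

namespace Pool.Agent.H96.OU

variable {E : Type*} [NormedAddCommGroup E] [NormedSpace ℝ E] [MeasurableSpace E]
variable {H : Type*} [NormedAddCommGroup H] [InnerProductSpace ℝ H] [CompleteSpace H]
variable [BorelSpace E] [SecondCountableTopology E] {μ : Measure E} [IsProbabilityMeasure μ]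

lemma bessel_congr (h : RotInv μ) (r : ℕ) {f g : E → H} (hf : Integrable f μ)
    (hfg : f =ᵐ[μ] g) : bessel μ r f =ᵐ[μ] bessel μ r g := by
  refine (bessel_ae_eq h r hf).trans ((Pm_congr h hfg).trans ?_)
  exact (bessel_ae_eq h r (hf.congr hfg)).symm

lemma aesm_bessel (h : RotInv μ) (r : ℕ) {f : E → H} (hf : Integrable f μ) :
    AEStronglyMeasurable (bessel μ r f) μ :=
  (aestronglyMeasurable_Pm (ν := gam r) h hf.1).congr (bessel_ae_eq h r hf).symm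

lemma memLp_bessel (h : RotInv μ) (r : ℕ) {f : E → H} {p : ℝ≥0∞} (hp : 1 ≤ p) (hp' : p ≠ ∞)
    (hf : MemLp f p μ) : MemLp (bessel μ r f) p μ :=
  (memLp_congr_ae (bessel_ae_eq h r (hf.integrable hp))).mpr (memLp_Pm (ν := gam r) h hf hp hp')

lemma eLpNorm_bessel_le (h : RotInv μ) (r : ℕ) {f : E → H} {p : ℝ≥0∞} (hp : 1 ≤ p) (hp' : p ≠ ∞)
    (hf : MemLp f p μ) : eLpNorm (bessel μ r f) p μ ≤ eLpNorm f p μ := by
  rw [eLpNorm_congr_ae (bessel_ae_eq h r (hf.integrable hp))]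
  exact eLpNorm_Pm_le h hf.1 hp hp'

lemma bessel_bessel (h : RotInv μ) (a b : ℕ) {f : E → H} {p : ℝ≥0∞} (hp : 1 ≤ p) (hp' : p ≠ ∞)
    (hf : MemLp f p μ) : bessel μ (a + b) f =ᵐ[μ] bessel μ a (bessel μ b f) := by
  have hfi := hf.integrable hp
  refine (bessel_ae_eq h _ hfi).trans ?_
  refine Filter.EventuallyEq.trans ?_ (bessel_ae_eq h _ ((memLp_bessel h b hp hp' hf).integrable hp)).symm
  refine Filter.EventuallyEq.trans ?_ (Pm_congr h (bessel_ae_eq h b hfi).symm)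
  rw [← gam_conv]
  exact (Pm_Pm h hfi).symm

lemma mehler_const_smul (c : ℝ) (t : ℝ) (f : E → H) (x : E) :
    mehler μ t (fun y => c • f y) x = c • mehler μ t f x := by
  simp only [mehler]
  rw [integral_smul]

lemma bessel_const_smul (c : ℝ) (r : ℕ) (f : E → H) (x : E) :
    bessel μ r (fun y => c • f y) x = c • bessel μ r f x := by
  unfold bessel
  split_ifs
  · rfl
  · have h1 : ∀ t : ℝ, (t ^ ((r : ℝ) / 2 - 1) * Real.exp (-t)) • mehler μ t (fun y => c • f y) x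
        = c • ((t ^ ((r : ℝ) / 2 - 1) * Real.exp (-t)) • mehler μ t f x) := fun t => by
      rw [mehler_const_smul, smul_comm]
    simp only [h1]
    rw [integral_smul, smul_comm]

variable [SecondCountableTopology H]

lemma main_step (h : RotInv μ) {A : E → H →L[ℝ] H} (hA : Hyp μ A) {p : ℝ≥0∞} (hp : 1 < p)
    (hp' : p ≠ ∞) (r : ℕ) :
    ∃ (q : ℝ≥0∞) (T : ℕ) (C : ℝ), 1 < q ∧ q ≠ ∞ ∧ 0 ≤ C ∧ ∀ V : E → H, MemDInfty μ V →
      ∀ S : ℝ, 0 < S → ∀ U : E → H, MemLp U q μ → V =ᵐ[μ] bessel μ T U →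
        eLpNorm U q μ ≤ ENNReal.ofReal S →
        ∃ Y : E → H, MemLp Y p μ ∧ (fun ω => A ω (V ω)) =ᵐ[μ] bessel μ r Y ∧
          eLpNorm Y p μ ≤ ENNReal.ofReal (C * S) := by
  set n : ℕ := max 2 ⌈p.toReal⌉₊ with hn
  have hn2 : 2 ≤ n := le_max_left _ _
  have hpn : p ≤ ((n : ℕ) : ℝ≥0∞) := by
    have h1 : p.toReal ≤ (n : ℝ) := (Nat.le_ceil _).trans (by exact_mod_cast le_max_right _ _)
    rw [← ENNReal.ofReal_toReal hp']
    calc ENNReal.ofReal p.toReal ≤ ENNReal.ofReal (n : ℝ) := ENNReal.ofReal_le_ofReal h1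
      _ = _ := ENNReal.ofReal_natCast n
  obtain ⟨K, C₂, hC₂0, hC₂⟩ := interp h H hn2 r
  obtain ⟨M, C₁, hC₁0, hC₁⟩ := bessel_bound h hA (n := 2 * n) (by omega)
  obtain ⟨s, C₃, hC₃⟩ := hA.cont (2 * (r + K))
  have hq1 : (1 : ℝ≥0∞) < ((8 * (2 * n) : ℕ) : ℝ≥0∞) := by exact_mod_cast (by omega : 1 < 8 * (2 * n))
  have hqt : ((8 * (2 * n) : ℕ) : ℝ≥0∞) ≠ ∞ := ENNReal.natCast_ne_top _
  set c : ℝ := 1 + C₁ + C₃ with hc
  have hc1 : 1 ≤ c := by have := NNReal.coe_nonneg C₃; linarith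
  refine ⟨((8 * (2 * n) : ℕ) : ℝ≥0∞), 2 * M + s, c * (1 + C₂), hq1, hqt, by positivity,
    fun V hV S hS U hU hVU hUS => ?_⟩
  have hUi : Integrable U μ := hU.integrable hq1.le
  -- the bound in `L^{2n}`
  set U' : E → H := fun ω => S⁻¹ • U ω with hU'
  have hU'm : MemLp U' ((8 * (2 * n) : ℕ) : ℝ≥0∞) μ := hU.const_smul S⁻¹
  have hU'1 : ∫⁻ ω, ‖U' ω‖ₑ ^ (8 * (2 * n)) ∂μ ≤ 1 := by
    rw [← eLpNorm_pow_eq _ _ (by omega)]
    have h1 : eLpNorm U' ((8 * (2 * n) : ℕ) : ℝ≥0∞) μ ≤ 1 := by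
      have h2 : eLpNorm U' ((8 * (2 * n) : ℕ) : ℝ≥0∞) μ
          = ‖S⁻¹‖ₑ * eLpNorm U ((8 * (2 * n) : ℕ) : ℝ≥0∞) μ := eLpNorm_const_smul _ _ _ _
      rw [h2]
      calc ‖S⁻¹‖ₑ * eLpNorm U ((8 * (2 * n) : ℕ) : ℝ≥0∞) μ
          ≤ ENNReal.ofReal S⁻¹ * ENNReal.ofReal S := by
            rw [Real.enorm_eq_ofReal (by positivity)]
            gcongr
        _ = 1 := by
            rw [← ENNReal.ofReal_mul (by positivity), inv_mul_cancel₀ hS.ne', ENNReal.ofReal_one]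
    calc _ ≤ (1 : ℝ≥0∞) ^ (8 * (2 * n)) := by gcongr
      _ = 1 := one_pow _
  have hU''m := memLp_bessel h s hq1.le hqt hU'm
  have hU''1 : ∫⁻ ω, ‖bessel μ s U' ω‖ₑ ^ (8 * (2 * n)) ∂μ ≤ 1 := by
    refine le_trans ?_ hU'1
    rw [← eLpNorm_pow_eq _ _ (by omega), ← eLpNorm_pow_eq _ _ (by omega)]
    gcongr
    exact eLpNorm_bessel_le h s hq1.le hqt hU'm
  have hL := hC₁ _ hU''m.1 hU''1
  have hVU' : (fun ω => S⁻¹ • V ω) =ᵐ[μ] bessel μ (2 * M) (bessel μ s U') := by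
    refine Filter.EventuallyEq.trans ?_ (bessel_bessel h (2 * M) s hq1.le hqt hU'm)
    filter_upwards [hVU] with ω hω
    rw [hω, hU', bessel_const_smul]
  have hL' : ∫⁻ ω, ‖S⁻¹ • A ω (V ω)‖ₑ ^ (2 * n) ∂μ ≤ ENNReal.ofReal C₁ := by
    refine le_trans (le_of_eq ?_) hL
    refine lintegral_congr_ae ?_
    filter_upwards [hVU'] with ω hω
    rw [← hω, map_smul]
  -- the Sobolev bound
  have hV2 : MemDTwoInfty μ V := fun r => hV 2 (by norm_num) (by norm_num) r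
  have hU2 : MemLp U 2 μ := hU.mono_exponent (by exact_mod_cast (by omega : 2 ≤ 8 * (2 * n)))
  have h2S : eLpNorm U 2 μ ≤ ENNReal.ofReal S :=
    (eLpNorm_le_eLpNorm_of_exponent_le
      (by exact_mod_cast (by omega : 2 ≤ 8 * (2 * n))) hU.1).trans hUS
  have hsV : sobolevNorm μ 2 s V ≤ ENNReal.ofReal S := by
    have h1 : V =ᵐ[μ] bessel μ s (bessel μ (2 * M) U) := by
      refine hVU.trans ?_
      rw [add_comm]
      exact bessel_bessel h s (2 * M) (by norm_num) (by norm_num) hU2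
    refine (sobolevNorm_le (memLp_bessel h (2 * M) (by norm_num) (by norm_num) hU2) h1).trans ?_
    exact (eLpNorm_bessel_le h (2 * M) (by norm_num) (by norm_num) hU2).trans h2S
  have hlt : sobolevNorm μ 2 (2 * (r + K)) (fun ω => A ω (V ω)) < ENNReal.ofReal (c * S) := by
    calc sobolevNorm μ 2 (2 * (r + K)) (fun ω => A ω (V ω)) ≤ C₃ * sobolevNorm μ 2 s V := hC₃ V hV2
      _ ≤ C₃ * ENNReal.ofReal S := by gcongr
      _ = ENNReal.ofReal (C₃ * S) := ofReal_coe_mul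
      _ < _ := by
          rw [ENNReal.ofReal_lt_ofReal_iff (by positivity)]
          gcongr
          linarith
  unfold sobolevNorm at hlt
  simp only [iInf_lt_iff] at hlt
  obtain ⟨Z₀, hZ₀, hAV, hZ₀n⟩ := hlt
  set Z₁ : Lp H 2 μ := hZ₀.toLp Z₀ with hZ₁
  have hAV' : (fun ω => A ω (V ω)) =ᵐ[μ] PL h (gam (2 * (r + K))) Z₁ := by
    refine hAV.trans ((bessel_ae_eq h _ (hZ₀.integrable (by norm_num))).trans ?_)
    refine Filter.EventuallyEq.trans ?_ (PL_coe h _ _).symm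
    exact Pm_congr h hZ₀.coeFn_toLp.symm
  have hZ₁n : ‖Z₁‖ ≤ c * S := by
    rw [hZ₁, Lp.norm_toLp]
    exact ENNReal.toReal_le_of_le_ofReal (by positivity) hZ₀n.le
  have hcS : 0 < c * S := by positivity
  set Z : Lp H 2 μ := (c * S)⁻¹ • Z₁ with hZ
  have hZn : ‖Z‖ ≤ 1 := by
    rw [hZ, norm_smul, Real.norm_of_nonneg (by positivity), inv_mul_le_iff₀ hcS, mul_one]
    exact hZ₁n
  have hZL : ∫⁻ ω, ‖PL h (gam (2 * (r + K))) Z ω‖ₑ ^ (2 * n) ∂μ ≤ 1 := by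
    have h1 : (PL h (gam (2 * (r + K))) Z : E → H) =ᵐ[μ] fun ω => c⁻¹ • (S⁻¹ • A ω (V ω)) := by
      rw [hZ, map_smul]
      filter_upwards [Lp.coeFn_smul (c * S)⁻¹ (PL h (gam (2 * (r + K))) Z₁), hAV'] with ω h2 h3
      rw [h2, Pi.smul_apply, ← h3, smul_smul, mul_inv]
    calc ∫⁻ ω, ‖PL h (gam (2 * (r + K))) Z ω‖ₑ ^ (2 * n) ∂μ
        = ∫⁻ ω, (ENNReal.ofReal c⁻¹) ^ (2 * n) * ‖S⁻¹ • A ω (V ω)‖ₑ ^ (2 * n) ∂μ := by
          refine lintegral_congr_ae ?_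
          filter_upwards [h1] with ω hω
          rw [hω, enorm_smul, mul_pow, Real.enorm_eq_ofReal (by positivity)]
      _ = (ENNReal.ofReal c⁻¹) ^ (2 * n) * ∫⁻ ω, ‖S⁻¹ • A ω (V ω)‖ₑ ^ (2 * n) ∂μ :=
          lintegral_const_mul' _ _ (by finiteness)
      _ ≤ (ENNReal.ofReal c⁻¹) ^ (2 * n) * ENNReal.ofReal C₁ := by gcongr
      _ ≤ ENNReal.ofReal c⁻¹ * ENNReal.ofReal c := by
          gcongr
          · have h3 : ENNReal.ofReal c⁻¹ ≤ 1 := by
              rw [← ENNReal.ofReal_one]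
              exact ENNReal.ofReal_le_ofReal (inv_le_one_of_one_le₀ hc1)
            calc (ENNReal.ofReal c⁻¹) ^ (2 * n) ≤ (ENNReal.ofReal c⁻¹) ^ 1 :=
                  pow_le_pow_of_le_one zero_le h3 (by omega)
              _ = _ := pow_one _
          · have := NNReal.coe_nonneg C₃
            linarith
      _ = 1 := by
          rw [← ENNReal.ofReal_mul (by positivity), inv_mul_cancel₀ (by positivity),
            ENNReal.ofReal_one]
  have hfin := hC₂ Z hZn hZL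
  have hY1 : eLpNorm (PL h (gam (2 * K)) Z) ((n : ℕ) : ℝ≥0∞) μ ≤ ENNReal.ofReal (1 + C₂) := by
    have h1 : eLpNorm (PL h (gam (2 * K)) Z) ((n : ℕ) : ℝ≥0∞) μ ^ n
        ≤ (ENNReal.ofReal (1 + C₂)) ^ n := by
      rw [eLpNorm_pow_eq _ _ (by omega)]
      calc _ ≤ ENNReal.ofReal C₂ := hfin
        _ ≤ (ENNReal.ofReal (1 + C₂)) ^ 1 := by
            rw [pow_one]; exact ENNReal.ofReal_le_ofReal (by linarith)
        _ ≤ (ENNReal.ofReal (1 + C₂)) ^ n := by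
            apply pow_le_pow_right₀ _ (by omega)
            rw [← ENNReal.ofReal_one]
            exact ENNReal.ofReal_le_ofReal (by linarith)
    exact (ENNReal.pow_le_pow_left_iff (by omega)).mp h1
  set Y' : Lp H 2 μ := PL h (gam (2 * K)) Z₁ with hY'
  have hY'Z : (Y' : E → H) =ᵐ[μ] fun ω => (c * S) • PL h (gam (2 * K)) Z ω := by
    have h1 : Y' = (c * S) • PL h (gam (2 * K)) Z := by
      rw [hY', hZ, map_smul, smul_smul, mul_inv_cancel₀ hcS.ne', one_smul]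
    rw [h1]
    exact Lp.coeFn_smul _ _
  have hY'n : eLpNorm Y' ((n : ℕ) : ℝ≥0∞) μ ≤ ENNReal.ofReal (c * (1 + C₂) * S) := by
    rw [eLpNorm_congr_ae hY'Z]
    have h2 : eLpNorm (fun ω => (c * S) • PL h (gam (2 * K)) Z ω) ((n : ℕ) : ℝ≥0∞) μ
        = ‖c * S‖ₑ * eLpNorm (PL h (gam (2 * K)) Z) ((n : ℕ) : ℝ≥0∞) μ :=
      eLpNorm_const_smul _ _ _ _
    rw [h2, Real.enorm_eq_ofReal hcS.le]
    calc ENNReal.ofReal (c * S) * eLpNorm (PL h (gam (2 * K)) Z) ((n : ℕ) : ℝ≥0∞) μ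
        ≤ ENNReal.ofReal (c * S) * ENNReal.ofReal (1 + C₂) := by gcongr
      _ = _ := by rw [← ENNReal.ofReal_mul (by positivity)]; congr 1; ring
  have hY'm : MemLp Y' ((n : ℕ) : ℝ≥0∞) μ :=
    ⟨Lp.aestronglyMeasurable _, hY'n.trans_lt ENNReal.ofReal_lt_top⟩
  have hn1 : (1 : ℝ≥0∞) ≤ ((n : ℕ) : ℝ≥0∞) := by exact_mod_cast (by omega : 1 ≤ n)
  have hY''m := memLp_bessel h r hn1 (ENNReal.natCast_ne_top _) hY'm
  refine ⟨bessel μ r Y', hY''m.mono_exponent hpn, ?_, ?_⟩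
  · refine hAV'.trans ?_
    have h1 : PL h (gam (2 * (r + K))) Z₁ = PL h (gam (2 * r)) Y' := by
      rw [hY', PL_gam_add]; congr 2; ring_nf
    rw [h1]
    refine (bessel_ae_PL h (2 * r) Y').trans ?_
    rw [two_mul]
    exact bessel_bessel h r r hn1 (ENNReal.natCast_ne_top _) hY'm
  · calc eLpNorm (bessel μ r Y') p μ ≤ eLpNorm (bessel μ r Y') ((n : ℕ) : ℝ≥0∞) μ :=
          eLpNorm_le_eLpNorm_of_exponent_le hpn hY''m.1
      _ ≤ eLpNorm Y' ((n : ℕ) : ℝ≥0∞) μ :=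
          eLpNorm_bessel_le h r hn1 (ENNReal.natCast_ne_top _) hY'm
      _ ≤ _ := hY'n

theorem main_hyp (h : RotInv μ) {A : E → H →L[ℝ] H} (hA : Hyp μ A) :
    (∀ V : E → H, MemDInfty μ V → MemDInfty μ fun ω => A ω (V ω)) ∧
    ∀ p : ℝ≥0∞, 1 < p → p ≠ ∞ → ∀ r : ℕ, ∃ (q : ℝ≥0∞) (s : ℕ) (C : ℝ≥0), 1 < q ∧ q ≠ ∞ ∧
      ∀ V : E → H, MemDInfty μ V →
        sobolevNorm μ p r (fun ω => A ω (V ω)) ≤ C * sobolevNorm μ q s V := by
  constructor
  · intro V hV p hp hp' r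
    obtain ⟨q, T, C, hq1, hqt, hC0, hC⟩ := main_step h hA hp hp' r
    obtain ⟨U, hU, hVU⟩ := hV q hq1 hqt T
    have h1 : eLpNorm U q μ ≤ ENNReal.ofReal ((eLpNorm U q μ).toReal + 1) := by
      rw [ENNReal.ofReal_add ENNReal.toReal_nonneg zero_le_one, ENNReal.ofReal_toReal hU.2.ne]
      exact le_self_add
    obtain ⟨Y, hY1, hY2, -⟩ := hC V hV ((eLpNorm U q μ).toReal + 1) (by positivity) U hU hVU h1
    exact ⟨Y, hY1, hY2⟩
  · intro p hp hp' r
    obtain ⟨q, T, C, hq1, hqt, hC0, hC⟩ := main_step h hA hp hp' r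
    refine ⟨q, T, C.toNNReal + 1, hq1, hqt, fun V hV => ?_⟩
    have hb : ∀ U : E → H, MemLp U q μ → V =ᵐ[μ] bessel μ T U →
        sobolevNorm μ p r (fun ω => A ω (V ω)) ≤ ((C.toNNReal + 1 : ℝ≥0) : ℝ≥0∞) * eLpNorm U q μ := by
      intro U hU hVU
      set x := (eLpNorm U q μ).toReal with hx
      have hx0 : 0 ≤ x := ENNReal.toReal_nonneg
      have hUx : eLpNorm U q μ = ENNReal.ofReal x := (ENNReal.ofReal_toReal hU.2.ne).symm
      have h1 : ∀ ε : ℝ, 0 < ε → sobolevNorm μ p r (fun ω => A ω (V ω))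
          ≤ ENNReal.ofReal (C * (x + ε)) := by
        intro ε hε
        have h2 : eLpNorm U q μ ≤ ENNReal.ofReal (x + ε) := by
          rw [hUx]; exact ENNReal.ofReal_le_ofReal (by linarith)
        obtain ⟨Y, hY1, hY2, hY3⟩ := hC V hV (x + ε) (by positivity) U hU hVU h2
        exact (sobolevNorm_le hY1 hY2).trans hY3
      rw [hUx, ofReal_coe_mul]
      have h3 : sobolevNorm μ p r (fun ω => A ω (V ω)) ≠ ∞ :=
        ne_top_of_le_ne_top ENNReal.ofReal_ne_top (h1 1 one_pos)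
      rw [ENNReal.le_ofReal_iff_toReal_le h3 (by positivity)]
      have hCC : ((C.toNNReal + 1 : ℝ≥0) : ℝ) = C + 1 := by
        rw [NNReal.coe_add, Real.coe_toNNReal _ hC0, NNReal.coe_one]
      rw [hCC]
      refine le_of_forall_pos_le_add fun ε hε => ?_
      have h4 := ENNReal.toReal_mono ENNReal.ofReal_ne_top (h1 (ε / (C + 1)) (by positivity))
      rw [ENNReal.toReal_ofReal (by positivity)] at h4
      have h5 : C * (ε / (C + 1)) ≤ ε := by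
        rw [← mul_div_assoc, div_le_iff₀ (by positivity)]
        nlinarith
      calc _ ≤ C * (x + ε / (C + 1)) := h4
        _ = C * x + C * (ε / (C + 1)) := by ring
        _ ≤ (C + 1) * x + ε := by nlinarith
    have hne : ((C.toNNReal + 1 : ℝ≥0) : ℝ≥0∞) ≠ 0 := by simp
    have hnt : ((C.toNNReal + 1 : ℝ≥0) : ℝ≥0∞) ≠ ∞ := ENNReal.coe_ne_top
    conv_rhs => unfold sobolevNorm
    rw [ENNReal.mul_iInf_of_ne hne hnt]
    refine le_iInf fun U => ?_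
    rw [ENNReal.mul_iInf_of_ne hne hnt]
    refine le_iInf fun hU => ?_
    rw [ENNReal.mul_iInf_of_ne hne hnt]
    exact le_iInf fun hVU => hb U hU hVU

end Pool.Agent.H96.OU
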