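import Mathlib
import Pool.Agent.H96.OU.Fin3

open MeasureTheory ProbabilityTheory
open scoped ENNReal NNReal Real Topology RealInnerProductSpace

set_option linter.unusedSectionVars false

namespace Pool.Agent.H96.OU

variable {E : Type*} [NormedAddCommGroup E] [NormedSpace ℝ E] [MeasurableSpace E]
variable {H : Type*} [NormedAddCommGroup H] [InnerProductSpace ℝ H] [CompleteSpace H]

/-- a weakly a.e.-measurable operator field has a strongly measurable version -/
lemma exists_version [SecondCountableTopology H] {μ : Measure E} {A : E → H →L[ℝ] H}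
    (hA : ∀ x : H, AEStronglyMeasurable (fun ω => A ω x) μ) :
    ∃ A' : E → H →L[ℝ] H, (∀ x : H, StronglyMeasurable fun ω => A' ω x) ∧ A' =ᵐ[μ] A := by
  classical
  set u := TopologicalSpace.denseSeq H with hu
  have h1 : ∀ᵐ ω ∂μ, ∀ k, A ω (u k) = (hA (u k)).mk _ ω :=
    ae_all_iff.mpr fun k => (hA (u k)).ae_eq_mk
  obtain ⟨N, hN, hNm, hN0⟩ := exists_measurable_superset_of_null h1
  refine ⟨fun ω => if ω ∈ N then 0 else A ω, fun x => ?_, ?_⟩
  · obtain ⟨k, -, hk⟩ : ∃ k : ℕ → ℕ, True ∧ Filter.Tendsto (fun j => u (k j)) Filter.atTop (𝓝 x) := by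
      have h2 : ∀ j : ℕ, ∃ k, dist x (u k) < 1 / ((j : ℝ) + 1) := fun j =>
        (TopologicalSpace.denseRange_denseSeq H).exists_dist_lt x (by positivity)
      choose k hk using h2
      refine ⟨k, trivial, ?_⟩
      rw [tendsto_iff_dist_tendsto_zero]
      refine squeeze_zero (fun _ => dist_nonneg) (fun j => ?_) tendsto_one_div_add_atTop_nhds_zero_nat
      rw [dist_comm]
      exact (hk j).le
    refine stronglyMeasurable_of_tendsto Filter.atTop
      (f := fun j ω => (if ω ∈ N then (0 : H →L[ℝ] H) else A ω) (u (k j))) (fun j => ?_) ?_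
    · have h3 : (fun ω => (if ω ∈ N then (0 : H →L[ℝ] H) else A ω) (u (k j)))
          = Set.indicator Nᶜ ((hA (u (k j))).mk _) := by
        ext ω
        by_cases hω : ω ∈ N
        · simp [hω]
        · have h4 : ∀ k, A ω (u k) = (hA (u k)).mk _ ω := by
            by_contra hc
            exact hω (hN hc)
          simp [hω, h4 (k j)]
      rw [h3]
      exact (hA (u (k j))).stronglyMeasurable_mk.indicator hNm.compl
    · rw [tendsto_pi_nhds]
      intro ω
      exact ((if ω ∈ N then (0 : H →L[ℝ] H) else A ω).continuous.tendsto x).comp hk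
  · have h5 : ∀ᵐ ω ∂μ, ω ∉ N := by rw [ae_iff]; simpa using hN0
    filter_upwards [h5] with ω hω
    simp [hω]

lemma MemDTwoInfty.congr {μ : Measure E} {V V' : E → H} (hV : V =ᵐ[μ] V')
    (h : MemDTwoInfty μ V) : MemDTwoInfty μ V' := fun r => by
  obtain ⟨U, hU, hVU⟩ := h r
  exact ⟨U, hU, hV.symm.trans hVU⟩

lemma MemDInfty.congr {μ : Measure E} {V V' : E → H} (hV : V =ᵐ[μ] V')
    (h : MemDInfty μ V) : MemDInfty μ V' := fun p hp hp' r => by
  obtain ⟨U, hU, hVU⟩ := h p hp hp' r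
  exact ⟨U, hU, hV.symm.trans hVU⟩

lemma sobolevNorm_congr' {μ : Measure E} {p : ℝ≥0∞} {r : ℕ} {V V' : E → H} (hV : V =ᵐ[μ] V') :
    sobolevNorm μ p r V = sobolevNorm μ p r V' := by
  unfold sobolevNorm
  congr 1; ext U
  congr 1; ext hU
  exact iInf_congr_Prop ⟨fun h => hV.symm.trans h, fun h => hV.trans h⟩ fun _ => rfl

theorem main_ae [CompleteSpace E] [SecondCountableTopology E] [BorelSpace E]
    (μ : Measure E) [IsGaussian μ] (hμ : ∫ x, x ∂μ = 0) [SecondCountableTopology H]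
    (A : E → H →L[ℝ] H) (hAm : ∀ x : H, AEStronglyMeasurable (fun ω => A ω x) μ)
    (hmap : ∀ V : E → H, MemDTwoInfty μ V → MemDTwoInfty μ fun ω => A ω (V ω))
    (hcont : ∀ r : ℕ, ∃ (s : ℕ) (C : ℝ≥0), ∀ V : E → H, MemDTwoInfty μ V →
      sobolevNorm μ 2 r (fun ω => A ω (V ω)) ≤ C * sobolevNorm μ 2 s V) :
    (∀ V : E → H, MemDInfty μ V → MemDInfty μ fun ω => A ω (V ω)) ∧
    ∀ p : ℝ≥0∞, 1 < p → p ≠ ∞ → ∀ r : ℕ, ∃ (q : ℝ≥0∞) (s : ℕ) (C : ℝ≥0), 1 < q ∧ q ≠ ∞ ∧
      ∀ V : E → H, MemDInfty μ V →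
        sobolevNorm μ p r (fun ω => A ω (V ω)) ≤ C * sobolevNorm μ q s V := by
  have hrot : RotInv μ := fun θ => IsGaussian.map_rotation_eq_self hμ θ
  obtain ⟨A', hA'm, hA'⟩ := exists_version hAm
  have hev : ∀ V : E → H, (fun ω => A' ω (V ω)) =ᵐ[μ] fun ω => A ω (V ω) := fun V => by
    filter_upwards [hA'] with ω hω
    rw [hω]
  have hyp : Hyp μ A' :=
    { meas := hA'm
      map := fun V hV => (hmap V hV).congr (hev V).symm
      cont := fun r => by
        obtain ⟨s, C, hC⟩ := hcont r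
        refine ⟨s, C, fun V hV => ?_⟩
        rw [sobolevNorm_congr' (hev V)]
        exact hC V hV }
  obtain ⟨h1, h2⟩ := main_hyp hrot hyp
  refine ⟨fun V hV => (h1 V hV).congr (hev V), fun p hp hp' r => ?_⟩
  obtain ⟨q, s, C, hq, hq', hC⟩ := h2 p hp hp' r
  refine ⟨q, s, C, hq, hq', fun V hV => ?_⟩
  rw [← sobolevNorm_congr' (hev V)]
  exact hC V hV

end Pool.Agent.H96.OU
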